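import Pool.Agent.Work.MP_2dff99_ag.F5.Model
import Pool.Agent.Work.MP_2dff99_ag.F5.DMap

open MvPolynomial

namespace Pool.Agent.Work.MP_2dff99_ag.F5

/-- extension of scalars on pairs of binary forms -/
private noncomputable def bcIota {L K : Type} [Field L] [Field K] (f : L →+* K) :
    (Fin 2 → R2 L) →+ (Fin 2 → R2 K) where
  toFun p := fun j => MvPolynomial.map f (p j)
  map_zero' := by
    funext j
    simp
  map_add' p q := by
    funext j
    simp

private theorem bcIota_apply {L K : Type} [Field L] [Field K] (f : L →+* K)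
    (p : Fin 2 → R2 L) (j : Fin 2) : bcIota f p j = MvPolynomial.map f (p j) := rfl

private theorem bc_smul {L K : Type} [Field L] [Field K] (f : L →+* K) (a : L)
    (p : Fin 2 → R2 L) : bcIota f (a • p) = f a • bcIota f p := by
  funext j
  rw [bcIota_apply, Pi.smul_apply, Pi.smul_apply, bcIota_apply, MvPolynomial.smul_eq_C_mul,
    map_mul, MvPolynomial.map_C, MvPolynomial.smul_eq_C_mul]

private theorem bc_rho {L K : Type} [Field L] [Field K] (f : L →+* K) (D : Datum L)
    (i : Fin 4) (p : Fin 2 → R2 L) :
    bcIota f (D.rho (X i) p) = (D.map f).rho (X i) (bcIota f p) := by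
  refine Fin.lastCases ?_ (fun i => ?_) i
  · have e1 : (Fin.last 3 : Fin 4) = 3 := rfl
    rw [e1, rho_X3, rho_X3, phi_map]
    funext j
    rw [bcIota_apply, Matrix.mulVec, Matrix.mulVec, dotProduct, dotProduct, map_sum]
    refine Finset.sum_congr rfl fun l _ => ?_
    rw [map_mul, Matrix.map_apply, bcIota_apply]
  · rw [rho_X, rho_X]
    funext j
    rw [bcIota_apply, map_mul, bcIota_apply]
    congr 1
    simp [lineVec, Datum.map]

private noncomputable def bcBasis (L : Type) [Field L] :
    Module.Basis (Σ _ : Fin 2, (Fin 2 →₀ ℕ)) L (Fin 2 → R2 L) :=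
  Pi.basis fun _ => MvPolynomial.basisMonomials (Fin 2) L

private theorem bc_basis {L K : Type} [Field L] [Field K] (f : L →+* K)
    (j : Σ _ : Fin 2, (Fin 2 →₀ ℕ)) : bcIota f (bcBasis L j) = bcBasis K j := by
  funext i
  rw [bcIota_apply, bcBasis, bcBasis, Pi.basis_apply, Pi.basis_apply]
  by_cases h : i = j.1
  · subst h
    simp
  · simp [h]

/-- the sheaf of a datum commutes with base change -/
theorem baseChange_datum {L K : Type} [Field L] [Field K] [Algebra L K] (D : Datum L) :
    BaseChange D.sheaf (D.map (algebraMap L K)).sheaf := by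
  refine ⟨bcIota (algebraMap L K), fun a m => bc_smul _ a m, fun i m => bc_rho _ D i m,
    fun n m hm => ?_, (Σ _ : Fin 2, (Fin 2 →₀ ℕ)), bcBasis L, ?_, ?_⟩
  · exact ⟨homZ_map _ hm.1, homZ_map _ hm.2⟩
  · have h := (bcBasis K).linearIndependent
    have e : (fun j => bcIota (algebraMap L K) (bcBasis L j)) = bcBasis K := by
      funext j
      exact bc_basis _ j
    rw [← e] at h
    exact h
  · have h := (bcBasis K).span_eq
    have e : (fun j => bcIota (algebraMap L K) (bcBasis L j)) = bcBasis K := by
      funext j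
      exact bc_basis _ j
    rw [← e] at h
    exact h

end Pool.Agent.Work.MP_2dff99_ag.F5
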