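import Pool.Agent.Work.MP_2dff99_ag.F5.PointD

open MvPolynomial

namespace Pool.Agent.Work.MP_2dff99_ag.F5

namespace Cub

theorem hom_cube {k : Type} [Field k] (a b : k) :
    HomZ (C a * X 0 ^ 3 + C b * X 1 ^ 3 : R2 k) 3 := by
  have h0 : ∀ (c : k) (i : Fin 2), HomZ (C c * X i ^ 3 : R2 k) 3 := by
    intro c i
    have := homZ_mul (homZ_C c) (homZ_pow (homZ_X (k := k) i) 3)
    simpa using this
  exact homZ_add (h0 a 0) (h0 b 1)

theorem root3 {K : Type*} [Field K] (φ : ℚ →+* K) (r : K)
    (h : Polynomial.eval₂ φ r (Polynomial.X ^ 3 - Polynomial.C 3 * Polynomial.X +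
      Polynomial.C 1) = 0) : r ^ 3 = 3 * r - 1 := by
  simp only [Polynomial.eval₂_add, Polynomial.eval₂_sub, Polynomial.eval₂_mul,
    Polynomial.eval₂_pow, Polynomial.eval₂_X, Polynomial.eval₂_C] at h
  rw [map_ofNat, map_one] at h
  linear_combination h

theorem root2 {K : Type*} [Field K] (φ : ℚ →+* K) (r : K)
    (h : Polynomial.eval₂ φ r (Polynomial.X ^ 2 - Polynomial.C 97) = 0) : r ^ 2 = 97 := by
  simp only [Polynomial.eval₂_sub, Polynomial.eval₂_pow, Polynomial.eval₂_X,
    Polynomial.eval₂_C] at h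
  rw [map_ofNat] at h
  linear_combination h

theorem no_rat (a : ℚ) (h : a ^ 3 - 3 * a + 1 = 0) : False := by
  have hint : IsIntegral ℤ a := by
    refine ⟨Polynomial.X ^ 3 - Polynomial.C 3 * Polynomial.X + Polynomial.C 1, ?_, ?_⟩
    · monicity!
    · simp only [Polynomial.eval₂_add, Polynomial.eval₂_sub, Polynomial.eval₂_mul,
        Polynomial.eval₂_pow, Polynomial.eval₂_X, Polynomial.eval₂_C]
      rw [map_ofNat, map_one]
      exact h
  obtain ⟨n, hn⟩ := IsIntegrallyClosed.algebraMap_eq_of_integral hint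
  have hn' : (n : ℚ) = a := by simpa using hn
  rw [← hn'] at h
  have h1 : n ^ 3 - 3 * n + 1 = 0 := by exact_mod_cast h
  have h2 : n ∣ 1 := ⟨3 - n ^ 2, by linear_combination h1⟩
  rcases Int.isUnit_iff.1 (isUnit_of_dvd_one h2) with rfl | rfl
  · norm_num at h1
  · norm_num at h1

end Cub

/-- a datum over a field containing the three roots of `X ^ 3 - 3 X + 1`

PROOF. As in RealPt.lean (`sextic_two`, `ind_PQ`, `hom_cube` there are stated over `ℝ`; copy them over
`L`): choose `P, Q` with `xi (θ i) P = ![1,0,0] i`, `xi (θ i) Q = ![0,1,0] i` (`xi_surj`). By `sextic_diag`,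
`- sextic (lineVec P Q) = 10 (1 - θ 0)^2 X0^6 + 10 (1 - θ 1)^2 X1^6` (`ext_eval`; the product of the
three `xi` is 0 since `xi (θ 2) = 0` on this line). With `a = (1 - θ 0) X0^3`, `b = (1 - θ 1) X1^3`:
`10 a^2 + 10 b^2 = (3 a + b)^2 + (a - 3 b)^2`, so the datum is `e = 0`, `fa = 3 a + b`,
`fc = fd = a - 3 b`. -/
theorem cubic_datum (L : Type) [Field L] [CharZero L] (θ : Fin 3 → L) (h : Roots θ) :
    Nonempty (Datum L) := by
  have hinf : Infinite L := CharZero.infinite L
  obtain ⟨P, hP⟩ := xi_surj h ![1, 0, 0]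
  obtain ⟨Q, hQ⟩ := xi_surj h ![0, 1, 0]
  have ind : LinearIndependent L ![P, Q] := by
    rw [LinearIndependent.pair_iff]
    intro s t hst
    have hx : ∀ i, s * xi (θ i) P + t * xi (θ i) Q = 0 := by
      intro i
      have h0 := congrFun hst 0
      have h1 := congrFun hst 1
      have h2 := congrFun hst 2
      simp only [Pi.add_apply, Pi.smul_apply, smul_eq_mul, Pi.zero_apply] at h0 h1 h2
      simp only [xi]
      linear_combination h0 + θ i * h1 + θ i ^ 2 * h2
    have h0 := hx 0
    have h1 := hx 1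
    rw [hP, hQ] at h0 h1
    simp at h0 h1
    exact ⟨h0, h1⟩
  have hsx : - sextic (lineVec P Q) = C (10 * (1 - θ 0) ^ 2) * X 0 ^ 6 +
      C (10 * (1 - θ 1) ^ 2) * X 1 ^ 6 := by
    apply ext_eval
    intro s t
    rw [map_neg, eval_sextic_line, sextic_diag h]
    have hx : ∀ i, xi (θ i) (fun j => s * P j + t * Q j) = s * xi (θ i) P + t * xi (θ i) Q := by
      intro i; simp only [xi]; ring
    simp only [hx, hP, hQ, Fin.sum_univ_three, Fin.prod_univ_three]
    simp
    ring
  refine ⟨{ P := P, Q := Q, ind := ind, e := 0, he := by norm_num,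
            fa := C (3 * (1 - θ 0)) * X 0 ^ 3 + C (1 - θ 1) * X 1 ^ 3,
            fc := C (1 - θ 0) * X 0 ^ 3 + C (-(3 * (1 - θ 1))) * X 1 ^ 3,
            fd := C (1 - θ 0) * X 0 ^ 3 + C (-(3 * (1 - θ 1))) * X 1 ^ 3,
            ha := Cub.hom_cube _ _, hc := ?_, hd := ?_, rel := ?_ }⟩
  · simpa using Cub.hom_cube (1 - θ 0) (-(3 * (1 - θ 1)))
  · simpa using Cub.hom_cube (1 - θ 0) (-(3 * (1 - θ 1)))
  · rw [hsx]
    simp only [map_mul, map_neg, map_sub, map_one, map_pow, map_ofNat]
    ring

/-- a cubic field with a datum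

PROOF. `f = X^3 - 3 X + 1 : ℚ[X]` is irreducible (degree 3, no rational root; e.g.
`Polynomial.irreducible_iff_roots_eq_zero_of_degree_le_three` and the rational root theorem, or
reduction modulo 2). `L = AdjoinRoot f`, `finrank = 3`, `roots_of_root` (Sx.lean) with
`a = AdjoinRoot.root f`, and `cubic_datum`. -/
theorem cubic_point : ∃ (L : Type) (_ : Field L) (_ : CharZero L) (_ : Algebra ℚ L),
    Module.finrank ℚ L = 3 ∧ Nonempty (Datum L) := by
  set f : Polynomial ℚ := Polynomial.X ^ 3 - Polynomial.C 3 * Polynomial.X + Polynomial.C 1 with hf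
  have hd : f.natDegree = 3 := by
    rw [hf]
    compute_degree!
  have hirr : Irreducible f := by
    rw [Polynomial.irreducible_iff_roots_eq_zero_of_degree_le_three (by omega) (by omega)]
    rw [Multiset.eq_zero_iff_forall_notMem]
    intro a ha
    have hf0 : f ≠ 0 := by
      intro h0
      rw [h0] at hd
      simp at hd
    have ha' := (Polynomial.mem_roots hf0).1 ha
    rw [Polynomial.IsRoot.def, hf] at ha'
    simp only [Polynomial.eval_add, Polynomial.eval_sub, Polynomial.eval_mul, Polynomial.eval_pow,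
      Polynomial.eval_X, Polynomial.eval_C] at ha'
    exact Cub.no_rat a ha'
  have : Fact (Irreducible f) := ⟨hirr⟩
  refine ⟨AdjoinRoot f, inferInstance, inferInstance, inferInstance, ?_, ?_⟩
  · rw [(AdjoinRoot.powerBasis hirr.ne_zero).finrank, AdjoinRoot.powerBasis_dim, hd]
  · have hr : (AdjoinRoot.root f) ^ 3 = 3 * AdjoinRoot.root f - 1 :=
      Cub.root3 (AdjoinRoot.of f) _ (AdjoinRoot.eval₂_root f)
    exact cubic_datum _ _ (roots_of_root (by norm_num) _ hr)

/-- a quadratic field with a datum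

PROOF. `L = AdjoinRoot (X^2 - 97 : ℚ[X])`, `r` the root, `- sextic ![1, 0, 0] = 97 = r ^ 2`
(`sextic_expand`) and `datum_of_point` (PointD.lean). -/
theorem quad_point : ∃ (L : Type) (_ : Field L) (_ : CharZero L) (_ : Algebra ℚ L),
    Module.finrank ℚ L = 2 ∧ Nonempty (Datum L) := by
  set f : Polynomial ℚ := Polynomial.X ^ 2 - Polynomial.C 97 with hf
  have hd : f.natDegree = 2 := by
    rw [hf]
    compute_degree!
  have hirr : Irreducible f := by
    rw [Polynomial.irreducible_iff_roots_eq_zero_of_degree_le_three (by omega) (by omega)]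
    rw [Multiset.eq_zero_iff_forall_notMem]
    intro a ha
    have hf0 : f ≠ 0 := by
      intro h0
      rw [h0] at hd
      simp at hd
    have ha' := (Polynomial.mem_roots hf0).1 ha
    rw [Polynomial.IsRoot.def, hf] at ha'
    simp only [Polynomial.eval_sub, Polynomial.eval_pow, Polynomial.eval_X,
      Polynomial.eval_C] at ha'
    have h1 : IsSquare (97 : ℚ) := ⟨a, by linear_combination -ha'⟩
    have h2 : IsSquare ((97 : ℕ) : ℚ) := by exact_mod_cast h1
    rw [Rat.isSquare_natCast_iff] at h2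
    exact absurd h2 (by decide +kernel)
  have : Fact (Irreducible f) := ⟨hirr⟩
  refine ⟨AdjoinRoot f, inferInstance, inferInstance, inferInstance, ?_, ?_⟩
  · rw [(AdjoinRoot.powerBasis hirr.ne_zero).finrank, AdjoinRoot.powerBasis_dim, hd]
  · have hr : (AdjoinRoot.root f) ^ 2 = 97 :=
      Cub.root2 (AdjoinRoot.of f) _ (AdjoinRoot.eval₂_root f)
    refine datum_of_point _ ![1, 0, 0] ?_ (AdjoinRoot.root f) ?_
    · intro h
      have := congrFun h 0
      simp at this
    · rw [hr, sextic_expand]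
      simp

end Pool.Agent.Work.MP_2dff99_ag.F5
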