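import Pool.Agent.Work.MP_2dff99_ag.F5.LocG

namespace Pool.Agent.Work.MP_2dff99_ag.F5

namespace Loc2

theorem maskOk : LocG.MaskOk (2 ^ 3) (2 ^ 2) 2 := by
  intro r hr h
  interval_cases r
  all_goals first
    | exact absurd h (by decide)
    | exact ⟨1, by decide, by decide⟩

theorem check : LocG.chk (2 ^ 3) 2 [(0, 1), (1, 0), (1, 1)] = true := by
  decide +kernel

end Loc2

/-- every line over `ℚ_2` contains a point at which `- sextic` is a nonzero square -/
theorem loc_point_two [Fact (Nat.Prime 2)] (P Q : Fin 3 → ℚ_[2])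
    (ind : LinearIndependent ℚ_[2] ![P, Q]) :
    ∃ s t r : ℚ_[2], r ≠ 0 ∧ - sextic (fun i => s * P i + t * Q i) = r ^ 2 :=
  LocG.loc_general 2 3 2 (by norm_num) _ _ Loc2.maskOk Loc2.check P Q ind

end Pool.Agent.Work.MP_2dff99_ag.F5
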