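import Pool.Agent.Work.MP_2dff99_ag.F5.Sx

open MvPolynomial

namespace Pool.Agent.Work.MP_2dff99_ag.F5

namespace NT

/-- the final algebraic computation -/
theorem alg {K : Type*} [Field K] (h2 : (2 : K) ≠ 0) (h3 : (3 : K) ≠ 0)
    (S T G1 G2 M A B : K) (e6 : A + 1 = S ^ 2) (e5 : 6 = 2 * S * G1)
    (e4 : 15 + M = 2 * S * G2 + G1 ^ 2) (e3 : 20 + 2 * M = 2 * S * T + 2 * G1 * G2)
    (e2 : 15 + M = 2 * G1 * T + G2 ^ 2) (e1 : 6 = 2 * G2 * T) (e0 : B + 1 = T ^ 2)
    (hA : A ≠ 0) (hM : 1000 * M ^ 3 = 343 * (A * B)) :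
    ((125343 : K) = 0 ∧ 4 * ((A + B) * (A + 1) * (B + 1)) = 81 * (A * B)) ∨
    ((35939744 : K) = 0 ∧ (A + B) * (A + 1) * (B + 1) = 8 * (A * B)) := by
  have f1 : S * G1 = 3 := by
    have : 2 * (S * G1 - 3) = 0 := by linear_combination -e5
    have := (mul_eq_zero.mp this).resolve_left h2
    linear_combination this
  have f2 : G2 * T = 3 := by
    have : 2 * (G2 * T - 3) = 0 := by linear_combination -e1
    have := (mul_eq_zero.mp this).resolve_left h2
    linear_combination this
  have f3 : 10 + M = S * T + G1 * G2 := by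
    have : 2 * (10 + M - (S * T + G1 * G2)) = 0 := by linear_combination e3
    have := (mul_eq_zero.mp this).resolve_left h2
    linear_combination this
  have hS : S ≠ 0 := by
    intro h
    rw [h, zero_mul] at f1
    exact h3 f1.symm
  have hT : T ≠ 0 := by
    intro h
    rw [h, mul_zero] at f2
    exact h3 f2.symm
  -- multiply out by S^2 T^2
  have g4 : (15 + M) * (S ^ 2 * T ^ 2) = 6 * S ^ 3 * T + 9 * T ^ 2 := by
    rw [e4]
    linear_combination (2 * S ^ 3 * T) * f2 + (T ^ 2 * (S * G1 + 3)) * f1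
  have g2 : (15 + M) * (S ^ 2 * T ^ 2) = 6 * T ^ 3 * S + 9 * S ^ 2 := by
    rw [e2]
    linear_combination (2 * T ^ 3 * S) * f1 + (S ^ 2 * (G2 * T + 3)) * f2
  have g3 : (10 + M) * (S * T) = S ^ 2 * T ^ 2 + 9 := by
    rw [f3]
    linear_combination (G2 * T) * f1 + 3 * f2
  have hprod : (S ^ 2 - T ^ 2) * (3 * (2 * (S * T) - 3)) = 0 := by
    linear_combination g2 - g4
  rcases mul_eq_zero.mp hprod with hc | hc
  · have hc' : (S - T) * (S + T) = 0 := by linear_combination hc
    rcases mul_eq_zero.mp hc' with hc1 | hc1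
    · -- S = T
      have hST : T = S := by linear_combination -hc1
      subst hST
      have k1 : (15 + M) * T ^ 2 = 6 * T ^ 2 + 9 := by
        have : T ^ 2 * ((15 + M) * T ^ 2 - (6 * T ^ 2 + 9)) = 0 := by linear_combination g4
        have := (mul_eq_zero.mp this).resolve_left (pow_ne_zero 2 hT)
        linear_combination this
      have k2 : T ^ 2 = 1 := by
        have : T ^ 2 * (T ^ 2 - 1) = 0 := by linear_combination k1 - g3
        have := (mul_eq_zero.mp this).resolve_left (pow_ne_zero 2 hT)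
        linear_combination this
      exact absurd (by linear_combination e6 + k2) hA
    · -- S = -T
      have hST : S = -T := by linear_combination hc1
      subst hST
      have k1 : (15 + M) * T ^ 2 = -6 * T ^ 2 + 9 := by
        have : T ^ 2 * ((15 + M) * T ^ 2 - (-6 * T ^ 2 + 9)) = 0 := by linear_combination g4
        have := (mul_eq_zero.mp this).resolve_left (pow_ne_zero 2 hT)
        linear_combination this
      have k3 : (10 + M) * T ^ 2 = -T ^ 4 - 9 := by linear_combination -g3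
      have k4 : (T ^ 2 - 9) * (T ^ 2 - 2) = 0 := by linear_combination k3 - k1
      rcases mul_eq_zero.mp k4 with h | h
      · have hT2 : T ^ 2 = 9 := by linear_combination h
        have hA' : A = 8 := by linear_combination e6 + hT2
        have hB' : B = 8 := by linear_combination e0 + hT2
        have hM' : M = -20 := by
          have : 9 * (M + 20) = 0 := by
            have h9 := k1
            rw [hT2] at h9
            linear_combination h9
          have h9 : (9 : K) ≠ 0 := by
            have : (9 : K) = 3 * 3 := by norm_num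
            rw [this]
            exact mul_ne_zero h3 h3
          have := (mul_eq_zero.mp this).resolve_left h9
          linear_combination this
        rw [hA', hB', hM'] at hM
        have h64 : (64 : K) ≠ 0 := by
          have : (64 : K) = 2 ^ 6 := by norm_num
          rw [this]
          exact pow_ne_zero 6 h2
        have : (64 : K) * 125343 = 0 := by linear_combination -hM
        left
        refine ⟨(mul_eq_zero.mp this).resolve_left h64, ?_⟩
        rw [hA', hB']
        norm_num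
      · have hT2 : T ^ 2 = 2 := by linear_combination h
        have hA' : A = 1 := by linear_combination e6 + hT2
        have hB' : B = 1 := by linear_combination e0 + hT2
        have hM' : 2 * M = -33 := by
          have h9 := k1
          rw [hT2] at h9
          linear_combination h9
        have h8 : 8 * M ^ 3 = -35937 := by
          have : (2 * M) ^ 3 = (-33) ^ 3 := by rw [hM']
          linear_combination this
        rw [hA', hB'] at hM
        right
        refine ⟨by linear_combination 1000 * h8 - 8 * hM, ?_⟩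
        rw [hA', hB']
        norm_num
  · have hc1 : 2 * (S * T) = 3 := by
      have := (mul_eq_zero.mp hc).resolve_left h3
      linear_combination this
    -- M = -5/2
    have hM' : 2 * M = -5 := by
      have h6 : 3 * (2 * M + 5) = 0 := by
        linear_combination 4 * g3 - (20 + 2 * M - (2 * (S * T) + 3)) * hc1
      have := (mul_eq_zero.mp h6).resolve_left h3
      linear_combination this
    -- S^2 + T^2
    have hsum : 8 * (S ^ 2 + T ^ 2) = 25 := by
      -- 4 * (15+M) S^2 T^2 = (15+M) 9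
      have h7 : (15 + M) * 9 = 36 * S ^ 2 + 36 * T ^ 2 := by
        have h8 : 4 * (S ^ 2 * T ^ 2) = 9 := by
          have : (2 * (S * T)) ^ 2 = 3 ^ 2 := by rw [hc1]
          linear_combination this
        linear_combination 4 * g4 - (15 + M) * h8 + 12 * S ^ 2 * hc1
      have h9 : (9 : K) ≠ 0 := by
        have : (9 : K) = 3 * 3 := by norm_num
        rw [this]
        exact mul_ne_zero h3 h3
      have h10 : 9 * (8 * (S ^ 2 + T ^ 2) - 25) = 0 := by
        linear_combination -2 * h7 + 9 * hM'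
      have := (mul_eq_zero.mp h10).resolve_left h9
      linear_combination this
    have hAB : 8 * (A * B) = 1 := by
      have h8 : 4 * (S ^ 2 * T ^ 2) = 9 := by
        have : (2 * (S * T)) ^ 2 = 3 ^ 2 := by rw [hc1]
        linear_combination this
      have hA' : A = S ^ 2 - 1 := by linear_combination e6
      have hB' : B = T ^ 2 - 1 := by linear_combination e0
      rw [hA', hB']
      linear_combination 2 * h8 - hsum
    have h11 : (125343 : K) = 0 := by
      have h12 : (2 * M) ^ 3 = (-5) ^ 3 := by rw [hM']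
      linear_combination (-8) * hM + 1000 * h12 - 343 * hAB
    left
    refine ⟨h11, ?_⟩
    have h8 : 4 * (S ^ 2 * T ^ 2) = 9 := by
      have : (2 * (S * T)) ^ 2 = 3 ^ 2 := by rw [hc1]
      linear_combination this
    have hs8 : 8 * (A + B) = 9 := by linear_combination 8 * e6 + 8 * e0 + hsum
    have h8ne : (8 : K) ≠ 0 := by
      have : (8 : K) = 2 ^ 3 := by norm_num
      rw [this]
      exact pow_ne_zero 3 h2
    apply mul_left_cancel₀ h8ne
    rw [e6, e0]
    linear_combination (4 * S ^ 2 * T ^ 2) * hs8 + 9 * h8 - 81 * hAB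

theorem poly7 {K : Type*} [Field K] [Infinite K] (e0 e1 e2 e3 e4 e5 e6 : K)
    (h : ∀ x : K, e0 + e1 * x + e2 * x ^ 2 + e3 * x ^ 3 + e4 * x ^ 4 + e5 * x ^ 5 + e6 * x ^ 6 = 0) :
    e0 = 0 ∧ e1 = 0 ∧ e2 = 0 ∧ e3 = 0 ∧ e4 = 0 ∧ e5 = 0 ∧ e6 = 0 := by
  have hp : (Polynomial.C e0 + Polynomial.C e1 * Polynomial.X + Polynomial.C e2 * Polynomial.X ^ 2 +
      Polynomial.C e3 * Polynomial.X ^ 3 + Polynomial.C e4 * Polynomial.X ^ 4 +
      Polynomial.C e5 * Polynomial.X ^ 5 + Polynomial.C e6 * Polynomial.X ^ 6 :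
      Polynomial K) = 0 := by
    apply Polynomial.funext
    intro x
    simpa using h x
  have hc : ∀ n : ℕ, (Polynomial.C e0 + Polynomial.C e1 * Polynomial.X +
      Polynomial.C e2 * Polynomial.X ^ 2 +
      Polynomial.C e3 * Polynomial.X ^ 3 + Polynomial.C e4 * Polynomial.X ^ 4 +
      Polynomial.C e5 * Polynomial.X ^ 5 + Polynomial.C e6 * Polynomial.X ^ 6 :
      Polynomial K).coeff n = 0 := by
    intro n
    rw [hp]
    simp
  have c0 := hc 0
  have c1 := hc 1
  have c2 := hc 2
  have c3 := hc 3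
  have c4 := hc 4
  have c5 := hc 5
  have c6 := hc 6
  simp [Polynomial.coeff_X, Polynomial.coeff_C, Polynomial.coeff_X_pow] at c0 c1 c2 c3 c4 c5 c6
  exact ⟨c0, c1, c2, c3, c4, c5, c6⟩

/-- the univariate statement -/
theorem uni {K : Type*} [Field K] [IsAlgClosed K] (h2 : (2 : K) ≠ 0) (h3 : (3 : K) ≠ 0)
    (h5 : (5 : K) ≠ 0) (h11 : (-7 : K) ≠ 0) (a b c u v κ : K)
    (habc : a * b * c = -1000) (g : Polynomial K)
    (h : ∀ x : K, a * x ^ 6 + b + c * (u * x + v) ^ 6 + (-7) * (x * (u * x + v)) ^ 2 =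
      κ * (g.eval x) ^ 2) : u ≠ 0 ∧ v ≠ 0 ∧
    (((125343 : K) = 0 ∧ 4 * ((b + c * v ^ 6) * (a + c * u ^ 6) * (a * v ^ 6 + b * u ^ 6)) =
      81 * (a * b * c) * (u * v) ^ 6) ∨
    ((35939744 : K) = 0 ∧ (b + c * v ^ 6) * (a + c * u ^ 6) * (a * v ^ 6 + b * u ^ 6) =
      8 * (a * b * c) * (u * v) ^ 6)) := by
  have h64 : (-1000 : K) ≠ 0 := by
    have : (-1000 : K) = -((2 * 5) ^ 3) := by norm_num
    rw [this]
    exact neg_ne_zero.2 (pow_ne_zero 3 (mul_ne_zero h2 h5))
  have ha : a ≠ 0 := by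
    rintro rfl
    apply h64
    rw [← habc]
    ring
  have hb : b ≠ 0 := by
    rintro rfl
    apply h64
    rw [← habc]
    ring
  have hc : c ≠ 0 := by
    rintro rfl
    apply h64
    rw [← habc]
    ring
  have hinf : Infinite K := IsAlgClosed.instInfinite
  -- degree of g
  obtain ⟨g', hg'deg, hg'⟩ : ∃ g' : Polynomial K, g'.natDegree < 4 ∧
      ∀ x : K, κ * (g.eval x) ^ 2 = κ * (g'.eval x) ^ 2 := by
    by_cases hκ : κ = 0
    · refine ⟨0, by simp, fun x => ?_⟩
      rw [hκ]
      ring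
    · refine ⟨g, ?_, fun x => rfl⟩
      have hpoly : (Polynomial.C a * Polynomial.X ^ 6 + Polynomial.C b +
          Polynomial.C c * (Polynomial.C u * Polynomial.X + Polynomial.C v) ^ 6 +
          Polynomial.C (-7) * (Polynomial.X * (Polynomial.C u * Polynomial.X + Polynomial.C v)) ^ 2 :
          Polynomial K) = Polynomial.C κ * g ^ 2 := by
        apply Polynomial.funext
        intro x
        simpa using h x
      have hdeg : (Polynomial.C a * Polynomial.X ^ 6 + Polynomial.C b +
          Polynomial.C c * (Polynomial.C u * Polynomial.X + Polynomial.C v) ^ 6 +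
          Polynomial.C (-7) * (Polynomial.X * (Polynomial.C u * Polynomial.X + Polynomial.C v)) ^ 2 :
          Polynomial K).natDegree ≤ 6 := by
        compute_degree
      rw [hpoly, Polynomial.natDegree_C_mul hκ, Polynomial.natDegree_pow] at hdeg
      omega
  obtain ⟨g0, g1, g2, g3, hgx⟩ : ∃ g0 g1 g2 g3 : K, ∀ x : K,
      g'.eval x = g3 + g2 * x + g1 * x ^ 2 + g0 * x ^ 3 := by
    refine ⟨g'.coeff 3, g'.coeff 2, g'.coeff 1, g'.coeff 0, fun x => ?_⟩
    rw [Polynomial.eval_eq_sum_range' hg'deg]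
    simp [Finset.sum_range_succ]
  have hmain : ∀ x : K, a * x ^ 6 + b + c * (u * x + v) ^ 6 + (-7) * (x * (u * x + v)) ^ 2 =
      κ * (g3 + g2 * x + g1 * x ^ 2 + g0 * x ^ 3) ^ 2 := by
    intro x
    rw [h x, hg' x, hgx x]
  obtain ⟨c0, c1, c2, c3, c4, c5, c6⟩ := poly7
    (b + c * v ^ 6 - κ * g3 ^ 2)
    (6 * c * u * v ^ 5 - κ * (2 * g2 * g3))
    (15 * c * u ^ 2 * v ^ 4 + (-7) * v ^ 2 - κ * (2 * g1 * g3 + g2 ^ 2))
    (20 * c * u ^ 3 * v ^ 3 + (-14) * u * v - κ * (2 * g0 * g3 + 2 * g1 * g2))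
    (15 * c * u ^ 4 * v ^ 2 + (-7) * u ^ 2 - κ * (2 * g0 * g2 + g1 ^ 2))
    (6 * c * u ^ 5 * v - κ * (2 * g0 * g1))
    (a + c * u ^ 6 - κ * g0 ^ 2)
    (fun x => by linear_combination hmain x)
  by_cases hv : v = 0
  · subst hv
    have k0 : κ * g3 ^ 2 = b := by linear_combination -c0
    have hκ3 : κ * g3 ^ 2 ≠ 0 := by rw [k0]; exact hb
    have hκ : κ ≠ 0 := left_ne_zero_of_mul hκ3
    have hg3 : g3 ≠ 0 := fun h => by simp [h] at hκ3
    have h2κg : 2 * κ * g3 ≠ 0 := mul_ne_zero (mul_ne_zero h2 hκ) hg3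
    have k2 : g2 = 0 := by
      have : 2 * κ * g3 * g2 = 0 := by linear_combination -c1
      exact (mul_eq_zero.mp this).resolve_left h2κg
    subst k2
    have k1 : g1 = 0 := by
      have : 2 * κ * g3 * g1 = 0 := by linear_combination -c2
      exact (mul_eq_zero.mp this).resolve_left h2κg
    subst k1
    have k0' : g0 = 0 := by
      have : 2 * κ * g3 * g0 = 0 := by linear_combination -c3
      exact (mul_eq_zero.mp this).resolve_left h2κg
    subst k0'
    have ku : u = 0 := by
      have : (-7) * u ^ 2 = 0 := by linear_combination c4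
      have := (mul_eq_zero.mp this).resolve_left h11
      exact pow_eq_zero_iff two_ne_zero |>.mp this
    subst ku
    exact absurd (by linear_combination c6) ha
  by_cases hu : u = 0
  · subst hu
    have k0 : κ * g0 ^ 2 = a := by linear_combination -c6
    have hκ3 : κ * g0 ^ 2 ≠ 0 := by rw [k0]; exact ha
    have hκ : κ ≠ 0 := left_ne_zero_of_mul hκ3
    have hg3 : g0 ≠ 0 := fun h => by simp [h] at hκ3
    have h2κg : 2 * κ * g0 ≠ 0 := mul_ne_zero (mul_ne_zero h2 hκ) hg3
    have k2 : g1 = 0 := by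
      have : 2 * κ * g0 * g1 = 0 := by linear_combination -c5
      exact (mul_eq_zero.mp this).resolve_left h2κg
    subst k2
    have k1 : g2 = 0 := by
      have : 2 * κ * g0 * g2 = 0 := by linear_combination -c4
      exact (mul_eq_zero.mp this).resolve_left h2κg
    subst k1
    have k0' : g3 = 0 := by
      have : 2 * κ * g0 * g3 = 0 := by linear_combination -c3
      exact (mul_eq_zero.mp this).resolve_left h2κg
    subst k0'
    have ku : v = 0 := by
      have : (-7) * v ^ 2 = 0 := by linear_combination c2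
      have := (mul_eq_zero.mp this).resolve_left h11
      exact pow_eq_zero_iff two_ne_zero |>.mp this
    exact absurd ku hv
  obtain ⟨ρ, hρ⟩ := IsAlgClosed.exists_pow_nat_eq (κ / c) (n := 2) (by norm_num)
  have hκρ : κ = ρ ^ 2 * c := by
    rw [hρ]
    field_simp
  have hu6 : c * u ^ 6 ≠ 0 := mul_ne_zero hc (pow_ne_zero 6 hu)
  refine ⟨hu, hv, ?_⟩
  have key := alg h2 h3 (ρ * g0 / u ^ 3) (ρ * g3 / v ^ 3) (ρ * g1 / (u ^ 2 * v))
    (ρ * g2 / (u * v ^ 2)) (-7 / (c * u ^ 2 * v ^ 2)) (a / (c * u ^ 6)) (b / (c * v ^ 6))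
    ?_ ?_ ?_ ?_ ?_ ?_ ?_ ?_ ?_
  · rcases key with ⟨k1, k2⟩ | ⟨k1, k2⟩
    · left
      refine ⟨k1, ?_⟩
      field_simp at k2
      linear_combination k2
    · right
      refine ⟨k1, ?_⟩
      field_simp at k2
      linear_combination k2
  · field_simp
    rw [hκρ] at c6
    linear_combination c6
  · field_simp
    rw [hκρ] at c5
    have : c * (6 * u ^ 5 * v - ρ ^ 2 * (2 * g0 * g1)) = 0 := by linear_combination c5
    have := (mul_eq_zero.mp this).resolve_left hc
    linear_combination this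
  · field_simp
    rw [hκρ] at c4
    linear_combination c4
  · field_simp
    rw [hκρ] at c3
    linear_combination c3
  · field_simp
    rw [hκρ] at c2
    linear_combination c2
  · field_simp
    rw [hκρ] at c1
    have : c * (6 * u * v ^ 5 - ρ ^ 2 * (2 * g2 * g3)) = 0 := by linear_combination c1
    have := (mul_eq_zero.mp this).resolve_left hc
    linear_combination this
  · field_simp
    rw [hκρ] at c0
    linear_combination c0
  · exact div_ne_zero ha hu6
  · field_simp
    linear_combination (-343) * habc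

theorem xi_comb {K : Type*} [Field K] (θ α β : K) (P Q : Fin 3 → K) :
    xi θ (fun i => α * P i + β * Q i) = α * xi θ P + β * xi θ Q := by
  unfold xi
  ring

theorem perm3 : ∀ i j : Fin 3, i ≠ j → ∃ σ : Equiv.Perm (Fin 3), σ 0 = i ∧ σ 1 = j := by
  decide

/-- the zero of `ξ_k` on the line through `P`, `Q` -/
def pt {K : Type*} [CommRing K] (θ : Fin 3 → K) (P Q : Fin 3 → K) (k : Fin 3) : Fin 3 → K :=
  fun n => xi (θ k) Q * P n + (-xi (θ k) P) * Q n

/-- the product of the three minors -/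
def dd {K : Type*} [CommRing K] (θ : Fin 3 → K) (P Q : Fin 3 → K) : K :=
  (xi (θ 0) P * xi (θ 1) Q - xi (θ 1) P * xi (θ 0) Q) *
  (xi (θ 1) P * xi (θ 2) Q - xi (θ 2) P * xi (θ 1) Q) *
  (xi (θ 2) P * xi (θ 0) Q - xi (θ 0) P * xi (θ 2) Q)

theorem closed {K : Type} [Field K] [IsAlgClosed K] (h2 : (2 : K) ≠ 0) (h3 : (3 : K) ≠ 0)
    (h5 : (5 : K) ≠ 0) (h11 : (-7 : K) ≠ 0) (P Q : Fin 3 → K)
    (hPQ : ∃ i j, P i * Q j - P j * Q i ≠ 0) (κ : K) (g : R2 K)
    (h : sextic (lineVec P Q) = C κ * g ^ 2) : ∃ θ : Fin 3 → K, Roots θ ∧ dd θ P Q ≠ 0 ∧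
    (((125343 : K) = 0 ∧ 4 * ∏ k, sextic (pt θ P Q k) = 81 * (-1000) * dd θ P Q ^ 6) ∨
    ((35939744 : K) = 0 ∧ ∏ k, sextic (pt θ P Q k) = 8 * (-1000) * dd θ P Q ^ 6)) := by
  obtain ⟨θ, hθ⟩ := roots_exist K h3
  -- a nonzero minor
  obtain ⟨i, j, hij⟩ : ∃ i j, xi (θ i) P * xi (θ j) Q - xi (θ j) P * xi (θ i) Q ≠ 0 := by
    by_contra hcon
    push Not at hcon
    obtain ⟨i, j, hm⟩ := hPQ
    have key : ∀ l, (xi (θ l) Q = 0 ∧ xi (θ l) P = 0) := by
      intro l
      have hz : (fun n => xi (θ l) Q * P n + (-xi (θ l) P) * Q n) = (0 : Fin 3 → K) := by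
        apply xi_inj hθ
        intro n
        rw [xi_comb]
        linear_combination hcon n l
      have e1 : ∀ n, xi (θ l) Q * P n = xi (θ l) P * Q n := by
        intro n
        have := congrFun hz n
        simp only [Pi.zero_apply] at this
        linear_combination this
      constructor
      · have : xi (θ l) Q * (P i * Q j - P j * Q i) = 0 := by
          linear_combination Q j * e1 i - Q i * e1 j
        exact (mul_eq_zero.mp this).resolve_right hm
      · have : xi (θ l) P * (P i * Q j - P j * Q i) = 0 := by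
          linear_combination P j * e1 i - P i * e1 j
        exact (mul_eq_zero.mp this).resolve_right hm
    have hP : P = 0 := xi_inj hθ P (fun l => (key l).2)
    apply hm
    simp [hP]
  have hne : i ≠ j := by
    rintro rfl
    apply hij
    ring
  obtain ⟨σ, hσ0, hσ1⟩ := perm3 i j hne
  set θ' : Fin 3 → K := fun n => θ (σ n) with hθ'
  have hR : Roots θ' := ⟨fun n => hθ.root (σ n), hθ.inj.comp σ.injective⟩
  set p0 := xi (θ' 0) P with hp0
  set p1 := xi (θ' 1) P with hp1
  set p2 := xi (θ' 2) P with hp2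
  set q0 := xi (θ' 0) Q with hq0
  set q1 := xi (θ' 1) Q with hq1
  set q2 := xi (θ' 2) Q with hq2
  have hΔ : p0 * q1 - p1 * q0 ≠ 0 := by
    rw [hp0, hp1, hq0, hq1, hθ']
    simp only [hσ0, hσ1]
    exact hij
  set Δ := p0 * q1 - p1 * q0 with hΔdef
  set g1 : Polynomial K := aeval ![Polynomial.C (q1 / Δ) * Polynomial.X - Polynomial.C (q0 / Δ),
    Polynomial.C (p0 / Δ) - Polynomial.C (p1 / Δ) * Polynomial.X] g with hg1
  have hev : ∀ x : K, g1.eval x = eval ![(x * q1 - q0) / Δ, (p0 - x * p1) / Δ] g := by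
    intro x
    have hhom : (Polynomial.evalRingHom x).comp
        (aeval (R := K) ![Polynomial.C (q1 / Δ) * Polynomial.X - Polynomial.C (q0 / Δ),
        Polynomial.C (p0 / Δ) - Polynomial.C (p1 / Δ) * Polynomial.X]).toRingHom =
        (eval ![(x * q1 - q0) / Δ, (p0 - x * p1) / Δ] : R2 K →+* K) := by
      apply MvPolynomial.ringHom_ext
      · intro r
        simp
      · intro n
        fin_cases n
        · simp
          ring
        · simp
          ring
    have := congrArg (fun f : R2 K →+* K => f g) hhom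
    simpa [hg1] using this
  have habc : (-10 * (1 - θ' 0) ^ 2) * (-10 * (1 - θ' 1) ^ 2) * (-10 * (1 - θ' 2) ^ 2) =
      -1000 := by
    have hpr := roots_prod hR
    rw [Fin.prod_univ_three] at hpr
    have : (-10 * (1 - θ' 0) ^ 2) * (-10 * (1 - θ' 1) ^ 2) * (-10 * (1 - θ' 2) ^ 2) =
        -1000 * ((1 - θ' 0) * (1 - θ' 1) * (1 - θ' 2)) ^ 2 := by ring
    rw [this, hpr]
    norm_num
  have hΔ' : Δ ≠ 0 := hΔ
  obtain ⟨hu, hv, hcases⟩ := uni h2 h3 h5 h11 (-10 * (1 - θ' 0) ^ 2) (-10 * (1 - θ' 1) ^ 2)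
    (-10 * (1 - θ' 2) ^ 2) ((p2 * q1 - q2 * p1) / Δ) ((q2 * p0 - p2 * q0) / Δ) κ habc g1 (by
    intro x
    have e1 := eval_sextic_line P Q ((x * q1 - q0) / Δ) ((p0 - x * p1) / Δ)
    rw [h, map_mul, map_pow, eval_C, ← hev] at e1
    rw [e1, sextic_diag hR, Fin.sum_univ_three, Fin.prod_univ_three, xi_comb, xi_comb, xi_comb]
    have f0 : (x * q1 - q0) / Δ * p0 + (p0 - x * p1) / Δ * q0 = x := by
      have : (x * q1 - q0) / Δ * p0 + (p0 - x * p1) / Δ * q0 = x * (p0 * q1 - p1 * q0) / Δ := by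
        ring
      rw [this, ← hΔdef, mul_div_cancel_right₀ _ hΔ']
    have f1 : (x * q1 - q0) / Δ * p1 + (p0 - x * p1) / Δ * q1 = 1 := by
      have : (x * q1 - q0) / Δ * p1 + (p0 - x * p1) / Δ * q1 = (p0 * q1 - p1 * q0) / Δ := by
        ring
      rw [this, ← hΔdef, div_self hΔ']
    have f2 : (x * q1 - q0) / Δ * p2 + (p0 - x * p1) / Δ * q2 =
        (p2 * q1 - q2 * p1) / Δ * x + (q2 * p0 - p2 * q0) / Δ := by
      ring
    rw [f0, f1, f2]
    ring)
  have hu' : p2 * q1 - q2 * p1 ≠ 0 := fun h0 => hu (by rw [h0, zero_div])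
  have hv' : q2 * p0 - p2 * q0 ≠ 0 := fun h0 => hv (by rw [h0, zero_div])
  have hdd : dd θ' P Q = Δ * (p2 * q1 - q2 * p1) * (q2 * p0 - p2 * q0) := by
    simp only [dd, hΔdef]
    ring
  have s0 : sextic (pt θ' P Q 0) = (-10 * (1 - θ' 1) ^ 2) * Δ ^ 6 +
      (-10 * (1 - θ' 2) ^ 2) * (q2 * p0 - p2 * q0) ^ 6 := by
    unfold pt
    rw [sextic_diag hR, Fin.sum_univ_three, Fin.prod_univ_three, xi_comb, xi_comb, xi_comb, hΔdef]
    ring
  have s1 : sextic (pt θ' P Q 1) = (-10 * (1 - θ' 0) ^ 2) * Δ ^ 6 +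
      (-10 * (1 - θ' 2) ^ 2) * (p2 * q1 - q2 * p1) ^ 6 := by
    unfold pt
    rw [sextic_diag hR, Fin.sum_univ_three, Fin.prod_univ_three, xi_comb, xi_comb, xi_comb, hΔdef]
    ring
  have s2 : sextic (pt θ' P Q 2) = (-10 * (1 - θ' 0) ^ 2) * (q2 * p0 - p2 * q0) ^ 6 +
      (-10 * (1 - θ' 1) ^ 2) * (p2 * q1 - q2 * p1) ^ 6 := by
    unfold pt
    rw [sextic_diag hR, Fin.sum_univ_three, Fin.prod_univ_three, xi_comb, xi_comb, xi_comb]
    ring
  refine ⟨θ', hR, ?_, ?_⟩
  · rw [hdd]
    exact mul_ne_zero (mul_ne_zero hΔ' hu') hv'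
  · rw [Fin.prod_univ_three, s0, s1, s2, hdd]
    generalize (-10 * (1 - θ' 0) ^ 2) = a at *
    generalize (-10 * (1 - θ' 1) ^ 2) = b at *
    generalize (-10 * (1 - θ' 2) ^ 2) = c at *
    generalize p2 * q1 - q2 * p1 = U at *
    generalize q2 * p0 - p2 * q0 = V at *
    rcases hcases with ⟨k1, k2⟩ | ⟨k1, k2⟩
    · left
      refine ⟨k1, ?_⟩
      rw [habc] at k2
      field_simp at k2
      linear_combination k2
    · right
      refine ⟨k1, ?_⟩
      rw [habc] at k2
      field_simp at k2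
      linear_combination k2

/-- two independent vectors have a nonzero minor -/
theorem minor {F : Type*} [Field F] (P Q : Fin 3 → F) (ind : LinearIndependent F ![P, Q]) :
    ∃ i j, P i * Q j - P j * Q i ≠ 0 := by
  by_contra hcon
  push Not at hcon
  rw [LinearIndependent.pair_iff] at ind
  by_cases hP : ∃ l, P l ≠ 0
  · obtain ⟨l, hl⟩ := hP
    have := ind (Q l) (-P l) (by
      funext n
      simp only [Pi.add_apply, Pi.smul_apply, smul_eq_mul, Pi.zero_apply]
      linear_combination hcon n l)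
    exact hl (neg_eq_zero.mp this.2)
  · push Not at hP
    have := ind 1 0 (by
      funext n
      simp [hP n])
    exact one_ne_zero this.1

end NT

/-- the sextic restricted to a line is never a constant times a square
(`125343 = 3 ^ 2 * 19 * 733`, `35939744 = 2 ^ 5 * 43 * 26119`) -/
theorem no_tritangent (F : Type) [Field F] (h2 : (2 : F) ≠ 0) (h3 : (3 : F) ≠ 0)
    (h5 : (5 : F) ≠ 0) (h7 : (7 : F) ≠ 0) (h1 : (125343 : F) ≠ 0)
    (h4 : (35939744 : F) ≠ 0) (P Q : Fin 3 → F) (ind : LinearIndependent F ![P, Q]) (κ : F)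
    (g : R2 F) : sextic (lineVec P Q) ≠ C κ * g ^ 2 := by
  intro h
  set f : F →+* AlgebraicClosure F := algebraMap F (AlgebraicClosure F) with hf
  have hinj : Function.Injective f := (algebraMap F (AlgebraicClosure F)).injective
  have hnum : ∀ n : ℕ, (n : F) ≠ 0 → (n : AlgebraicClosure F) ≠ 0 := by
    intro n hn h0
    apply hn
    apply hinj
    rw [map_natCast, h0, map_zero]
  obtain ⟨i, j, hm⟩ := NT.minor P Q ind
  obtain ⟨θ, -, -, hcase⟩ := NT.closed (K := AlgebraicClosure F)
    (by exact_mod_cast hnum 2 (by exact_mod_cast h2))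
    (by exact_mod_cast hnum 3 (by exact_mod_cast h3))
    (by exact_mod_cast hnum 5 (by exact_mod_cast h5))
    (neg_ne_zero.2 (by exact_mod_cast hnum 7 (by exact_mod_cast h7)))
    (fun n => f (P n)) (fun n => f (Q n))
    ⟨i, j, by
      rw [← map_mul, ← map_mul, ← map_sub]
      exact (map_ne_zero f).mpr hm⟩ (f κ) (MvPolynomial.map f g) (by
        rw [← map_sextic_line, h, map_mul, map_pow, MvPolynomial.map_C])
  rcases hcase with ⟨h0, -⟩ | ⟨h0, -⟩
  · exact hnum 125343 (by exact_mod_cast h1) (by exact_mod_cast h0)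
  · exact hnum 35939744 (by exact_mod_cast h4) (by exact_mod_cast h0)

theorem not_square (F : Type) [Field F] [CharZero F] (P Q : Fin 3 → F)
    (ind : LinearIndependent F ![P, Q]) (g : R2 F) : - sextic (lineVec P Q) ≠ g ^ 2 := by
  intro h
  refine no_tritangent F (by norm_num) (by norm_num) (by norm_num) (by norm_num) (by norm_num)
    (by norm_num) P Q ind (-1) g ?_
  rw [← h]
  simp

end Pool.Agent.Work.MP_2dff99_ag.F5
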