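import Pool.Agent.Work.MP_2dff99_ag.F5.IsoM
import Pool.Agent.Work.MP_2dff99_ag.F5.DMap
import Pool.Agent.Work.MP_2dff99_ag.F5.NT
import Pool.Agent.Work.MP_2dff99_ag.F5.Fixed

open MvPolynomial

namespace Pool.Agent.Work.MP_2dff99_ag.F5

namespace Gal02

theorem eval_map_fixed {K : Type} [Field K] (σ : K →+* K) (x y : K) (hx : σ x = x)
    (hy : σ y = y) (p : R2 K) :
    eval ![x, y] (MvPolynomial.map σ p) = σ (eval ![x, y] p) := by
  induction p using MvPolynomial.induction_on with
  | C a => simp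
  | add p q hp hq => simp [hp, hq]
  | mul_X p i hp =>
    rw [map_mul, map_mul, map_mul, map_mul, hp, MvPolynomial.map_X, eval_X]
    congr 1
    fin_cases i
    · exact hx.symm
    · exact hy.symm

/-- a linear form -/
theorem linear_eq {K : Type} [Field K] {p : R2 K} (hp : HomZ p 1) :
    ∃ a b : K, p = C a * X 0 + C b * X 1 := by
  obtain ⟨a, ha⟩ := exists_form (n := 1) (p := p) (by simpa using hp)
  refine ⟨a 0, a 1, ?_⟩
  rw [ha, form]
  simp [Finset.sum_range_succ]

theorem homZ_linear {K : Type} [Field K] (a b : K) : HomZ (C a * X 0 + C b * X 1 : R2 K) 1 := by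
  have h0 := homZ_mul (homZ_C a) (homZ_X (k := K) 0)
  have h1 := homZ_mul (homZ_C b) (homZ_X (k := K) 1)
  rw [zero_add] at h0 h1
  exact homZ_add h0 h1

/-- a cubic form vanishing at the zero of a linear form is divisible by it -/
theorem factor_three {K : Type} [Field K] (α β : K) (h : α ≠ 0 ∨ β ≠ 0) (p : R2 K)
    (hp : HomZ p 3) (he : eval ![β, -α] p = 0) :
    ∃ q : R2 K, HomZ q 2 ∧ p = (C α * X 0 + C β * X 1) * q := by
  obtain ⟨a, ha⟩ := exists_form (n := 3) (p := p) (by simpa using hp)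
  rw [ha, eval_form] at he
  simp only [Finset.sum_range_succ, Finset.sum_range_zero, zero_add, pow_zero, mul_one,
    Nat.sub_zero, Nat.reduceSub, pow_one, Nat.sub_self, Nat.reduceAdd] at he
  have hform : form 3 a = C (a 0) * X 0 ^ 3 + C (a 1) * X 0 ^ 2 * X 1 + C (a 2) * X 0 * X 1 ^ 2 +
      C (a 3) * X 1 ^ 3 := by
    simp only [form, Finset.sum_range_succ, Finset.sum_range_zero, zero_add, pow_zero, mul_one,
      Nat.sub_zero, Nat.reduceSub, pow_one, Nat.sub_self, Nat.reduceAdd]
  have hq : ∀ b : ℕ → K, HomZ (form 2 b) 2 := fun b => by simpa using homZ_form 2 b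
  have hform2 : ∀ b : ℕ → K, form 2 b = C (b 0) * X 0 ^ 2 + C (b 1) * X 0 * X 1 +
      C (b 2) * X 1 ^ 2 := by
    intro b
    simp only [form, Finset.sum_range_succ, Finset.sum_range_zero, zero_add, pow_zero, mul_one,
      Nat.sub_zero, Nat.reduceSub, pow_one, Nat.sub_self, Nat.reduceAdd]
  have key : ∀ b0 b1 b2 : K, a 0 = α * b0 → a 1 = α * b1 + β * b0 → a 2 = α * b2 + β * b1 →
      a 3 = β * b2 → ∃ q : R2 K, HomZ q 2 ∧ p = (C α * X 0 + C β * X 1) * q := by
    intro b0 b1 b2 h0 h1 h2 h3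
    refine ⟨form 2 (fun i => if i = 0 then b0 else if i = 1 then b1 else b2), hq _, ?_⟩
    rw [ha, hform, hform2, h0, h1, h2, h3]
    simp only [C_add, C_mul, if_true, one_ne_zero, if_false, OfNat.ofNat_ne_zero,
      OfNat.ofNat_ne_one]
    ring
  rcases h with h | h
  · refine key (a 0 / α) ((a 1 - β * (a 0 / α)) / α)
      ((a 2 - β * ((a 1 - β * (a 0 / α)) / α)) / α) ?_ ?_ ?_ ?_
    · field_simp
    · field_simp
      ring
    · field_simp
      ring
    · field_simp
      linear_combination -he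
  · refine key ((a 1 - α * ((a 2 - α * (a 3 / β)) / β)) / β) ((a 2 - α * (a 3 / β)) / β)
      (a 3 / β) ?_ ?_ ?_ ?_
    · field_simp
      linear_combination he
    · field_simp
      ring
    · field_simp
      ring
    · field_simp

end Gal02

open Gal02

/-- Galois descent in type `(0, 2)` -/
theorem gal02 (L : Type) [Field L] [CharZero L]
    (D : Datum (AlgebraicClosure L)) (he : D.e = 1) (P Q : Fin 3 → L)
    (hP : D.P = fun i => algebraMap L (AlgebraicClosure L) (P i))
    (hQ : D.Q = fun i => algebraMap L (AlgebraicClosure L) (Q i))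
    (hg : ∀ σ : AlgebraicClosure L ≃ₐ[L] AlgebraicClosure L,
      ∃ G : Matrix (Fin 2) (Fin 2) (R2 (AlgebraicClosure L)), GoodMat D.e G ∧
      D.phi * G = G * D.phi.map
        (MvPolynomial.map (σ : AlgebraicClosure L →+* AlgebraicClosure L))) :
    ∃ D0 : Datum L, D0.P = P ∧ D0.Q = Q ∧ D0.e = D.e ∧
      ∃ H : Matrix (Fin 2) (Fin 2) (R2 (AlgebraicClosure L)), GoodMat D.e H ∧
      H * D.phi = (D0.map (algebraMap L (AlgebraicClosure L))).phi * H := by
  have : CharZero (AlgebraicClosure L) :=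
    charZero_of_injective_algebraMap (algebraMap L (AlgebraicClosure L)).injective
  set K := AlgebraicClosure L with hK
  have hfa : HomZ D.fa 3 := D.ha
  have hfc : HomZ D.fc 1 := by
    have := D.hc
    rw [he] at this
    simpa using this
  have hfd : HomZ D.fd 5 := by
    have := D.hd
    rw [he] at this
    simpa using this
  have hfc0 : D.fc ≠ 0 := by
    intro h0
    have h1 := D.rel
    rw [h0, zero_mul, add_zero] at h1
    exact not_square K D.P D.Q D.ind D.fa h1.symm
  -- the relations given by the Galois action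
  have hrel : ∀ σ : K ≃ₐ[L] K, ∃ (c d : K) (q : R2 K), c ≠ 0 ∧ d ≠ 0 ∧
      D.fc * C c = C d * MvPolynomial.map (σ : K →+* K) D.fc ∧
      D.fa * C c = C c * MvPolynomial.map (σ : K →+* K) D.fa +
        q * MvPolynomial.map (σ : K →+* K) D.fc := by
    intro σ
    obtain ⟨G, ⟨hu, h00, h01, h10, h11⟩, hc⟩ := hg σ
    obtain ⟨c, hc0⟩ := homZ_const h00
    obtain ⟨d, hd0⟩ := homZ_const h11
    have hG10 : G 1 0 = 0 := by
      refine homZ_eq_zero ?_ h10
      rw [he]
      norm_num
    rw [Matrix.det_fin_two, hG10, mul_zero, sub_zero, hc0, hd0, ← C_mul] at hu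
    have hcd : c * d ≠ 0 := by
      intro h0
      rw [h0, C_0] at hu
      exact not_isUnit_zero hu
    refine ⟨c, d, G 0 1, left_ne_zero_of_mul hcd, right_ne_zero_of_mul hcd, ?_, ?_⟩
    · have h1 := congrFun (congrFun hc 1) 0
      simp only [Matrix.mul_apply, Fin.sum_univ_two, Matrix.map_apply, hG10, hc0, hd0] at h1
      simpa [Datum.phi] using h1
    · have h1 := congrFun (congrFun hc 0) 0
      simp only [Matrix.mul_apply, Fin.sum_univ_two, Matrix.map_apply, hG10, hc0] at h1
      simpa [Datum.phi] using h1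
  -- normalise `fc`
  obtain ⟨m, hm⟩ : ∃ m, coeff m D.fc ≠ 0 := by
    by_contra hcon
    push Not at hcon
    exact hfc0 (MvPolynomial.ext _ _ (fun m => by rw [hcon m, coeff_zero]))
  set κ := coeff m D.fc with hκ
  set f0 : R2 K := C κ⁻¹ * D.fc with hf0
  have hf0c : D.fc = C κ * f0 := by
    rw [hf0, ← mul_assoc, ← C_mul, mul_inv_cancel₀ hm, C_1, one_mul]
  have hcoeff : coeff m f0 = 1 := by
    rw [hf0, coeff_C_mul, inv_mul_cancel₀ hm]
  have hf0σ : ∀ σ : K ≃ₐ[L] K, MvPolynomial.map (σ : K →+* K) f0 = f0 := by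
    intro σ
    obtain ⟨c, d, q, hc0, hd0, h1, -⟩ := hrel σ
    have h2 : MvPolynomial.map (σ : K →+* K) D.fc = C (c * d⁻¹) * D.fc := by
      have h3 : (C d⁻¹ : R2 K) * C d = 1 := by
        rw [← C_mul, inv_mul_cancel₀ hd0, C_1]
      rw [C_mul]
      linear_combination (-C d⁻¹ : R2 K) * h1 - MvPolynomial.map (σ : K →+* K) D.fc * h3
    have h3 : MvPolynomial.map (σ : K →+* K) f0 = C ((σ κ)⁻¹ * (c * d⁻¹) * κ) * f0 := by
      rw [show MvPolynomial.map (σ : K →+* K) f0 =
        MvPolynomial.map (σ : K →+* K) (C κ⁻¹ * D.fc) from rfl, map_mul, h2, MvPolynomial.map_C,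
        hf0c]
      have h5 : (σ : K →+* K) κ⁻¹ = (σ κ)⁻¹ := map_inv₀ (σ : K →+* K) κ
      rw [h5]
      simp only [C_mul]
      ring
    have h4 : coeff m (MvPolynomial.map (σ : K →+* K) f0) = 1 := by
      rw [coeff_map, hcoeff, map_one]
    rw [h3, coeff_C_mul, hcoeff, mul_one] at h4
    rw [h3, h4, C_1, one_mul]
  obtain ⟨f1, hf1⟩ := fixed_rational_poly L f0 hf0σ
  have hf0h : HomZ f0 1 := by
    have := homZ_mul (homZ_C κ⁻¹) hfc
    rwa [zero_add] at this
  have hf1h : HomZ f1 1 := homZ_of_map (algebraMap L K) (by rw [hf1]; exact hf0h)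
  obtain ⟨α, β, hαβ⟩ := linear_eq hf1h
  have hf0lin : f0 = C (algebraMap L K α) * X 0 + C (algebraMap L K β) * X 1 := by
    rw [← hf1, hαβ]
    simp only [map_add, map_mul, MvPolynomial.map_C, MvPolynomial.map_X]
    rfl
  have hne : α ≠ 0 ∨ β ≠ 0 := by
    by_contra hcon
    push Not at hcon
    have : f0 = 0 := by
      rw [hf0lin, hcon.1, hcon.2]
      simp
    rw [this, coeff_zero] at hcoeff
    exact zero_ne_one hcoeff
  have hf0ne : f0 ≠ 0 := by
    intro h0
    rw [h0, coeff_zero] at hcoeff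
    exact zero_ne_one hcoeff
  -- the zero of `f0`
  have hz : eval ![algebraMap L K β, -algebraMap L K α] f0 = 0 := by
    rw [hf0lin]
    simp
    ring
  have hfix : ∀ σ : K ≃ₐ[L] K, σ (eval ![algebraMap L K β, -algebraMap L K α] D.fa) =
      eval ![algebraMap L K β, -algebraMap L K α] D.fa := by
    intro σ
    obtain ⟨c, d, q, hc0, hd0, h1, h2⟩ := hrel σ
    have e1 : eval ![algebraMap L K β, -algebraMap L K α]
        (MvPolynomial.map (σ : K →+* K) D.fa) =
        σ (eval ![algebraMap L K β, -algebraMap L K α] D.fa) :=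
      eval_map_fixed (σ : K →+* K) _ _ (σ.commutes β)
        (by rw [map_neg]; exact congrArg Neg.neg (σ.commutes α)) D.fa
    have e2 : eval ![algebraMap L K β, -algebraMap L K α]
        (MvPolynomial.map (σ : K →+* K) D.fc) = 0 := by
      rw [hf0c, map_mul, hf0σ σ, map_mul, hz, mul_zero]
    have h3 := congrArg (eval ![algebraMap L K β, -algebraMap L K α]) h2
    rw [map_mul, map_add, map_mul, map_mul, e1, e2, mul_zero, add_zero, eval_C, mul_comm] at h3
    exact (mul_left_cancel₀ hc0 h3).symm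
  obtain ⟨a0, ha0⟩ := fixed_rational L _ hfix
  obtain ⟨x, y, hxy⟩ : ∃ x y : L, x * β - y * α = 1 := by
    by_cases hβ : β = 0
    · have hα : α ≠ 0 := by
        rcases hne with h | h
        · exact h
        · exact absurd hβ h
      refine ⟨0, -α⁻¹, ?_⟩
      rw [zero_mul, neg_mul, inv_mul_cancel₀ hα]
      ring
    · refine ⟨β⁻¹, 0, ?_⟩
      rw [inv_mul_cancel₀ hβ]
      ring
  set A1 : R2 L := C a0 * (C x * X 0 + C y * X 1) ^ 3 with hA1
  have hA1h : HomZ A1 3 := by
    have h1 := homZ_pow (homZ_linear x y) 3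
    have h2 := homZ_mul (homZ_C a0) h1
    simpa using h2
  set A0 : R2 K := MvPolynomial.map (algebraMap L K) A1 with hA0
  have hA0h : HomZ A0 3 := homZ_map _ hA1h
  have hA0z : eval ![algebraMap L K β, -algebraMap L K α] A0 =
      eval ![algebraMap L K β, -algebraMap L K α] D.fa := by
    rw [← ha0, hA0, hA1]
    have : algebraMap L K x * algebraMap L K β - algebraMap L K y * algebraMap L K α = 1 := by
      rw [← map_mul, ← map_mul, ← map_sub, hxy, map_one]
    simp only [map_mul, map_pow, map_add, MvPolynomial.map_C, MvPolynomial.map_X, eval_C, eval_X]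
    simp only [Matrix.cons_val_zero, Matrix.cons_val_one]
    have h2 : algebraMap L K x * algebraMap L K β + algebraMap L K y * -algebraMap L K α = 1 := by
      rw [← this]
      ring
    rw [h2, one_pow, mul_one]
  obtain ⟨q, hqh, hq⟩ := factor_three (algebraMap L K α) (algebraMap L K β)
    (by
      rcases hne with h | h
      · left
        simpa using h
      · right
        simpa using h) (D.fa - A0) (homZ_sub hfa hA0h) (by rw [map_sub, hA0z, sub_self])
  rw [← hf0lin] at hq
  set B0 : R2 K := C κ * D.fd + q * (D.fa + A0) with hB0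
  have hB0h : HomZ B0 5 := by
    have h1 := homZ_mul (homZ_C κ) hfd
    have h2 := homZ_mul hqh (homZ_add hfa hA0h)
    rw [zero_add] at h1
    have h3 : (2 : ℤ) + 3 = 5 := by norm_num
    rw [h3] at h2
    exact homZ_add h1 h2
  have hrel0 : A0 ^ 2 + f0 * B0 = - sextic (lineVec D.P D.Q) := by
    rw [← D.rel, hB0, hf0c]
    linear_combination (-(D.fa + A0)) * hq
  have hsx : ∀ σ : K ≃ₐ[L] K, MvPolynomial.map (σ : K →+* K) (sextic (lineVec D.P D.Q)) =
      sextic (lineVec D.P D.Q) := by
    intro σ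
    rw [map_sextic_line]
    congr 1
    funext i
    have h1 : (σ : K →+* K) (D.P i) = D.P i := by
      rw [hP]
      exact σ.commutes _
    have h2 : (σ : K →+* K) (D.Q i) = D.Q i := by
      rw [hQ]
      exact σ.commutes _
    simp only [lineVec, h1, h2]
  have hA0σ : ∀ σ : K ≃ₐ[L] K, MvPolynomial.map (σ : K →+* K) A0 = A0 := by
    intro σ
    rw [hA0, MvPolynomial.map_map]
    congr 1
    congr 1
    ext a
    exact σ.commutes a
  have hB0σ : ∀ σ : K ≃ₐ[L] K, MvPolynomial.map (σ : K →+* K) B0 = B0 := by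
    intro σ
    have h1 := congrArg (MvPolynomial.map (σ : K →+* K)) hrel0
    rw [map_add, map_mul, map_pow, hA0σ, hf0σ, map_neg, hsx, ← hrel0] at h1
    exact mul_left_cancel₀ hf0ne (add_left_cancel h1)
  obtain ⟨B1, hB1⟩ := fixed_rational_poly L B0 hB0σ
  have hB1h : HomZ B1 5 := homZ_of_map (algebraMap L K) (by rw [hB1]; exact hB0h)
  have hind : LinearIndependent L ![P, Q] := by
    rw [LinearIndependent.pair_iff]
    intro s t hst
    have h1 := LinearIndependent.pair_iff.mp D.ind (algebraMap L K s) (algebraMap L K t) (by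
      funext i
      have h2 := congrArg (algebraMap L K) (congrFun hst i)
      simpa [hP, hQ] using h2)
    exact ⟨by simpa using h1.1, by simpa using h1.2⟩
  have hrel1 : A1 ^ 2 + f1 * B1 = - sextic (lineVec P Q) := by
    apply MvPolynomial.map_injective (algebraMap L K) (algebraMap L K).injective
    rw [map_add, map_mul, map_pow, hf1, hB1, map_neg, map_sextic_line]
    rw [← hA0, hrel0, hP, hQ]
  refine ⟨⟨P, Q, hind, 1, le_rfl, A1, f1, B1, hA1h, by simpa using hf1h, by simpa using hB1h,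
    hrel1⟩, rfl, rfl, he.symm, !![C κ, -q; 0, 1], ⟨?_, ?_, ?_, ?_, ?_⟩, ?_⟩
  · rw [Matrix.det_fin_two_of, mul_zero, sub_zero, mul_one]
    exact (isUnit_iff_ne_zero.mpr hm).map C
  · exact homZ_C κ
  · rw [he]
    simpa using homZ_neg hqh
  · exact homZ_zero _
  · have := homZ_C (k := K) 1
    rwa [C_1] at this
  · have hphi : (Datum.map (algebraMap L K) ⟨P, Q, hind, 1, le_rfl, A1, f1, B1, hA1h,
        by simpa using hf1h, by simpa using hB1h, hrel1⟩).phi = !![A0, B0; f0, -A0] := by
      have e1 : MvPolynomial.map (algebraMap L K) f1 = f0 := hf1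
      have e2 : MvPolynomial.map (algebraMap L K) B1 = B0 := hB1
      simp only [Datum.phi, Datum.map]
      rw [← hA0, e1, e2]
    rw [hphi, Datum.phi, Matrix.mul_fin_two, Matrix.mul_fin_two]
    have t1 : C κ * D.fa + -q * D.fc = A0 * C κ + B0 * 0 := by
      linear_combination (C κ : R2 K) * hq - q * hf0c
    have t2 : C κ * D.fd + -q * -D.fa = A0 * -q + B0 * 1 := by
      linear_combination -hB0
    have t3 : 0 * D.fa + 1 * D.fc = f0 * C κ + -A0 * 0 := by
      linear_combination hf0c
    have t4 : 0 * D.fd + 1 * -D.fa = f0 * -q + -A0 * 1 := by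
      linear_combination -hq
    rw [t1, t2, t3, t4]

end Pool.Agent.Work.MP_2dff99_ag.F5
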