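import Pool.Agent.Work.MP_2dff99_ag.F5.IsoM
import Pool.Agent.Work.MP_2dff99_ag.F5.DMap
import Pool.Agent.Work.MP_2dff99_ag.F5.NT
import Pool.Agent.Work.MP_2dff99_ag.F5.Fixed

open MvPolynomial

namespace Pool.Agent.Work.MP_2dff99_ag.F5

namespace Gal11

/-- the coefficient matrices -/
def Ph {K : Type} [Field K] (a c d : ℕ → K) (k : ℕ) : Matrix (Fin 2) (Fin 2) K :=
  !![a k, d k; c k, - a k]

theorem homZ_C_mul {K : Type} [Field K] (x : K) {p : R2 K} {n : ℤ} (h : HomZ p n) :
    HomZ (C x * p) n := by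
  have := homZ_mul (homZ_C x) h
  rwa [zero_add] at this

theorem map_C_mul {K : Type} [Field K] (A B : Matrix (Fin 2) (Fin 2) K) :
    (A * B).map (C : K → R2 K) = A.map C * B.map C := by
  ext i j
  simp [Matrix.mul_apply]

/-- a matrix with constant entries -/
theorem const_of_good {K : Type} [Field K] (G : Matrix (Fin 2) (Fin 2) (R2 K))
    (h : GoodMat 0 G) : ∃ g : Matrix (Fin 2) (Fin 2) K, g.det ≠ 0 ∧ G = g.map C := by
  obtain ⟨hu, h00, h01, h10, h11⟩ := h
  simp only [Nat.cast_zero, mul_zero, neg_zero] at h01 h10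
  obtain ⟨x00, e00⟩ := homZ_const h00
  obtain ⟨x01, e01⟩ := homZ_const h01
  obtain ⟨x10, e10⟩ := homZ_const h10
  obtain ⟨x11, e11⟩ := homZ_const h11
  have hG : G = (!![x00, x01; x10, x11] : Matrix (Fin 2) (Fin 2) K).map C := by
    ext i j
    fin_cases i <;> fin_cases j <;> simp [e00, e01, e10, e11]
  refine ⟨_, fun h0 => ?_, hG⟩
  rw [hG] at hu
  have h1 : ((!![x00, x01; x10, x11] : Matrix (Fin 2) (Fin 2) K).map
      (C : K → R2 K)).det = C (!![x00, x01; x10, x11] : Matrix (Fin 2) (Fin 2) K).det := by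
    rw [Matrix.det_fin_two, Matrix.det_fin_two]
    simp
  rw [h1, h0, map_zero] at hu
  exact not_isUnit_zero hu

/-- the matrix with given coefficients -/
noncomputable def phiF {K : Type} [Field K] (a c d : ℕ → K) : Matrix (Fin 2) (Fin 2) (R2 K) :=
  !![form 3 a, form 3 d; form 3 c, - form 3 a]

/-- the coefficient matrices are conjugated as well -/
theorem coeff_conj {K : Type} [Field K] (a c d : ℕ → K) (g : Matrix (Fin 2) (Fin 2) K)
    (σ : K →+* K)
    (h : phiF a c d * g.map C = g.map C * (phiF a c d).map (MvPolynomial.map σ))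
    (k : ℕ) (hk : k ≤ 3) :
    Ph a c d k * g = g * (Ph a c d k).map σ := by
  have key := fun i j => congrArg (coeff (Finsupp.single 0 (3 - k) + Finsupp.single 1 k))
    (congrFun (congrFun h i) j)
  have ha := coeff_form 3 a k hk
  have hc := coeff_form 3 c k hk
  have hd := coeff_form 3 d k hk
  generalize (Finsupp.single 0 (3 - k) + Finsupp.single 1 k : Fin 2 →₀ ℕ) = m at key ha hc hd
  have hC : ∀ (p : R2 K) (x : K), coeff m (p * C x) = coeff m p * x := fun p x => by
    rw [mul_comm, coeff_C_mul, mul_comm]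
  ext i j
  have h1 := key i j
  simp only [Matrix.mul_apply, Fin.sum_univ_two, Matrix.map_apply, coeff_add] at h1
  fin_cases i <;> fin_cases j <;>
  simp [phiF, coeff_C_mul, hC, coeff_map, ha, hc, hd, Ph, Matrix.mul_apply] at h1 ⊢ <;>
  linear_combination h1

/-- the trace of a product of coefficient matrices is invariant -/
theorem trace_conj {K : Type} [Field K] (A B g : Matrix (Fin 2) (Fin 2) K) (hg : g.det ≠ 0)
    (σ : K →+* K) (hA : A * g = g * A.map σ) (hB : B * g = g * B.map σ) :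
    σ (A * B).trace = (A * B).trace := by
  have hu : IsUnit g.det := isUnit_iff_ne_zero.mpr hg
  have h1 : σ (A * B).trace = (A.map σ * B.map σ).trace := by
    simp only [Matrix.trace, Matrix.diag, Matrix.mul_apply, Fin.sum_univ_two, map_add, map_mul,
      Matrix.map_apply]
  have h2 : A.map σ * B.map σ = g⁻¹ * (A * B * g) := by
    rw [mul_assoc A B g, hB, ← mul_assoc A g, hA, mul_assoc g, ← mul_assoc g⁻¹ g,
      Matrix.nonsing_inv_mul g hu, one_mul]
  rw [h1, h2, Matrix.trace_mul_comm, mul_assoc, Matrix.mul_nonsing_inv g hu, mul_one]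

/-- the eigenline of a traceless matrix -/
theorem eig {K : Type} [Field K] (h2 : (2 : K) ≠ 0) (x y z r : K) (h : x ^ 2 + y * z = r ^ 2)
    (hV : ¬ (x = 0 ∧ y = 0 ∧ z = 0)) :
    ∃ u0 u1 : K, ¬ (u0 = 0 ∧ u1 = 0) ∧ (x * u0 + y * u1 = r * u0 ∧ z * u0 - x * u1 = r * u1) ∧
      ∀ w0 w1 : K, x * w0 + y * w1 = r * w0 → z * w0 - x * w1 = r * w1 →
        ∃ c : K, w0 = c * u0 ∧ w1 = c * u1 := by
  by_cases hy : y = 0
  · subst hy
    by_cases hz : z = 0
    · subst hz
      have hx : x ≠ 0 := fun hx => hV ⟨hx, rfl, rfl⟩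
      have h3 : (x - r) * (x + r) = 0 := by linear_combination h
      rcases mul_eq_zero.mp h3 with h4 | h4
      · have hr : r = x := by linear_combination -h4
        subst hr
        refine ⟨1, 0, by simp, ⟨by ring, by ring⟩, fun w0 w1 e1 e2 => ⟨w0, by ring, ?_⟩⟩
        have : 2 * r * w1 = 0 := by linear_combination -e2
        have h5 := (mul_eq_zero.mp this).resolve_left (mul_ne_zero h2 hx)
        rw [h5]; ring
      · have hr : r = -x := by linear_combination h4
        subst hr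
        refine ⟨0, 1, by simp, ⟨by ring, by ring⟩, fun w0 w1 e1 e2 => ⟨w1, ?_, by ring⟩⟩
        have : 2 * x * w0 = 0 := by linear_combination e1
        have h5 := (mul_eq_zero.mp this).resolve_left (mul_ne_zero h2 hx)
        rw [h5]; ring
    · refine ⟨r + x, z, fun h0 => hz h0.2, ⟨?_, by ring⟩, fun w0 w1 e1 e2 => ⟨w1 / z, ?_, ?_⟩⟩
      · linear_combination h
      · field_simp
        linear_combination e2
      · field_simp
  · refine ⟨y, r - x, fun h0 => hy h0.1, ⟨by ring, ?_⟩, fun w0 w1 e1 e2 => ⟨w0 / y, ?_, ?_⟩⟩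
    · linear_combination h
    · field_simp
    · field_simp
      linear_combination e1

theorem fixed_poly {L K : Type} [Field L] [Field K] [Algebra L K] (Gal : Set (K →+* K))
    (hfix : ∀ a : K, (∀ σ ∈ Gal, σ a = a) → ∃ b : L, algebraMap L K b = a) (a : R2 K)
    (h : ∀ σ ∈ Gal, MvPolynomial.map σ a = a) :
    ∃ b : R2 L, MvPolynomial.map (algebraMap L K) b = a := by
  change a ∈ Set.range (MvPolynomial.map (algebraMap L K))
  rw [MvPolynomial.mem_range_map_iff_coeffs_subset]
  intro x hx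
  rw [Finset.mem_coe, MvPolynomial.mem_coeffs_iff] at hx
  obtain ⟨m, -, rfl⟩ := hx
  apply hfix
  intro σ hσ
  have := congrArg (coeff m) (h σ hσ)
  rw [coeff_map] at this
  exact this

/-- a common eigenvector is impossible -/
theorem no_eigen {K : Type} [Field K] [CharZero K] (P Q : Fin 3 → K)
    (ind : LinearIndependent K ![P, Q]) (a c d : ℕ → K)
    (hrel : form 3 a ^ 2 + form 3 c * form 3 d = - sextic (lineVec P Q))
    (u0 u1 : K) (hu : ¬ (u0 = 0 ∧ u1 = 0)) :
    ∃ k : ℕ, k ≤ 3 ∧ u0 * (c k * u0 - a k * u1) - u1 * (a k * u0 + d k * u1) ≠ 0 := by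
  by_contra hn
  push Not at hn
  have h1 : C u0 * (C u0 * form 3 c - C u1 * form 3 a) -
      C u1 * (C u0 * form 3 a + C u1 * form 3 d) = (0 : R2 K) := by
    have e1 : C u0 * (C u0 * form 3 c - C u1 * form 3 a) -
      C u1 * (C u0 * form 3 a + C u1 * form 3 d) =
      form 3 (fun k => u0 * (c k * u0 - a k * u1) - u1 * (a k * u0 + d k * u1)) := by
      simp only [form, Finset.sum_range_succ, Finset.sum_range_zero, map_sub, map_add, map_mul]
      ring
    rw [e1, form_congr (b := fun _ => 0) (fun i hi => hn i hi)]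
    simp [form]
  by_cases h0 : u0 = 0
  · subst h0
    have hu1 : u1 ≠ 0 := fun h => hu ⟨rfl, h⟩
    have h2 : (C (u1 ^ 2) : R2 K) * form 3 d = 0 := by
      rw [map_pow]
      rw [map_zero] at h1
      linear_combination -h1
    have h3 : form 3 d = 0 := by
      rcases mul_eq_zero.mp h2 with h | h
      · exact absurd (C_eq_zero.mp h) (pow_ne_zero 2 hu1)
      · exact h
    rw [h3, mul_zero, add_zero] at hrel
    exact not_square K P Q ind _ hrel.symm
  · have h2 : (C u0 : R2 K) * C u0⁻¹ = 1 := by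
      rw [← C_mul, mul_inv_cancel₀ h0, C_1]
    have h3 : form 3 c = C (2 * u1 * u0⁻¹) * form 3 a + C (u1 ^ 2 * u0⁻¹ ^ 2) * form 3 d := by
      have e2 : (C (2 * u1 * u0⁻¹) : R2 K) = 2 * C u1 * C u0⁻¹ := by
        simp only [C_mul]
        congr 2
      have e3 : (C (u1 ^ 2 * u0⁻¹ ^ 2) : R2 K) = C u1 ^ 2 * C u0⁻¹ ^ 2 := by
        simp only [C_mul, C_pow]
      rw [e2, e3]
      linear_combination (C u0⁻¹) ^ 2 * h1 - (form 3 c * (C u0 * C u0⁻¹ + 1) -
        2 * C u1 * C u0⁻¹ * form 3 a) * h2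
    refine not_square K P Q ind (form 3 a + C (u1 * u0⁻¹) * form 3 d) ?_
    rw [← hrel, h3]
    have e2 : (C (2 * u1 * u0⁻¹) : R2 K) = 2 * C (u1 * u0⁻¹) := by
      rw [mul_assoc, C_mul]
      congr 1
    have e3 : (C (u1 ^ 2 * u0⁻¹ ^ 2) : R2 K) = C (u1 * u0⁻¹) ^ 2 := by
      rw [← C_pow, mul_pow]
    rw [e2, e3]
    ring

/-- the descent argument for coefficients -/
theorem core {L K : Type} [Field L] [Field K] [Algebra L K] [CharZero K] (hs : SplitProp L)
    (Gal : Set (K →+* K))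
    (hfix : ∀ a : K, (∀ σ ∈ Gal, σ a = a) → ∃ b : L, algebraMap L K b = a)
    (hcomm : ∀ σ ∈ Gal, ∀ b : L, σ (algebraMap L K b) = algebraMap L K b)
    (P Q : Fin 3 → L) (ind : LinearIndependent L ![P, Q]) (a c d : ℕ → K)
    (hrel : form 3 a ^ 2 + form 3 c * form 3 d = - sextic (lineVec
      (fun i => algebraMap L K (P i)) (fun i => algebraMap L K (Q i))))
    (hG : ∀ σ ∈ Gal, ∃ g : Matrix (Fin 2) (Fin 2) K, g.det ≠ 0 ∧
        phiF a c d * g.map C = g.map C * (phiF a c d).map (MvPolynomial.map σ)) :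
    ∃ B : Matrix (Fin 2) (Fin 2) K, B.det ≠ 0 ∧ ∀ σ ∈ Gal,
      ((B⁻¹).map C * phiF a c d * B.map C).map (MvPolynomial.map σ) =
        (B⁻¹).map C * phiF a c d * B.map C := by
  have h2 : (2 : K) ≠ 0 := two_ne_zero
  -- the Gram matrix
  have hβ : ∀ k l : Fin 4, ∃ b : L, algebraMap L K b =
      (Ph a c d k * Ph a c d l).trace / 2 := by
    intro k l
    apply hfix
    intro σ hσ
    obtain ⟨g, hg1, hg2⟩ := hG σ hσ
    have h3 := trace_conj (Ph a c d k) (Ph a c d l) g hg1 σ
      (coeff_conj a c d g _ hg2 k (by omega)) (coeff_conj a c d g _ hg2 l (by omega))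
    rw [map_div₀, h3, map_ofNat]
  choose β hβ using hβ
  have htr : ∀ k l : ℕ, (Ph a c d k * Ph a c d l).trace / 2 =
      a k * a l + (c k * d l + c l * d k) / 2 := by
    intro k l
    rw [Matrix.trace_fin_two]
    simp [Ph, Matrix.mul_apply]
    ring
  have hsymm : (Matrix.of β).IsSymm := by
    ext i j
    apply (algebraMap L K).injective
    simp only [Matrix.transpose_apply, Matrix.of_apply, hβ, htr]
    ring
  have hval : ∀ s t : L, dotProduct (cub s t) ((Matrix.of β).mulVec (cub s t)) =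
      - sextic (fun i => s * P i + t * Q i) := by
    intro s t
    apply (algebraMap L K).injective
    have h3 := congrArg (eval ![algebraMap L K s, algebraMap L K t]) hrel
    rw [map_neg, eval_sextic_line, map_add, map_pow, map_mul, eval_form, eval_form,
      eval_form] at h3
    have h4 := sextic_map (algebraMap L K) (fun i => s * P i + t * Q i)
    simp only [map_add, map_mul] at h4
    rw [map_neg, h4, ← h3]
    simp only [dotProduct, Matrix.mulVec, cub, Fin.sum_univ_four, Matrix.of_apply, map_add,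
      map_mul, map_pow, hβ, htr, Matrix.cons_val_zero, Matrix.cons_val_one, Matrix.cons_val,
      Finset.sum_range_succ, Finset.sum_range_zero]
    simp
    ring
  obtain ⟨cc, r, hq, hne⟩ := hs P Q ind (Matrix.of β) hsymm hval
  set c' : Fin 4 → K := fun k => algebraMap L K (cc k) with hc'
  set r' : K := algebraMap L K r with hr'
  set x : K := ∑ k : Fin 4, c' k * a k with hx
  set y : K := ∑ k : Fin 4, c' k * d k with hy
  set z : K := ∑ k : Fin 4, c' k * c k with hz
  have hxyz : x ^ 2 + y * z = r' ^ 2 := by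
    have h3 := congrArg (algebraMap L K) hq
    rw [map_pow] at h3
    rw [← h3, hx, hy, hz]
    simp only [dotProduct, Matrix.mulVec, Fin.sum_univ_four, Matrix.of_apply, map_add,
      map_mul, hβ, htr, hc']
    ring
  have hnz : ¬ (x = 0 ∧ y = 0 ∧ z = 0) := by
    rintro ⟨h3, h4, h5⟩
    apply hne
    ext k
    apply (algebraMap L K).injective
    have h6 : algebraMap L K ((Matrix.of β).mulVec cc k) = a k * x + (c k * y + d k * z) / 2 := by
      rw [hx, hy, hz]
      simp only [dotProduct, Matrix.mulVec, Fin.sum_univ_four, Matrix.of_apply, map_add,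
        map_mul, hβ, htr, hc']
      ring
    rw [h6, h3, h4, h5]
    simp
  obtain ⟨u0, u1, hu, ⟨hu2, hu3⟩, huniq⟩ := eig h2 x y z r' hxyz hnz
  obtain ⟨k, hk, hdet⟩ := no_eigen _ _ (ind_map (algebraMap L K) P Q ind) a c d hrel u0 u1 hu
  set p0 : K := a k * u0 + d k * u1 with hp0
  set p1 : K := c k * u0 - a k * u1 with hp1
  have hB : (!![u0, p0; u1, p1] : Matrix (Fin 2) (Fin 2) K).det ≠ 0 := by
    rw [Matrix.det_fin_two]
    simpa [mul_comm] using hdet
  refine ⟨!![u0, p0; u1, p1], hB, fun σ hσ => ?_⟩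
  obtain ⟨g, hg1, hg2⟩ := hG σ hσ
  have hcoe := fun k hk => coeff_conj a c d g σ hg2 k hk
  have hV : (!![x, y; z, -x] : Matrix (Fin 2) (Fin 2) K) * g =
      g * (!![x, y; z, -x] : Matrix (Fin 2) (Fin 2) K).map σ := by
    have e1 : (!![x, y; z, -x] : Matrix (Fin 2) (Fin 2) K) = ∑ k : Fin 4, c' k • Ph a c d k := by
      ext i j
      rw [Matrix.sum_apply]
      fin_cases i <;> fin_cases j <;> simp [Ph, hx, hy, hz]
    have e2 : (∑ k : Fin 4, c' k • Ph a c d k).map σ = ∑ k : Fin 4, c' k • (Ph a c d k).map σ := by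
      ext i j
      simp only [Matrix.map_apply, Matrix.sum_apply, Matrix.smul_apply, smul_eq_mul, map_sum,
        map_mul, hc', hcomm σ hσ]
    rw [e1, e2, Finset.sum_mul, Finset.mul_sum]
    refine Finset.sum_congr rfl fun k _ => ?_
    rw [Matrix.smul_mul, hcoe k (by omega), Matrix.mul_smul]
  -- entries of the relation
  have hV' := fun i j => congrFun (congrFun hV i) j
  have hVa := hV' 0 0
  have hVb := hV' 0 1
  have hVc := hV' 1 0
  have hVd := hV' 1 1
  simp [Matrix.mul_apply, Fin.sum_univ_two] at hVa hVb hVc hVd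
  have hr2 : σ r' = r' := hcomm σ hσ r
  have hsu2 : σ x * σ u0 + σ y * σ u1 = r' * σ u0 := by
    have := congrArg σ hu2
    simpa [hr2] using this
  have hsu3 : σ z * σ u0 - σ x * σ u1 = r' * σ u1 := by
    have := congrArg σ hu3
    simpa [hr2] using this
  obtain ⟨cs, hw0, hw1⟩ := huniq (g 0 0 * σ u0 + g 0 1 * σ u1) (g 1 0 * σ u0 + g 1 1 * σ u1)
    (by linear_combination (σ u0) * hVa + (σ u1) * hVb + g 0 0 * hsu2 + g 0 1 * hsu3)
    (by linear_combination (σ u0) * hVc + (σ u1) * hVd + g 1 0 * hsu2 + g 1 1 * hsu3)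
  have hk' := hcoe k hk
  have hk2 := fun i j => congrFun (congrFun hk' i) j
  have hka := hk2 0 0
  have hkb := hk2 0 1
  have hkc := hk2 1 0
  have hkd := hk2 1 1
  simp [Ph, Matrix.mul_apply, Fin.sum_univ_two] at hka hkb hkc hkd
  have hgB : g * (!![u0, p0; u1, p1] : Matrix (Fin 2) (Fin 2) K).map σ =
      cs • (!![u0, p0; u1, p1] : Matrix (Fin 2) (Fin 2) K) := by
    ext i j
    fin_cases i <;> fin_cases j <;>
    simp [Matrix.mul_apply, Fin.sum_univ_two, hp0, hp1]
    · linear_combination hw0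
    · linear_combination a k * hw0 + d k * hw1 - (σ u0) * hka - (σ u1) * hkb
    · linear_combination hw1
    · linear_combination c k * hw0 - a k * hw1 - (σ u0) * hkc - (σ u1) * hkd
  generalize (!![u0, p0; u1, p1] : Matrix (Fin 2) (Fin 2) K) = B at hB hgB
  have hBu : IsUnit B.det := isUnit_iff_ne_zero.mpr hB
  have hcs : cs ≠ 0 := by
    intro h0
    rw [h0, zero_smul] at hgB
    have h3 := congrArg Matrix.det hgB
    rw [Matrix.det_mul, Matrix.det_zero] at h3
    have h4 : (B.map σ).det = σ B.det := by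
      rw [Matrix.det_fin_two, Matrix.det_fin_two]
      simp
    rw [h4] at h3
    rcases mul_eq_zero.mp h3 with h5 | h5
    · exact hg1 h5
    · exact hB ((map_eq_zero σ).mp h5)
  -- polynomial matrices
  set Bc : Matrix (Fin 2) (Fin 2) (R2 K) := B.map C with hBc
  set Bi : Matrix (Fin 2) (Fin 2) (R2 K) := (B⁻¹).map C with hBi
  have hone : (1 : Matrix (Fin 2) (Fin 2) K).map (C : K → R2 K) = 1 := by
    ext i j
    fin_cases i <;> fin_cases j <;> simp
  have hBcBi : Bc * Bi = 1 := by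
    rw [hBc, hBi, ← map_C_mul, Matrix.mul_nonsing_inv B hBu, hone]
  have hBiBc : Bi * Bc = 1 := by
    rw [hBc, hBi, ← map_C_mul, Matrix.nonsing_inv_mul B hBu, hone]
  have hmapmul : ∀ M N : Matrix (Fin 2) (Fin 2) (R2 K), (M * N).map (MvPolynomial.map σ) =
      M.map (MvPolynomial.map σ) * N.map (MvPolynomial.map σ) := by
    intro M N
    ext1 i j
    simp [Matrix.mul_apply]
  set Φ := phiF a c d with hΦ
  have h1 : (g.map C : Matrix (Fin 2) (Fin 2) (R2 K)) * Bc.map (MvPolynomial.map σ) =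
      (C cs : R2 K) • Bc := by
    have e1 : Bc.map (MvPolynomial.map σ) = (B.map σ).map C := by
      ext1 i j
      simp [hBc]
    rw [e1, ← map_C_mul, hgB]
    ext1 i j
    simp [hBc]
  set X := (Bi * Φ * Bc).map (MvPolynomial.map σ) with hX
  have h3 : Bc.map (MvPolynomial.map σ) * X = Φ.map (MvPolynomial.map σ) *
      Bc.map (MvPolynomial.map σ) := by
    rw [hX, ← hmapmul, ← hmapmul, mul_assoc Bi, ← mul_assoc Bc, hBcBi, one_mul]
  have h4 : (C cs : R2 K) • (Bc * X) = (C cs : R2 K) • (Φ * Bc) := by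
    rw [← Matrix.smul_mul, ← h1, mul_assoc, h3, ← mul_assoc, ← hg2, mul_assoc, h1,
      Matrix.mul_smul]
  have h5 : Bc * X = Φ * Bc := by
    have e1 : (C cs⁻¹ : R2 K) * C cs = 1 := by
      rw [← C_mul, inv_mul_cancel₀ hcs, C_1]
    have := congrArg (fun M => (C cs⁻¹ : R2 K) • M) h4
    simpa only [smul_smul, e1, one_smul] using this
  have h6 : Bi * (Bc * X) = Bi * (Φ * Bc) := by rw [h5]
  rw [← mul_assoc, hBiBc, one_mul, ← mul_assoc] at h6
  exact h6

theorem main {L K : Type} [Field L] [Field K] [Algebra L K] [CharZero K] (hs : SplitProp L)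
    (Gal : Set (K →+* K))
    (hfix : ∀ a : K, (∀ σ ∈ Gal, σ a = a) → ∃ b : L, algebraMap L K b = a)
    (hcomm : ∀ σ ∈ Gal, ∀ b : L, σ (algebraMap L K b) = algebraMap L K b)
    (D : Datum K) (he : D.e = 0) (P Q : Fin 3 → L)
    (hP : D.P = fun i => algebraMap L K (P i)) (hQ : D.Q = fun i => algebraMap L K (Q i))
    (hg : ∀ σ ∈ Gal, ∃ G : Matrix (Fin 2) (Fin 2) (R2 K), GoodMat D.e G ∧
      D.phi * G = G * D.phi.map (MvPolynomial.map σ)) :
    ∃ D0 : Datum L, D0.P = P ∧ D0.Q = Q ∧ D0.e = D.e ∧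
      ∃ H : Matrix (Fin 2) (Fin 2) (R2 K), GoodMat D.e H ∧
      H * D.phi = (D0.map (algebraMap L K)).phi * H := by
  have hda := D.ha
  have hdc := D.hc
  have hdd := D.hd
  rw [he] at hdc hdd
  norm_num at hdc hdd
  obtain ⟨a, ha⟩ := exists_form (n := 3) (by exact_mod_cast hda)
  obtain ⟨c, hc⟩ := exists_form (n := 3) (by exact_mod_cast hdc)
  obtain ⟨d, hd⟩ := exists_form (n := 3) (by exact_mod_cast hdd)
  have hphi : D.phi = phiF a c d := by rw [Datum.phi, ha, hc, hd]; rfl
  have hrel := D.rel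
  rw [ha, hc, hd, hP, hQ] at hrel
  have hG : ∀ σ ∈ Gal, ∃ g : Matrix (Fin 2) (Fin 2) K, g.det ≠ 0 ∧
        phiF a c d * g.map C = g.map C * (phiF a c d).map (MvPolynomial.map σ) := by
    intro σ hσ
    obtain ⟨G, hG1, hG2⟩ := hg σ hσ
    rw [he] at hG1
    obtain ⟨g, hg1, hg2⟩ := const_of_good G hG1
    rw [hg2, hphi] at hG2
    exact ⟨g, hg1, hG2⟩
  have ind : LinearIndependent L ![P, Q] := by
    have h3 := D.ind
    rw [hP, hQ, ind_iff] at h3
    obtain ⟨i, j, hij⟩ := h3
    rw [ind_iff]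
    refine ⟨i, j, fun h4 => hij ?_⟩
    rw [← map_mul, h4, map_mul]
  obtain ⟨B, hB, hfx⟩ := core hs Gal hfix hcomm P Q ind a c d hrel hG
  have hBu : IsUnit B.det := isUnit_iff_ne_zero.mpr hB
  have hone : (1 : Matrix (Fin 2) (Fin 2) K).map (C : K → R2 K) = 1 := by
    ext i j
    fin_cases i <;> fin_cases j <;> simp
  have hBcBi : (B.map C * (B⁻¹).map C : Matrix (Fin 2) (Fin 2) (R2 K)) = 1 := by
    rw [← map_C_mul, Matrix.mul_nonsing_inv B hBu, hone]
  have hBiBc : ((B⁻¹).map C * B.map C : Matrix (Fin 2) (Fin 2) (R2 K)) = 1 := by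
    rw [← map_C_mul, Matrix.nonsing_inv_mul B hBu, hone]
  set Ψ : Matrix (Fin 2) (Fin 2) (R2 K) := (B⁻¹).map C * phiF a c d * B.map C with hΨ
  have hrat : ∀ i j, ∃ b : R2 L, MvPolynomial.map (algebraMap L K) b = Ψ i j := by
    intro i j
    apply fixed_poly Gal hfix
    intro σ hσ
    have := congrFun (congrFun (hfx σ hσ) i) j
    simpa using this
  choose b hb using hrat
  have htr : Ψ 1 1 = - Ψ 0 0 := by
    have h3 : Ψ.trace = (phiF a c d).trace := by
      rw [hΨ, Matrix.trace_mul_comm, ← mul_assoc, hBcBi, one_mul]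
    rw [Matrix.trace_fin_two, Matrix.trace_fin_two] at h3
    simp [phiF] at h3
    linear_combination h3
  have hdet : Ψ.det = (phiF a c d).det := by
    rw [hΨ, Matrix.det_mul, Matrix.det_mul, mul_right_comm, ← Matrix.det_mul, hBiBc,
      Matrix.det_one, one_mul]
  have hform : ∀ a' : ℕ → K, HomZ (form 3 a') 3 := fun a' => by
    have := homZ_form 3 a'
    exact_mod_cast this
  have hhom : ∀ i j, HomZ (Ψ i j) 3 := by
    intro i j
    have hph : ∀ i j, HomZ (phiF a c d i j) 3 := by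
      intro i j
      fin_cases i <;> fin_cases j
      · exact hform a
      · exact hform d
      · exact hform c
      · exact homZ_neg (hform a)
    rw [hΨ]
    simp only [Matrix.mul_apply, Fin.sum_univ_two, Matrix.map_apply]
    have hCm : ∀ (x : K) (p : R2 K), HomZ p 3 → HomZ (p * C x) 3 := fun x p hp => by
      rw [mul_comm]; exact homZ_C_mul x hp
    exact homZ_add (hCm _ _ (homZ_add (homZ_C_mul _ (hph _ _)) (homZ_C_mul _ (hph _ _))))
      (hCm _ _ (homZ_add (homZ_C_mul _ (hph _ _)) (homZ_C_mul _ (hph _ _))))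
  have hinj : Function.Injective (MvPolynomial.map (σ := Fin 2) (algebraMap L K)) :=
    MvPolynomial.map_injective _ (algebraMap L K).injective
  have hd0 : b 0 0 ^ 2 + b 1 0 * b 0 1 = - sextic (lineVec P Q) := by
    apply hinj
    rw [map_add, map_pow, map_mul, map_neg, map_sextic_line, hb, hb, hb, ← hrel]
    rw [Matrix.det_fin_two, Matrix.det_fin_two, htr] at hdet
    simp [phiF] at hdet
    linear_combination -hdet
  have h0a : HomZ (b 0 0) 3 := homZ_of_map (algebraMap L K) (by rw [hb]; exact hhom 0 0)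
  have h0c : HomZ (b 1 0) (3 - 2 * ((0 : ℕ) : ℤ)) := by
    norm_num
    exact homZ_of_map (algebraMap L K) (by rw [hb]; exact hhom 1 0)
  have h0d : HomZ (b 0 1) (3 + 2 * ((0 : ℕ) : ℤ)) := by
    norm_num
    exact homZ_of_map (algebraMap L K) (by rw [hb]; exact hhom 0 1)
  let D0 : Datum L := ⟨P, Q, ind, 0, by norm_num, b 0 0, b 1 0, b 0 1, h0a, h0c, h0d, hd0⟩
  have hD0 : D0.phi.map (MvPolynomial.map (algebraMap L K)) = Ψ := by
    ext1 i j
    fin_cases i <;> fin_cases j
    · simpa [Datum.phi, D0] using hb 0 0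
    · simpa [Datum.phi, D0] using hb 0 1
    · simpa [Datum.phi, D0] using hb 1 0
    · simp [Datum.phi, D0, hb, htr]
  refine ⟨D0, rfl, rfl, he.symm, (B⁻¹).map C, ?_, ?_⟩
  · rw [he]
    refine ⟨?_, ?_, ?_, ?_, ?_⟩
    · have h3 := congrArg Matrix.det hBiBc
      rw [Matrix.det_mul, Matrix.det_one] at h3
      exact IsUnit.of_mul_eq_one _ h3
    · exact homZ_C _
    · simpa using homZ_C (B⁻¹ 0 1)
    · simpa using homZ_C (B⁻¹ 1 0)
    · exact homZ_C _
  · rw [phi_map, hphi, hD0, hΨ, mul_assoc, hBcBi, mul_one]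

end Gal11

open Gal11 in
/-- Galois descent in type `(1, 1)` -/
theorem gal11 (L : Type) [Field L] [CharZero L] (hs : SplitProp L)
    (D : Datum (AlgebraicClosure L)) (he : D.e = 0) (P Q : Fin 3 → L)
    (hP : D.P = fun i => algebraMap L (AlgebraicClosure L) (P i))
    (hQ : D.Q = fun i => algebraMap L (AlgebraicClosure L) (Q i))
    (hg : ∀ σ : AlgebraicClosure L ≃ₐ[L] AlgebraicClosure L,
      ∃ G : Matrix (Fin 2) (Fin 2) (R2 (AlgebraicClosure L)), GoodMat D.e G ∧
      D.phi * G = G * D.phi.map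
        (MvPolynomial.map (σ : AlgebraicClosure L →+* AlgebraicClosure L))) :
    ∃ D0 : Datum L, D0.P = P ∧ D0.Q = Q ∧ D0.e = D.e ∧
      ∃ H : Matrix (Fin 2) (Fin 2) (R2 (AlgebraicClosure L)), GoodMat D.e H ∧
      H * D.phi = (D0.map (algebraMap L (AlgebraicClosure L))).phi * H := by
  have hc0 : CharZero (AlgebraicClosure L) :=
    charZero_of_injective_algebraMap (algebraMap L (AlgebraicClosure L)).injective
  refine main hs (Set.range fun σ : AlgebraicClosure L ≃ₐ[L] AlgebraicClosure L =>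
    (σ : AlgebraicClosure L →+* AlgebraicClosure L)) ?_ ?_ D he P Q hP hQ ?_
  · intro a ha
    exact fixed_rational L a fun σ => ha _ ⟨σ, rfl⟩
  · rintro _ ⟨σ, rfl⟩ b
    exact σ.commutes b
  · rintro _ ⟨σ, rfl⟩
    exact hg σ

end Pool.Agent.Work.MP_2dff99_ag.F5
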