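import Pool.Agent.Work.MP_2dff99_ag.F5.Base

open MvPolynomial

namespace Pool.Agent.Work.MP_2dff99_ag.F5

variable {k : Type} [Field k]

theorem iso_smul {S T : Sheaf k} (θ : S.M ≃ₗ[k] T.M)
    (h : ∀ (i : Fin 4) (m : S.M), θ ((X i : MvPolynomial (Fin 4) k) • m) =
      (X i : MvPolynomial (Fin 4) k) • θ m) (a : MvPolynomial (Fin 4) k) (m : S.M) :
    θ (a • m) = a • θ m := by
  induction a using MvPolynomial.induction_on generalizing m with
  | C c =>
    rw [← MvPolynomial.algebraMap_eq, algebraMap_smul, algebraMap_smul, map_smul]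
  | add p q hp hq => rw [add_smul, add_smul, map_add, hp, hq]
  | mul_X p i hp => rw [mul_smul, mul_smul, hp, h]

/-- the isomorphism as a map of modules over the polynomial ring -/
private noncomputable def isoA {S T : Sheaf k} (θ : S.M ≃ₗ[k] T.M)
    (h : ∀ (i : Fin 4) (m : S.M), θ ((X i : MvPolynomial (Fin 4) k) • m) =
      (X i : MvPolynomial (Fin 4) k) • θ m) : S.M ≃ₗ[MvPolynomial (Fin 4) k] T.M where
  toFun := θ
  map_add' := θ.map_add
  map_smul' := fun a m => iso_smul θ h a m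
  invFun := θ.symm
  left_inv := θ.left_inv
  right_inv := θ.right_inv

private theorem iso_gr {S T : Sheaf k} (θ : S.M ≃ₗ[k] T.M)
    (h : ∀ (n : ℤ) (m : S.M), m ∈ S.gr n → θ m ∈ T.gr n) (n : ℤ) :
    (S.gr n).map (θ : S.M →ₗ[k] T.M) = T.gr n := by
  classical
  have hS := (DirectSum.isInternal_submodule_iff_iSupIndep_and_iSup_eq_top S.gr).1 S.internal
  have hT := (DirectSum.isInternal_submodule_iff_iSupIndep_and_iSup_eq_top T.gr).1 T.internal
  have hle : ∀ j, (S.gr j).map (θ : S.M →ₗ[k] T.M) ≤ T.gr j := by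
    rintro j _ ⟨m, hm, rfl⟩
    exact h j m hm
  refine le_antisymm (hle n) ?_
  have htop : (⨆ j, (S.gr j).map (θ : S.M →ₗ[k] T.M)) = ⊤ := by
    rw [← Submodule.map_iSup, hS.2, Submodule.map_top, LinearMap.range_eq_top]
    exact θ.surjective
  have h1 : (S.gr n).map (θ : S.M →ₗ[k] T.M) ⊔
      (⨆ (j) (_ : j ≠ n), (S.gr j).map (θ : S.M →ₗ[k] T.M)) = ⊤ := by
    rw [eq_top_iff, ← htop]
    refine iSup_le fun j => ?_
    by_cases hj : j = n
    · subst hj
      exact le_sup_left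
    · refine le_trans ?_ le_sup_right
      exact le_iSup₂_of_le j hj le_rfl
  have h2 : (⨆ (j) (_ : j ≠ n), (S.gr j).map (θ : S.M →ₗ[k] T.M)) ⊓ T.gr n = ⊥ := by
    rw [eq_bot_iff]
    refine le_trans (inf_le_inf_right _ (iSup₂_mono fun j _ => hle j)) ?_
    rw [inf_comm]
    exact (hT.1 n).le_bot
  have h3 := sup_inf_assoc_of_le (⨆ (j) (_ : j ≠ n), (S.gr j).map (θ : S.M →ₗ[k] T.M)) (hle n)
  rw [h1, h2, top_inf_eq, sup_bot_eq] at h3
  exact h3.le

private theorem iso_gr_iff {S T : Sheaf k} (θ : S.M ≃ₗ[k] T.M)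
    (h : ∀ (n : ℤ) (m : S.M), m ∈ S.gr n → θ m ∈ T.gr n) (n : ℤ) (m : S.M) :
    θ m ∈ T.gr n ↔ m ∈ S.gr n := by
  refine ⟨fun hm => ?_, h n m⟩
  rw [← iso_gr θ h n] at hm
  obtain ⟨m', hm', e⟩ := hm
  have : m' = m := θ.injective e
  exact this ▸ hm'

theorem Sheaf.Iso.symm {S T : Sheaf k} (h : S.Iso T) : T.Iso S := by
  obtain ⟨θ, h1, h2⟩ := h
  refine ⟨θ.symm, fun i m => ?_, fun n m hm => ?_⟩
  · apply θ.injective
    rw [h1, θ.apply_symm_apply, θ.apply_symm_apply]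
  · rw [← iso_gr_iff θ h2, θ.apply_symm_apply]
    exact hm

theorem Sheaf.Iso.trans {S T U : Sheaf k} (h : S.Iso T) (h' : T.Iso U) : S.Iso U := by
  obtain ⟨θ, h1, h2⟩ := h
  obtain ⟨θ', h1', h2'⟩ := h'
  refine ⟨θ.trans θ', fun i m => ?_, fun n m hm => ?_⟩
  · rw [LinearEquiv.trans_apply, LinearEquiv.trans_apply, h1, h1']
  · exact h2' n _ (h2 n m hm)

theorem Sheaf.Iso.killed {S T : Sheaf k} (h : S.Iso T) (c : Fin 3 → k) (hc : S.Killed c) :
    T.Killed c := by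
  obtain ⟨θ, h1, h2⟩ := h
  intro m
  obtain ⟨m', rfl⟩ := θ.surjective m
  rw [← iso_smul θ h1, hc, map_zero]

theorem Sheaf.Iso.ofClass {S T : Sheaf k} (h : S.Iso T) (hS : S.OfClass) : T.OfClass := by
  obtain ⟨⟨c, hc, hk⟩, hd⟩ := hS
  refine ⟨⟨c, hc, h.killed c hk⟩, ?_⟩
  obtain ⟨θ, h1, h2⟩ := h
  filter_upwards [hd] with n hn
  rw [← hn, ← iso_gr θ h2 n]
  rw [LinearEquiv.finrank_map_eq]

theorem Sheaf.Iso.stable {S T : Sheaf k} (h : S.Iso T) (hS : S.Stable) : T.Stable := by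
  obtain ⟨θ, h1, h2⟩ := h
  intro N hN hN0 hN1
  have e1 : ∀ (p : Submodule k T.M), (Submodule.orderIsoMapComap θ).symm p =
      p.comap (θ : S.M →ₗ[k] T.M) := fun p => rfl
  have e2 : ∀ n, (T.gr n).comap (θ : S.M →ₗ[k] T.M) = S.gr n := by
    intro n
    ext m
    exact iso_gr_iff θ h2 n m
  have e3 : (N.comap (isoA θ h1 : S.M →ₗ[MvPolynomial (Fin 4) k] T.M)).restrictScalars k =
      (N.restrictScalars k).comap (θ : S.M →ₗ[k] T.M) := by
    ext m
    rfl
  have e4 : ∀ n, (N.comap (isoA θ h1 : S.M →ₗ[MvPolynomial (Fin 4) k] T.M)).restrictScalars k ⊓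
      S.gr n = (N.restrictScalars k ⊓ T.gr n).comap (θ : S.M →ₗ[k] T.M) := by
    intro n
    rw [Submodule.comap_inf, e2, e3]
  obtain ⟨a, b, ha, hb, hab⟩ := hS (N.comap (isoA θ h1 : S.M →ₗ[MvPolynomial (Fin 4) k] T.M))
    (by
      simp only [e4]
      simp only [← e1]
      rw [← OrderIso.map_iSup, ← hN, e1, e3])
    (by
      intro h0
      apply hN0
      rw [eq_bot_iff]
      intro m hm
      obtain ⟨m', rfl⟩ := θ.surjective m
      have h3 : m' ∈ (N.comap (isoA θ h1 : S.M →ₗ[MvPolynomial (Fin 4) k] T.M)) := hm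
      rw [h0] at h3
      have h4 : m' = 0 := h3
      rw [h4, map_zero]
      exact Submodule.zero_mem _)
    (by
      intro h0
      apply hN1
      filter_upwards [h0] with n hn
      intro m hm
      obtain ⟨m', rfl⟩ := θ.surjective m
      have h3 : m' ∈ S.gr n := (iso_gr_iff θ h2 n m').1 hm
      exact hn h3)
  refine ⟨a, b, ha, hb, ?_⟩
  filter_upwards [hab] with n hn
  rw [← hn, e4]
  have h5 : (N.restrictScalars k ⊓ T.gr n) =
      ((N.restrictScalars k ⊓ T.gr n).comap (θ : S.M →ₗ[k] T.M)).map (θ : S.M →ₗ[k] T.M) := by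
    rw [Submodule.map_comap_eq_of_surjective θ.surjective]
  conv_lhs => rw [h5]
  rw [LinearEquiv.finrank_map_eq]

theorem Sheaf.Iso.twist {S T : Sheaf k} (h : S.Iso T) (σ : k →+* k) (hS : S.Twist σ) :
    T.Twist σ := by
  obtain ⟨θ, h1, h2⟩ := h
  obtain ⟨τ, h3, h4, h5⟩ := hS
  refine ⟨(θ.symm.toAddEquiv.trans τ).trans θ.toAddEquiv, fun a m => ?_, fun i m => ?_,
    fun n m hm => ?_⟩
  · obtain ⟨m', rfl⟩ := θ.surjective m
    change θ (τ (θ.symm (a • θ m'))) = σ a • θ (τ (θ.symm (θ m')))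
    rw [← map_smul, θ.symm_apply_apply, θ.symm_apply_apply, h3, map_smul]
  · obtain ⟨m', rfl⟩ := θ.surjective m
    change θ (τ (θ.symm (_ • θ m'))) = _ • θ (τ (θ.symm (θ m')))
    rw [← h1, θ.symm_apply_apply, θ.symm_apply_apply, h4, h1]
  · obtain ⟨m', rfl⟩ := θ.surjective m
    change θ (τ (θ.symm (θ m'))) ∈ T.gr n
    rw [θ.symm_apply_apply]
    exact h2 n _ (h5 n _ ((iso_gr_iff θ h2 n m').1 hm))

theorem Sheaf.Iso.baseChange {L : Type} [Field L] [Algebra L k] {T : Sheaf L} {S S' : Sheaf k}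
    (h : S.Iso S') (hS : BaseChange T S) : BaseChange T S' := by
  obtain ⟨θ, h1, h2⟩ := h
  obtain ⟨ι, h3, h4, h5, J, b, h6, h7⟩ := hS
  refine ⟨(θ.toAddEquiv.toAddMonoidHom).comp ι, fun a m => ?_, fun i m => ?_, fun n m hm => ?_,
    J, b, ?_, ?_⟩
  · change θ (ι (a • m)) = _ • θ (ι m)
    rw [h3, map_smul]
  · change θ (ι _) = _ • θ (ι m)
    rw [h4, h1]
  · exact h2 n _ (h5 n m hm)
  · exact h6.map' (θ : S.M →ₗ[k] S'.M) (LinearMap.ker_eq_bot.2 θ.injective)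
  · have : (Set.range fun j => ((θ.toAddEquiv.toAddMonoidHom).comp ι) (b j)) =
        (θ : S.M →ₗ[k] S'.M) '' (Set.range fun j => ι (b j)) := by
      rw [← Set.range_comp]
      rfl
    rw [this, ← Submodule.map_span, h7, Submodule.map_top, LinearMap.range_eq_top]
    exact θ.surjective

end Pool.Agent.Work.MP_2dff99_ag.F5
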