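import Pool.Agent.Work.MP_2dff99_ag.F5.Normal
import Pool.Agent.Work.MP_2dff99_ag.F5.IsoApi
import Pool.Agent.Work.MP_2dff99_ag.Perp
import Pool.Agent.Work.MP_2dff99_ag.F5.Fixed

open MvPolynomial

namespace Pool.Agent.Work.MP_2dff99_ag.F5

namespace Line

variable {k : Type} [Field k]

/-- the vectors killing the sheaf of a datum are perpendicular to the line -/
theorem killed_sheaf (D : Datum k) (c : Fin 3 → k) (h : D.sheaf.Killed c) :
    ∑ i, c i * D.P i = 0 ∧ ∑ i, c i * D.Q i = 0 := by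
  have h1 := h (show D.sheaf.M from fun _ => (1 : R2 k))
  have h2 : D.rho (∑ i : Fin 3, C (c i) * (X i.castSucc : MvPolynomial (Fin 4) k))
      (fun _ => (1 : R2 k)) = 0 := h1
  rw [map_sum, LinearMap.sum_apply] at h2
  have h3 : ∑ i : Fin 3, C (c i) * lineVec D.P D.Q i = (0 : R2 k) := by
    have h4 := congrFun h2 0
    rw [Finset.sum_apply] at h4
    rw [Pi.zero_apply] at h4
    rw [← h4]
    refine Finset.sum_congr rfl (fun i _ => ?_)
    rw [map_mul, Module.End.mul_apply, rho_X, rho_C]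
    simp [MvPolynomial.smul_eq_C_mul]
  constructor
  · have h4 := congrArg (MvPolynomial.eval ![(1 : k), 0]) h3
    simpa [lineVec, map_sum] using h4
  · have h4 := congrArg (MvPolynomial.eval ![(0 : k), 1]) h3
    simpa [lineVec, map_sum] using h4

theorem C_smul (S : Sheaf k) (a : k) (m : S.M) : (C a : MvPolynomial (Fin 4) k) • m = a • m := by
  rw [← mul_one (C a), ← MvPolynomial.smul_eq_C_mul, smul_assoc, one_smul]

theorem killed_iff (S : Sheaf k) (c : Fin 3 → k) : S.Killed c ↔
    ∀ m : S.M, ∑ i : Fin 3, c i • (X i.castSucc : MvPolynomial (Fin 4) k) • m = 0 := by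
  unfold Sheaf.Killed
  refine forall_congr' (fun m => ?_)
  rw [Finset.sum_smul]
  have : ∀ i : Fin 3, (C (c i) * (X i.castSucc : MvPolynomial (Fin 4) k)) • m =
      c i • (X i.castSucc : MvPolynomial (Fin 4) k) • m := by
    intro i
    rw [mul_smul, C_smul]
  simp only [this]

theorem killed_smul (S : Sheaf k) (c : Fin 3 → k) (h : S.Killed c) (a : k) :
    S.Killed (a • c) := by
  rw [killed_iff] at h ⊢
  intro m
  have := congrArg (fun x => a • x) (h m)
  simp only [Finset.smul_sum, smul_zero] at this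
  rw [← this]
  refine Finset.sum_congr rfl (fun i _ => ?_)
  rw [Pi.smul_apply, smul_eq_mul, mul_smul]

theorem killed_twist (S : Sheaf k) (c : Fin 3 → k) (h : S.Killed c) (σ : k →+* k)
    (hσ : S.Twist σ) : S.Killed (fun i => σ (c i)) := by
  rw [killed_iff] at h ⊢
  obtain ⟨θ, h1, h2, -⟩ := hσ
  intro m
  obtain ⟨m, rfl⟩ := θ.surjective m
  have := congrArg θ (h m)
  rw [map_sum, map_zero] at this
  rw [← this]
  refine Finset.sum_congr rfl (fun i _ => ?_)
  rw [h1, h2]

end Line

/-- the line supporting a Galois invariant sheaf is rational -/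
theorem line_rational (L : Type) [Field L] [CharZero L] (S : Sheaf (AlgebraicClosure L))
    (hS : S.OfClass) (hg : ∀ σ : AlgebraicClosure L ≃ₐ[L] AlgebraicClosure L,
      S.Twist (σ : AlgebraicClosure L →+* AlgebraicClosure L)) :
    ∃ c : Fin 3 → L, c ≠ 0 ∧ S.Killed (fun i => algebraMap L (AlgebraicClosure L) (c i)) := by
  have : CharZero (AlgebraicClosure L) := charZero_of_injective_algebraMap
    (algebraMap L (AlgebraicClosure L)).injective
  obtain ⟨⟨c₀, hc₀, hk₀⟩, hdim⟩ := hS
  obtain ⟨i₀, hi₀⟩ : ∃ i, c₀ i ≠ 0 := by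
    by_contra h
    push Not at h
    exact hc₀ (funext h)
  obtain ⟨c, hcdef⟩ : ∃ c, c = (c₀ i₀)⁻¹ • c₀ := ⟨_, rfl⟩
  have hc1 : c i₀ = 1 := by rw [hcdef, Pi.smul_apply, smul_eq_mul, inv_mul_cancel₀ hi₀]
  have hk : S.Killed c := by rw [hcdef]; exact Line.killed_smul S c₀ hk₀ _
  have hc : c ≠ 0 := by
    rintro rfl
    exact zero_ne_one hc1
  obtain ⟨P, Q, ind, hP, hQ⟩ := exists_perp _ c hc
  obtain ⟨D, hDP, hDQ, hiso⟩ := normal_form _ S hdim c hc hk P Q ind hP hQ
  have key : ∀ d : Fin 3 → AlgebraicClosure L, S.Killed d → ∃ a : AlgebraicClosure L,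
      d = a • c := by
    intro d hd
    obtain ⟨h1, h2⟩ := Line.killed_sheaf D d (hiso.killed d hd)
    rw [hDP] at h1
    rw [hDQ] at h2
    exact perp_unique _ P Q ind c d hc hP hQ h1 h2
  have hfix : ∀ i, ∀ σ : AlgebraicClosure L ≃ₐ[L] AlgebraicClosure L, σ (c i) = c i := by
    intro i σ
    obtain ⟨a, ha⟩ := key _ (Line.killed_twist S c hk _ (hg σ))
    have h1 := congrFun ha i₀
    simp only [Pi.smul_apply, smul_eq_mul, hc1, map_one, mul_one] at h1
    have h2 := congrFun ha i
    rw [← h1, one_smul] at h2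
    exact h2
  choose b hb using fun i => fixed_rational L (c i) (hfix i)
  refine ⟨b, ?_, ?_⟩
  · rintro rfl
    have := hb i₀
    rw [hc1, Pi.zero_apply, map_zero] at this
    exact zero_ne_one this
  · have : (fun i => algebraMap L (AlgebraicClosure L) (b i)) = c := funext hb
    rw [this]
    exact hk

end Pool.Agent.Work.MP_2dff99_ag.F5
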