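import Pool.Agent.Work.MP_2dff99_ag.F5.Sx

namespace Pool.Agent.Work.MP_2dff99_ag.F5

namespace Q5A

theorem fin5 : ∀ x y z r : ZMod 5, (x ≠ 0 ∨ y ≠ 0 ∨ z ≠ 0) →
    2 * (x * ((x + 3 * z) * (x + 3 * z) - (3 * y - z) * y) +
      z * (y * (x + 3 * z) - (3 * y - z) * z) - y * (y * y - (x + 3 * z) * z)) ^ 2 ≠ r ^ 2 := by
  decide +kernel

theorem ten5 : (10 : ZMod 5) = 0 := by decide

theorem sev5 : (7 : ZMod 5) = 2 := by decide

theorem fin5' (v : Fin 3 → ZMod 5) (hv : v ≠ 0) (r : ZMod 5) : - sextic v ≠ r ^ 2 := by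
  have h1 : v 0 ≠ 0 ∨ v 1 ≠ 0 ∨ v 2 ≠ 0 := by
    by_contra hcon
    push Not at hcon
    apply hv
    funext i
    fin_cases i
    · exact hcon.1
    · exact hcon.2.1
    · exact hcon.2.2
  have h2 := fin5 (v 0) (v 1) (v 2) r h1
  rw [← det_mulMat] at h2
  intro h
  apply h2
  rw [← h]
  unfold sextic
  rw [ten5, sev5]
  ring

end Q5A

/-- `F = - sextic` has no nonzero square value over `ℚ_5`.

PROOF.
Step 1 (finite check). `∀ v : Fin 3 → ZMod 5, v ≠ 0 → ∀ r : ZMod 5, - sextic v ≠ r ^ 2`: modulo 5 one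
has `- sextic v = 2 * (mulMat v).det ^ 2` and the norm form `det (mulMat v)` has no nontrivial zero
(`X^3 - 3 X + 1` is irreducible modulo 5), so this is `decide` over 125 vectors; first rewrite by
`sextic_expand` with the coefficients reduced modulo 5 (or quantify over three variables
`x y z : ZMod 5` and use `decide +kernel` on an explicit polynomial statement).
Step 2. Given `v ≠ 0` in `ℚ_[5]^3` let `i` be an index with `‖v i‖` maximal; `v i ≠ 0`. Put
`u n = v n / v i`, of norm at most 1, `u' n : ℤ_[5] := ⟨u n, _⟩`, `u' i = 1`. By `sextic_smul`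
`sextic v = (v i)^6 * sextic u`, so `- sextic u = (r / (v i)^3)^2`. Put `ρ = r / (v i)^3`;
`‖ρ‖^2 = ‖sextic u‖ ≤ 1` because `sextic u` is the image of `sextic u' : ℤ_[5]` (`sextic_map` with
`PadicInt.Coe.ringHom`), so `ρ` is in `ℤ_[5]`. Reduce `- sextic u' = ρ'^2` by
`PadicInt.toZMod` (`sextic_map`) and use Step 1 for `fun n => toZMod (u' n)`, nonzero as its
`i`-th entry is 1. -/
theorem no_point_five [Fact (Nat.Prime 5)] (v : Fin 3 → ℚ_[5]) (hv : v ≠ 0) (r : ℚ_[5]) : - sextic v ≠ r ^ 2 := by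
  intro h
  obtain ⟨i, hi⟩ := Finite.exists_max (fun n => ‖v n‖)
  have hvi : v i ≠ 0 := by
    intro h0
    apply hv
    funext n
    have := hi n
    rw [h0, norm_zero] at this
    exact norm_le_zero_iff.mp this
  have hint : ∀ n, ‖v n / v i‖ ≤ 1 := by
    intro n
    rw [norm_div, div_le_one (norm_pos_iff.mpr hvi)]
    exact hi n
  obtain ⟨u, hu⟩ : ∃ u : Fin 3 → ℤ_[5], ∀ n, (u n : ℚ_[5]) = v n / v i :=
    ⟨fun n => ⟨v n / v i, hint n⟩, fun n => rfl⟩
  have hui : u i = 1 := by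
    apply Subtype.ext
    change (u i : ℚ_[5]) = (1 : ℚ_[5])
    rw [hu, div_self hvi]
  set ρ := r / (v i) ^ 3 with hρ
  have h1 : ((- sextic u : ℤ_[5]) : ℚ_[5]) = ρ ^ 2 := by
    have e1 : ((- sextic u : ℤ_[5]) : ℚ_[5]) = - sextic (fun n => (u n : ℚ_[5])) := by
      have := congrArg (fun z => - z) (sextic_map (PadicInt.Coe.ringHom (p := 5)) u)
      rw [PadicInt.coe_neg]
      exact this
    have e2 : sextic v = v i ^ 6 * sextic (fun n => (u n : ℚ_[5])) := by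
      rw [← sextic_smul]
      congr 1
      funext n
      rw [hu]
      field_simp
    rw [e2] at h
    rw [e1, hρ, div_pow, eq_div_iff (pow_ne_zero 2 (pow_ne_zero 3 hvi)), ← h]
    ring
  have h2 : ‖ρ‖ ≤ 1 := by
    have h3 : ‖((- sextic u : ℤ_[5]) : ℚ_[5])‖ ≤ 1 := (- sextic u : ℤ_[5]).2
    rw [h1, norm_pow] at h3
    exact (sq_le_one_iff₀ (norm_nonneg _)).1 h3
  obtain ⟨ρ', hρ'⟩ : ∃ ρ' : ℤ_[5], (ρ' : ℚ_[5]) = ρ := ⟨⟨ρ, h2⟩, rfl⟩
  have h3 : - sextic u = ρ' ^ 2 := by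
    apply Subtype.ext
    change ((- sextic u : ℤ_[5]) : ℚ_[5]) = ((ρ' ^ 2 : ℤ_[5]) : ℚ_[5])
    rw [h1, PadicInt.coe_pow, hρ']
  have h4 := congrArg (PadicInt.toZMod (p := 5)) h3
  rw [map_neg, sextic_map, map_pow] at h4
  refine Q5A.fin5' _ ?_ _ h4
  intro h0
  have := congrFun h0 i
  rw [hui, map_one] at this
  exact one_ne_zero this

end Pool.Agent.Work.MP_2dff99_ag.F5
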