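import Pool.Agent.Work.MP_2dff99_ag.F5.Sx

open Polynomial

namespace Pool.Agent.Work.MP_2dff99_ag.F5

/-- the vector of linear polynomials `X P + Q` -/
noncomputable def pvec {R : Type*} [CommRing R] (P Q : Fin 3 → R) : Fin 3 → R[X] :=
  fun i => C (P i) * X + C (Q i)

/-- the norm `N(ξ)` on the line -/
noncomputable def nrm {R : Type*} [CommRing R] (P Q : Fin 3 → R) : R[X] :=
  (mulMat (pvec P Q)).det

/-- `Tr ((1 - θ) ^ 2 ξ ^ 6)` on the line -/
noncomputable def trc {R : Type*} [CommRing R] (P Q : Fin 3 → R) : R[X] :=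
  (mulMat (![1, -1, 0] : Fin 3 → R[X]) ^ 2 * mulMat (pvec P Q) ^ 6).trace

theorem sextic_pvec {R : Type*} [CommRing R] (P Q : Fin 3 → R) :
    - sextic (pvec P Q) = 10 * trc P Q + 7 * nrm P Q ^ 2 := by
  unfold sextic trc nrm
  ring

theorem pvec_map {R S : Type*} [CommRing R] [CommRing S] (f : R →+* S) (P Q : Fin 3 → R) :
    (fun i => (pvec P Q i).map f) = pvec (fun i => f (P i)) (fun i => f (Q i)) := by
  funext i
  simp [pvec]

theorem sextic_pvec_map {R S : Type*} [CommRing R] [CommRing S] (f : R →+* S)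
    (P Q : Fin 3 → R) : (sextic (pvec P Q)).map f =
      sextic (pvec (fun i => f (P i)) (fun i => f (Q i))) := by
  have h := sextic_map (Polynomial.mapRingHom f) (pvec P Q)
  rw [Polynomial.coe_mapRingHom] at h
  rw [h, pvec_map]

theorem mulMat_map {R S : Type*} [CommRing R] [CommRing S] (f : R →+* S) (v : Fin 3 → R) :
    (mulMat v).map f = mulMat (fun i => f (v i)) := by
  ext i j
  fin_cases i <;> fin_cases j <;> simp [mulMat, map_ofNat]

theorem nrm_map {R S : Type*} [CommRing R] [CommRing S] (f : R →+* S) (P Q : Fin 3 → R) :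
    (nrm P Q).map f = nrm (fun i => f (P i)) (fun i => f (Q i)) := by
  unfold nrm
  rw [← Polynomial.coe_mapRingHom, RingHom.map_det, RingHom.mapMatrix_apply, mulMat_map]
  rw [Polynomial.coe_mapRingHom, pvec_map]

theorem trc_map {R S : Type*} [CommRing R] [CommRing S] (f : R →+* S) (P Q : Fin 3 → R) :
    (trc P Q).map f = trc (fun i => f (P i)) (fun i => f (Q i)) := by
  have h1 : (mulMat (![1, -1, 0] : Fin 3 → R[X])).map (mapRingHom f) =
      mulMat (![1, -1, 0] : Fin 3 → S[X]) := by
    rw [mulMat_map]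
    congr 1
    funext i
    fin_cases i <;> simp
  have h2 : (mulMat (pvec P Q)).map (mapRingHom f) =
      mulMat (pvec (fun i => f (P i)) (fun i => f (Q i))) := by
    rw [mulMat_map, ← pvec_map]
    rfl
  unfold trc
  rw [← Polynomial.coe_mapRingHom, ← h1, ← h2, ← RingHom.mapMatrix_apply,
    ← RingHom.mapMatrix_apply, ← map_pow, ← map_pow, ← map_mul]
  exact AddMonoidHom.map_trace (mapRingHom f).toAddMonoidHom _

end Pool.Agent.Work.MP_2dff99_ag.F5
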