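import Pool.Agent.Work.MP_2dff99_ag.F5.IsoM
import Pool.Agent.Work.MP_2dff99_ag.F5.DMap
import Pool.Agent.Work.MP_2dff99_ag.F5.PointD
import Pool.Agent.Work.MP_2dff99_ag.F5.Q5Def

open MvPolynomial

namespace Pool.Agent.Work.MP_2dff99_ag.F5

namespace Q5D

theorem hom_ext {L : Type} [Field L] [Infinite L] {p : R2 L} {n : ℕ}
    (hp : HomZ p n) (h : ∀ s : L, eval ![s, 1] p = 0) : p = 0 := by
  obtain ⟨a, rfl⟩ := exists_form hp
  have h1 : form n a * X 1 = 0 := by
    apply ext_eval
    intro s t
    rw [map_zero, map_mul, eval_X]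
    by_cases ht : t = 0
    · rw [ht]
      simp
    · have h2 := h (s / t)
      rw [eval_form] at h2 ⊢
      have h3 : ∑ i ∈ Finset.range (n + 1), a i * s ^ (n - i) * t ^ i =
          t ^ n * ∑ i ∈ Finset.range (n + 1), a i * (s / t) ^ (n - i) * 1 ^ i := by
        rw [Finset.mul_sum]
        refine Finset.sum_congr rfl fun i hi => ?_
        rw [Finset.mem_range] at hi
        have h4 : t ^ n = t ^ (n - i) * t ^ i := by
          rw [← pow_add]
          congr 1
          omega
        rw [h4, div_pow]
        have h5 : t ^ (n - i) ≠ 0 := pow_ne_zero _ ht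
        field_simp
        ring
      rw [h3, h2, mul_zero, zero_mul]
  exact (mul_eq_zero.1 h1).resolve_right (X_ne_zero 1)

theorem eval_cubic {L : Type} [Field L] (A : Polynomial L) (hA : A.natDegree ≤ 3)
    (s : L) : eval ![s, 1] (form 3 (fun i => A.coeff (3 - i))) = A.eval s := by
  rw [eval_form, Polynomial.eval_eq_sum_range' (Nat.lt_succ_of_le hA)]
  simp only [Finset.sum_range_succ, Finset.sum_range_zero]
  simp
  ring

end Q5D

/-- A Galois invariant datum over the algebraic closure of `L` from a norm form.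

PROOF. Copy `exists_real_datum` (RealPt.lean; same structure). Let `φ = algebraMap L K`,
`K = AlgebraicClosure L`, `r : K` with `r ^ 2 = φ ε`. Homogenize: for a polynomial `g` of degree ≤ 3 let
`hg = form 3 (fun i => g.coeff (3 - i))` (`eval_cubic` and `hom_ext` in PointD.lean are private; copy
them), so that `7 * (hc^2 - C ε * hd^2) = - sextic (lineVec P Q)` over `L` by `hom_ext` (see
`datum_of_cubics` in PointD.lean). Datum over `K`: `P, Q` mapped by `φ` (`ind_map`), `e = 0`, `fa = 0`,
`fc = hc' + C r * hd'`, `fd = C 7 * (hc' - C r * hd')`, where `hc', hd'` are the images of `hc, hd` under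
`MvPolynomial.map φ` (`map_sextic_line`, `map_form`).
Let `σ` be an automorphism of `K` over `L`: `σ r = r` or `σ r = - r`, as `r ^ 2 = φ ε`. Use
`twist_of_matrix` with the matrix `1` in the first case and `!![0, 7; 1, 0]` (determinant `-7`, entries of
degree 0) in the second case: with `u = hc' + r hd'`, `v = hc' - r hd'`,
`!![0, 7 v; u, 0] * !![0, 7; 1, 0] = !![7 v, 0; 0, 7 u] = !![0, 7; 1, 0] * !![0, 7 u; v, 0]`. -/
theorem datum_of_norm (L : Type) [Field L] [CharZero L] (P Q : Fin 3 → L)
    (ind : LinearIndependent L ![P, Q]) (ε : L) (c d : Polynomial L) (hc : c.natDegree ≤ 3)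
    (hd : d.natDegree ≤ 3)
    (h : ∀ s : L, 7 * (c.eval s ^ 2 - ε * d.eval s ^ 2) = - sextic (fun i => s * P i + Q i)) :
    ∃ D : Datum (AlgebraicClosure L), ∀ σ : AlgebraicClosure L ≃ₐ[L] AlgebraicClosure L,
      D.sheaf.Twist (σ : AlgebraicClosure L →+* AlgebraicClosure L) := by
  have hinf : Infinite L := CharZero.infinite L
  let φ : L →+* AlgebraicClosure L := algebraMap L (AlgebraicClosure L)
  let pc : R2 L := form 3 (fun i => c.coeff (3 - i))
  let pd : R2 L := form 3 (fun i => d.coeff (3 - i))
  have hpc : HomZ pc 3 := homZ_form 3 _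
  have hpd : HomZ pd 3 := homZ_form 3 _
  have hC7 : (C 7 : R2 L) = 7 := map_ofNat C 7
  have hrel : C 7 * (pc ^ 2 - C ε * pd ^ 2) = - sextic (lineVec P Q) := by
    rw [← sub_eq_zero]
    apply Q5D.hom_ext (n := 6)
    · refine homZ_sub (homZ_mulE (homZ_C 7) (homZ_sub ?_ ?_) (zero_add _))
        (homZ_neg (homZ_sextic_line P Q))
      · rw [pow_two]
        exact homZ_mulE hpc hpc (by norm_num)
      · rw [pow_two]
        exact homZ_mulE (homZ_C ε) (homZ_mulE hpd hpd (by norm_num)) (zero_add _)
    · intro s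
      rw [map_sub, map_mul, map_sub, map_pow, map_mul, map_pow, map_neg, eval_C, eval_C,
        Q5D.eval_cubic c hc, Q5D.eval_cubic d hd, h, eval_sextic_line]
      simp only [one_mul, sub_self]
  obtain ⟨r, hr⟩ : ∃ r : AlgebraicClosure L, r ^ 2 = φ ε :=
    IsAlgClosed.exists_pow_nat_eq _ (by norm_num)
  let mc : R2 (AlgebraicClosure L) := MvPolynomial.map φ pc
  let md : R2 (AlgebraicClosure L) := MvPolynomial.map φ pd
  have hmc : HomZ mc 3 := homZ_map φ hpc
  have hmd : HomZ md 3 := homZ_map φ hpd
  have hCr : (C r : R2 (AlgebraicClosure L)) ^ 2 = C (φ ε) := by rw [← C_pow, hr]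
  have hrel' : C (φ 7) * (mc ^ 2 - C (φ ε) * md ^ 2) =
      - sextic (lineVec (fun j => φ (P j)) (fun j => φ (Q j))) := by
    rw [← map_sextic_line, ← map_neg, ← hrel]
    simp only [map_mul, map_sub, map_pow, map_C, mc, md]
  have hCr3 : HomZ (C r * md) 3 := homZ_mulE (homZ_C r) hmd (zero_add _)
  let D : Datum (AlgebraicClosure L) :=
    { P := fun j => φ (P j)
      Q := fun j => φ (Q j)
      ind := ind_map φ P Q ind
      e := 0
      he := by norm_num
      fa := 0
      fc := mc + C r * md
      fd := C (φ 7) * (mc - C r * md)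
      ha := homZ_zero _
      hc := by simpa using homZ_add hmc hCr3
      hd := by simpa using homZ_mulE (homZ_C (φ 7)) (homZ_sub hmc hCr3) (zero_add _)
      rel := by
        rw [← hrel']
        linear_combination (- C (φ 7) * md ^ 2) * hCr }
  refine ⟨D, fun σ => ?_⟩
  have hσφ : ∀ x : L, σ (φ x) = φ x := fun x => σ.commutes x
  have hσr : σ r = r ∨ σ r = -r := by
    have h1 : (σ r - r) * (σ r + r) = 0 := by
      have : σ r ^ 2 = φ ε := by rw [← map_pow, hr, hσφ]
      linear_combination this - hr
    rcases mul_eq_zero.1 h1 with h | h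
    · left; exact sub_eq_zero.1 h
    · right; exact eq_neg_of_add_eq_zero_left h
  have hone : HomZ (1 : R2 (AlgebraicClosure L)) 0 := by
    have := homZ_C (k := AlgebraicClosure L) 1
    rwa [map_one] at this
  have hcomp : (σ : AlgebraicClosure L →+* AlgebraicClosure L).comp φ = φ := by
    ext x
    exact hσφ x
  have hσmc : MvPolynomial.map (σ : AlgebraicClosure L →+* AlgebraicClosure L) mc = mc := by
    simp only [mc, MvPolynomial.map_map, hcomp]
  have hσmd : MvPolynomial.map (σ : AlgebraicClosure L →+* AlgebraicClosure L) md = md := by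
    simp only [md, MvPolynomial.map_map, hcomp]
  have hσ7 : (σ : AlgebraicClosure L →+* AlgebraicClosure L) (φ 7) = φ 7 := hσφ 7
  rcases hσr with h | h
  · have hσr' : (σ : AlgebraicClosure L →+* AlgebraicClosure L) r = r := h
    refine twist_of_matrix D _ σ.bijective (fun j => hσφ _) (fun j => hσφ _) 1
      ⟨by simp, by simpa using hone, by simpa using homZ_zero _, by simpa using homZ_zero _,
        by simpa using hone⟩ ?_
    rw [mul_one, one_mul]
    ext1 a b
    fin_cases a <;> fin_cases b
    · simp [Datum.phi, D]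
    · simp only [Datum.phi, D, Matrix.map_apply, Matrix.of_apply, Matrix.cons_val', Matrix.cons_val_zero, Matrix.cons_val_one, Matrix.cons_val_fin_one, Fin.zero_eta, Fin.mk_one, map_mul, map_sub, map_C, hσmc, hσmd, hσ7, hσr']
    · simp only [Datum.phi, D, Matrix.map_apply, Matrix.of_apply, Matrix.cons_val', Matrix.cons_val_zero, Matrix.cons_val_one, Matrix.cons_val_fin_one, Fin.zero_eta, Fin.mk_one, map_mul, map_add, map_C, hσmc, hσmd, hσr']
    · simp [Datum.phi, D]
  · have hσr' : (σ : AlgebraicClosure L →+* AlgebraicClosure L) r = -r := h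
    have h70 : (φ 7) ≠ 0 := by
      rw [map_ofNat]
      have : ((7 : ℕ) : AlgebraicClosure L) ≠ 0 := by
        have e : ((7 : ℕ) : AlgebraicClosure L) = φ ((7 : ℕ) : L) := (map_natCast φ 7).symm
        rw [e]
        exact (map_ne_zero φ).2 (by exact_mod_cast (by norm_num : (7 : ℕ) ≠ 0))
      exact_mod_cast this
    refine twist_of_matrix D _ σ.bijective (fun j => hσφ _) (fun j => hσφ _) !![0, C (φ 7); 1, 0]
      ⟨?_, by simpa using homZ_zero _, by simpa [D] using homZ_C (φ 7),
        by simpa [D] using hone, by simpa using homZ_zero _⟩ ?_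
    · have hdet : (!![0, C (φ 7); 1, 0] : Matrix (Fin 2) (Fin 2) (R2 (AlgebraicClosure L))).det =
          C (-(φ 7)) := by
        rw [Matrix.det_fin_two]
        simp
      rw [hdet]
      exact (isUnit_iff_ne_zero.2 (neg_ne_zero.2 h70)).map C
    · have hφ : D.phi.map (MvPolynomial.map (σ : AlgebraicClosure L →+* AlgebraicClosure L)) =
          !![0, C (φ 7) * (mc + C r * md); mc - C r * md, 0] := by
        ext1 a b
        fin_cases a <;> fin_cases b
        · simp [Datum.phi, D]
        · simp only [Datum.phi, D, Matrix.map_apply, Matrix.of_apply, Matrix.cons_val', Matrix.cons_val_zero, Matrix.cons_val_one, Matrix.cons_val_fin_one, Fin.zero_eta, Fin.mk_one, map_mul, map_sub, map_C, hσmc, hσmd, hσ7, hσr', C_neg]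
          ring
        · simp only [Datum.phi, D, Matrix.map_apply, Matrix.of_apply, Matrix.cons_val', Matrix.cons_val_zero, Matrix.cons_val_one, Matrix.cons_val_fin_one, Fin.zero_eta, Fin.mk_one, map_mul, map_add, map_C, hσmc, hσmd, hσr', C_neg]
          ring
        · simp [Datum.phi, D]
      rw [hφ]
      ext1 a b
      fin_cases a <;> fin_cases b <;>
        simp [Datum.phi, D, Matrix.mul_apply, Fin.sum_univ_two] <;> ring

end Pool.Agent.Work.MP_2dff99_ag.F5
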