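import Pool.Agent.Work.MP_2dff99_ag.F5.Q5Def
import Pool.Agent.Work.MP_2dff99_ag.Lift3

open Polynomial

namespace Pool.Agent.Work.MP_2dff99_ag.F5

namespace Q5L

open Lift3

section
variable {p : ℕ} [Fact p.Prime]

theorem approx (N T : ℤ_[p][X]) (hN : N.natDegree ≤ 3) (hT : T.natDegree ≤ 6)
    (a b : ℤ_[p]) (e : ℤ_[p])
    (u0 d0 : (ZMod p)[X]) (hu0 : u0.natDegree ≤ 3) (hd0 : d0.natDegree ≤ 3)
    (hP : (N.map PadicInt.toZMod).Monic) (h3 : (N.map PadicInt.toZMod).natDegree = 3)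
    (ha : PadicInt.toZMod a ≠ 0) (hb : PadicInt.toZMod b = 0)
    (hcop : IsCoprime (N.map PadicInt.toZMod) (C (PadicInt.toZMod (2 * e)) * d0))
    (h0 : C (PadicInt.toZMod a) * (N.map PadicInt.toZMod) * u0 + C (PadicInt.toZMod e) * d0 ^ 2 =
      T.map PadicInt.toZMod) (n : ℕ) :
    ∃ u d : Fin 4 → ℤ_[p], (lp u).map PadicInt.toZMod = u0 ∧ (lp d).map PadicInt.toZMod = d0 ∧
      ∃ E : ℤ_[p][X], C a * N * lp u + C b * lp u ^ 2 + C e * lp d ^ 2 - T =
        C ((p : ℤ_[p]) ^ (n + 1)) * E := by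
  have hp0 : (p : ℤ_[p]) ≠ 0 := by
    exact_mod_cast (Fact.out : p.Prime).ne_zero
  induction n with
  | zero =>
    obtain ⟨u, hu⟩ := lp_lift u0 hu0
    obtain ⟨d, hd⟩ := lp_lift d0 hd0
    refine ⟨u, d, hu, hd, ?_⟩
    obtain ⟨E, hE⟩ := dvd_of_map (C a * N * lp u + C b * lp u ^ 2 + C e * lp d ^ 2 - T) (by
      simp only [Polynomial.map_sub, Polynomial.map_add, Polynomial.map_pow, Polynomial.map_mul,
        Polynomial.map_C, hu, hd, hb, C_0]
      linear_combination h0)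
    exact ⟨E, by rw [hE]; simp⟩
  | succ n ih =>
    obtain ⟨u, d, hu, hd, E, hE⟩ := ih
    set q : ℤ_[p] := (p : ℤ_[p]) ^ (n + 1) with hq
    have hq0 : q ≠ 0 := pow_ne_zero _ hp0
    have hqz : PadicInt.toZMod q = 0 := by
      rw [hq, map_pow, map_natCast, ZMod.natCast_self, zero_pow (Nat.succ_ne_zero n)]
    have hEdeg : E.natDegree ≤ 6 := by
      have e1 : (C q * E).natDegree ≤ 6 := by
        rw [← hE]
        refine (natDegree_sub_le _ _).trans (max_le ?_ hT)
        refine (natDegree_add_le _ _).trans (max_le ?_ ?_)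
        · refine (natDegree_add_le _ _).trans (max_le ?_ ?_)
          · rw [mul_assoc]
            refine (natDegree_C_mul_le _ _).trans ?_
            refine natDegree_mul_le.trans ?_
            have := lp_deg u
            omega
          · refine (natDegree_C_mul_le _ _).trans ?_
            refine (natDegree_pow_le).trans ?_
            have := lp_deg u
            omega
        · refine (natDegree_C_mul_le _ _).trans ?_
          refine (natDegree_pow_le).trans ?_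
          have := lp_deg d
          omega
      rwa [natDegree_C_mul hq0] at e1
    obtain ⟨c', m', hc', hm', hsol⟩ := solve (N.map PadicInt.toZMod)
      (C (PadicInt.toZMod (2 * e)) * d0) (-(E.map PadicInt.toZMod)) hP h3 hcop
      ((natDegree_C_mul_le _ _).trans hd0) (by
        rw [natDegree_neg]
        exact natDegree_map_le.trans hEdeg)
    obtain ⟨d1, hd1⟩ := lp_lift c' hc'
    obtain ⟨u1, hu1⟩ := lp_lift (C (PadicInt.toZMod a)⁻¹ * m')
      ((natDegree_C_mul_le _ _).trans hm')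
    have hinv : (C (PadicInt.toZMod a) * C (PadicInt.toZMod a)⁻¹ : (ZMod p)[X]) = 1 := by
      rw [← C_mul, mul_inv_cancel₀ ha, C_1]
    refine ⟨fun i => u i + q * u1 i, fun i => d i + q * d1 i, ?_, ?_, ?_⟩
    · rw [lp_add, Polynomial.map_add, Polynomial.map_mul, Polynomial.map_C, hqz, hu]
      simp
    · rw [lp_add, Polynomial.map_add, Polynomial.map_mul, Polynomial.map_C, hqz, hd]
      simp
    · obtain ⟨E', hE'⟩ := dvd_of_map (E + C a * N * lp u1 + C b * (2 * lp u * lp u1) +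
        C (2 * e) * lp d * lp d1 + C q * (C b * lp u1 ^ 2 + C e * lp d1 ^ 2)) (by
          simp only [Polynomial.map_add, Polynomial.map_mul, Polynomial.map_pow, Polynomial.map_C,
            hu, hd, hu1, hd1, hqz, hb, C_0, zero_mul, add_zero, Polynomial.map_ofNat]
          linear_combination hsol + (N.map PadicInt.toZMod * m') * hinv)
      refine ⟨E', ?_⟩
      rw [lp_add, lp_add]
      have e2 : C ((p : ℤ_[p]) ^ (n + 1 + 1)) = C q * C (p : ℤ_[p]) := by
        rw [← C_mul, hq, ← pow_succ]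
      have e3 : (C (2 * e) : ℤ_[p][X]) = 2 * C e := by
        rw [C_mul, C_ofNat]
      rw [e2]
      rw [e3] at hE'
      linear_combination hE + C q * hE'

theorem lift (N T : ℤ_[p][X]) (hN : N.natDegree ≤ 3) (hT : T.natDegree ≤ 6)
    (a b : ℤ_[p]) (e : ℤ_[p])
    (u0 d0 : (ZMod p)[X]) (hu0 : u0.natDegree ≤ 3) (hd0 : d0.natDegree ≤ 3)
    (hP : (N.map PadicInt.toZMod).Monic) (h3 : (N.map PadicInt.toZMod).natDegree = 3)
    (ha : PadicInt.toZMod a ≠ 0) (hb : PadicInt.toZMod b = 0)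
    (hcop : IsCoprime (N.map PadicInt.toZMod) (C (PadicInt.toZMod (2 * e)) * d0))
    (h0 : C (PadicInt.toZMod a) * (N.map PadicInt.toZMod) * u0 + C (PadicInt.toZMod e) * d0 ^ 2 =
      T.map PadicInt.toZMod) :
    ∃ u d : ℤ_[p][X], u.natDegree ≤ 3 ∧ d.natDegree ≤ 3 ∧
      C a * N * u + C b * u ^ 2 + C e * d ^ 2 = T := by
  have happ := approx N T hN hT a b e u0 d0 hu0 hd0 hP h3 ha hb hcop h0
  set G : (Fin 4 → ℤ_[p]) × (Fin 4 → ℤ_[p]) → ℤ_[p][X] := fun v =>
    C a * N * lp v.1 + C b * lp v.1 ^ 2 + C e * lp v.2 ^ 2 - T with hG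
  set S : ℕ → Set ((Fin 4 → ℤ_[p]) × (Fin 4 → ℤ_[p])) := fun n =>
    {v | ∀ k, ‖(G v).coeff k‖ ≤ ((p : ℝ)⁻¹) ^ (n + 1)} with hS
  have hp1 : (1 : ℝ) < p := by exact_mod_cast (Fact.out : p.Prime).one_lt
  have hclosed : ∀ n, IsClosed (S n) := by
    intro n
    have hSn : S n = ⋂ k : ℕ, {v : (Fin 4 → ℤ_[p]) × (Fin 4 → ℤ_[p]) |
        ‖(G v).coeff k‖ ≤ ((p : ℝ)⁻¹) ^ (n + 1)} := by
      ext v
      simp only [hS, Set.mem_iInter]
      rfl
    rw [hSn]
    refine isClosed_iInter fun k => isClosed_le (continuous_norm.comp ?_) continuous_const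
    have e1 : ∀ v : (Fin 4 → ℤ_[p]) × (Fin 4 → ℤ_[p]), (G v).coeff k =
        a * ∑ x ∈ Finset.HasAntidiagonal.antidiagonal k, N.coeff x.1 * (lp v.1).coeff x.2 +
        b * ∑ x ∈ Finset.HasAntidiagonal.antidiagonal k, (lp v.1).coeff x.1 * (lp v.1).coeff x.2 +
        e * ∑ x ∈ Finset.HasAntidiagonal.antidiagonal k, (lp v.2).coeff x.1 * (lp v.2).coeff x.2 -
        T.coeff k := by
      intro v
      simp only [hG]
      rw [coeff_sub, coeff_add, coeff_add, mul_assoc, coeff_C_mul, coeff_C_mul, coeff_C_mul, sq, sq,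
        coeff_mul, coeff_mul, coeff_mul]
    simp only [e1]
    refine (((continuous_const.mul (continuous_finsetSum _ fun x _ => ?_)).add
      (continuous_const.mul (continuous_finsetSum _ fun x _ => ?_))).add
      (continuous_const.mul (continuous_finsetSum _ fun x _ => ?_))).sub continuous_const
    · exact continuous_const.mul ((lp_cont x.2).comp continuous_fst)
    · exact ((lp_cont x.1).comp continuous_fst).mul ((lp_cont x.2).comp continuous_fst)
    · exact ((lp_cont x.1).comp continuous_snd).mul ((lp_cont x.2).comp continuous_snd)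
  have hne : (⋂ n, S n).Nonempty := by
    apply IsCompact.nonempty_iInter_of_sequence_nonempty_isCompact_isClosed
    · intro n v hv k
      refine (hv k).trans ?_
      apply pow_le_pow_of_le_one (by positivity) (inv_le_one_of_one_le₀ hp1.le)
      omega
    · intro n
      obtain ⟨u, d, _, _, E, hE⟩ := happ n
      refine ⟨(u, d), fun k => ?_⟩
      simp only [hG]
      rw [hE, coeff_C_mul, norm_mul, norm_pow, PadicInt.norm_p]
      calc ((p : ℝ)⁻¹) ^ (n + 1) * ‖E.coeff k‖ ≤ ((p : ℝ)⁻¹) ^ (n + 1) * 1 :=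
            mul_le_mul_of_nonneg_left (PadicInt.norm_le_one _) (by positivity)
        _ = _ := mul_one _
    · exact (hclosed 0).isCompact
    · exact hclosed
  obtain ⟨v, hv⟩ := hne
  refine ⟨lp v.1, lp v.2, lp_deg _, lp_deg _, ?_⟩
  have hzero : G v = 0 := by
    ext k
    rw [coeff_zero]
    have hk : ∀ n : ℕ, ‖(G v).coeff k‖ ≤ ((p : ℝ)⁻¹) ^ (n + 1) :=
      fun n => Set.mem_iInter.mp hv n k
    have ht : Filter.Tendsto (fun n : ℕ => ((p : ℝ)⁻¹) ^ (n + 1)) Filter.atTop (nhds 0) := by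
      have := tendsto_pow_atTop_nhds_zero_of_lt_one (r := (p : ℝ)⁻¹) (by positivity)
        (inv_lt_one_of_one_lt₀ hp1)
      exact this.comp (Filter.tendsto_add_atTop_nat 1)
    have h5 : ‖(G v).coeff k‖ ≤ 0 := ge_of_tendsto' ht hk
    exact norm_le_zero_iff.mp h5
  simp only [hG] at hzero
  linear_combination hzero

end

theorem c14 : (14 : ZMod 5) ≠ 0 := by decide

theorem c35 : (35 : ZMod 5) = 0 := by decide

end Q5L

/-- On the line `z = 0`, `F = 7 (c ^ 2 - 10 d ^ 2)` with cubic polynomials over `ℤ_5`.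

PROOF. Put `P = ![1,0,0]`, `Q = ![0,1,0]`,
`N = X^3 - 3 X - 1`, `T = 9 X^6 - 90 X^5 + 450 X^4 - 1080 X^3 + 1575 X^2 - 1152 X + 369`,
`F = - sextic (pvec P Q) = 7 N^2 + 10 T
 = 97 X^6 - 900 X^5 + 4458 X^4 - 10814 X^3 + 15813 X^2 - 11478 X + 3697` (`sextic_expand`).
Look for `c = N + 5 u`, `deg u ≤ 3`, `deg d ≤ 3`: `7 c^2 - 70 d^2 = F` is equivalent to
(E) `14 N u + 35 u^2 - 14 d^2 = 2 T` (divide `7 * (10 N u + 25 u^2) - 70 d^2 = 10 T` by 5).
Modulo 5 a solution is `d0 = X^2 + 3 X`, `u0 = 2 X^3 + 2 X + 3`: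
`14 N u0 - 14 d0^2 = 2 T` in `(ZMod 5)[X]` (check: `2 N u0 - 2 d0^2 = T` modulo 5, where
`N = X^3 + 2 X + 4`, `T = 4 X^6 + 3 X + 4`).
The linearization of the left side of (E) at a solution `(u, d)` with reduction `(u0, d0)` is, modulo 5,
`14 N δu - 28 d0 δd`, and `N` is monic of degree 3 and coprime to `28 d0` (N has no root modulo 5, so it
is irreducible; `d0` has degree 2, or give a Bezout identity). So `Lift3.solve` (Lift3.lean:
`P` monic of degree 3, `IsCoprime P g`, `deg g ≤ 3`, `deg E ≤ 6` ⇒ `g * c + P * d = E` with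
`deg c, deg d ≤ 3`) gives Newton steps exactly as in `Lift3.approx`, and the compactness argument
of `lift_cubic` (same file) gives the exact solution. Copy `Lift3.approx` and `lift_cubic` with the new
equation: `lp`, `lp_deg`, `lp_cont`, `lp_add`, `lp_lift`, `dvd_of_map` can be used as they are. -/
theorem q5_lift [Fact (Nat.Prime 5)] : ∃ c d : ℤ_[5][X], c.natDegree ≤ 3 ∧ d.natDegree ≤ 3 ∧
    7 * (c ^ 2 - 10 * d ^ 2) =
      - sextic (pvec (![1, 0, 0] : Fin 3 → ℤ_[5]) (![0, 1, 0] : Fin 3 → ℤ_[5])) := by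
  have h5 : (5 : (ZMod 5)[X]) = 0 := by
    rw [← C_ofNat 5]
    have : (OfNat.ofNat 5 : ZMod 5) = 0 := by
      have := ZMod.natCast_self 5
      exact_mod_cast this
    rw [this, C_0]
  have hN5 : ((X ^ 3 - 3 * X - 1 : ℤ_[5][X]).map PadicInt.toZMod) = X ^ 3 - 3 * X - 1 := by
    simp
  have hT5 : ((2 * (9 * X ^ 6 - 90 * X ^ 5 + 450 * X ^ 4 - 1080 * X ^ 3 + 1575 * X ^ 2 -
      1152 * X + 369) : ℤ_[5][X]).map PadicInt.toZMod) = 2 * (9 * X ^ 6 - 90 * X ^ 5 +
      450 * X ^ 4 - 1080 * X ^ 3 + 1575 * X ^ 2 - 1152 * X + 369) := by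
    simp
  obtain ⟨u, d, hu, hd, h⟩ := Q5L.lift (p := 5) (X ^ 3 - 3 * X - 1)
    (2 * (9 * X ^ 6 - 90 * X ^ 5 + 450 * X ^ 4 - 1080 * X ^ 3 + 1575 * X ^ 2 - 1152 * X + 369))
    (by compute_degree) (by compute_degree) 14 35 (-14) (2 * X ^ 3 + 2 * X + 3) (X ^ 2 + 3 * X)
    (by compute_degree) (by compute_degree!)
    (by rw [hN5]; monicity!)
    (by rw [hN5]; compute_degree!)
    (by rw [map_ofNat]; exact Q5L.c14)
    (by rw [map_ofNat]; exact Q5L.c35)
    (by
      rw [hN5, map_mul, map_neg, map_ofNat, map_ofNat, C_mul, C_neg, C_ofNat, C_ofNat]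
      refine ⟨X + 4, 2 * X ^ 2 + 2 * X + 3, ?_⟩
      linear_combination (X ^ 4 + 4 * X ^ 3 + 3 * X ^ 2 + X - 1 -
        6 * (2 * X ^ 2 + 2 * X + 3) * (X ^ 2 + 3 * X)) * h5)
    (by
      rw [hN5, hT5, map_neg, map_ofNat, C_neg, C_ofNat]
      linear_combination (2 * X ^ 6 + 36 * X ^ 5 - 194 * X ^ 4 + 418 * X ^ 3 - 672 * X ^ 2 +
        430 * X - 156) * h5)
  refine ⟨X ^ 3 - 3 * X - 1 + 5 * u, d, ?_, hd, ?_⟩
  · refine (natDegree_add_le _ _).trans (max_le (by compute_degree) ?_)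
    rw [← C_ofNat 5]
    exact (natDegree_C_mul_le _ _).trans hu
  · rw [C_neg, C_ofNat, C_ofNat] at h
    rw [sextic_expand]
    simp only [pvec, Matrix.cons_val_zero, Matrix.cons_val_one, Matrix.cons_val, map_one, map_zero]
    linear_combination 5 * h

end Pool.Agent.Work.MP_2dff99_ag.F5
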