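import Pool.Agent.Work.MP_2dff99_ag.F5.Q5Def
import Pool.Agent.Work.MP_2dff99_ag.F5.NT
import Pool.Agent.Work.MP_2dff99_ag.F5.PointD

open Polynomial

namespace Pool.Agent.Work.MP_2dff99_ag.F5

namespace Q5R

/-- the value of a binary cubic form -/
def cv {K : Type*} [CommRing K] (a : Fin 4 → K) (x y : K) : K :=
  a 0 * x ^ 3 + a 1 * x ^ 2 * y + a 2 * x * y ^ 2 + a 3 * y ^ 3

/-- the substitution `(x, y) ↦ (x, ε x + y)` -/
def sh {K : Type*} [CommRing K] (ε : K) (a : Fin 4 → K) : Fin 4 → K :=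
  ![a 0 + ε * a 1 + ε ^ 2 * a 2 + ε ^ 3 * a 3, a 1 + 2 * ε * a 2 + 3 * ε ^ 2 * a 3,
    a 2 + 3 * ε * a 3, a 3]

theorem cv_sh {K : Type*} [CommRing K] (ε : K) (a : Fin 4 → K) (x y : K) :
    cv (sh ε a) x y = cv a x (ε * x + y) := by
  simp [cv, sh]
  ring

/-- the substitution `(x, y) ↦ (α x + β y, δ y)` -/
def tr {K : Type*} [CommRing K] (α β δ : K) (a : Fin 4 → K) : Fin 4 → K :=
  ![a 0 * α ^ 3, 3 * a 0 * α ^ 2 * β + a 1 * α ^ 2 * δ,
    3 * a 0 * α * β ^ 2 + 2 * a 1 * α * β * δ + a 2 * α * δ ^ 2,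
    a 0 * β ^ 3 + a 1 * β ^ 2 * δ + a 2 * β * δ ^ 2 + a 3 * δ ^ 3]

theorem cv_tr {K : Type*} [CommRing K] (α β δ : K) (a : Fin 4 → K) (x y : K) :
    cv (tr α β δ a) x y = cv a (α * x + β * y) (δ * y) := by
  simp [cv, tr]
  ring

theorem cv_zero {K : Type*} [Field K] (h2 : (2 : K) ≠ 0) (a : Fin 4 → K)
    (h0 : cv a 1 0 = 0) (h1 : cv a 0 1 = 0) (h3 : cv a 1 1 = 0) (h4 : cv a 1 (-1) = 0) :
    ∀ i, a i = 0 := by
  simp only [cv] at h0 h1 h3 h4
  have e0 : a 0 = 0 := by linear_combination h0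
  have e3 : a 3 = 0 := by linear_combination h1
  have e2 : 2 * a 2 = 0 := by linear_combination h3 + h4 - 2 * e0
  have e2' : a 2 = 0 := (mul_eq_zero.1 e2).resolve_left h2
  have e1 : a 1 = 0 := by linear_combination h3 - e0 - e2' - e3
  intro i
  fin_cases i
  · exact e0
  · exact e1
  · exact e2'
  · exact e3

theorem two5 : (2 : ZMod 5) ≠ 0 := by decide

variable [Fact (Nat.Prime 5)]

/-- the conclusion -/
def Concl : Prop :=
    ∃ (P Q : Fin 3 → ℤ_[5]) (c : ℤ_[5][X]) (A B : ℚ_[5][X]),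
      LinearIndependent (ZMod 5)
        ![fun i => PadicInt.toZMod (P i), fun i => PadicInt.toZMod (Q i)] ∧
      c.Monic ∧ c.natDegree = 3 ∧
      (- sextic (pvec P Q)).map PadicInt.Coe.ringHom = A ^ 2 + c.map PadicInt.Coe.ringHom * B

theorem eval_pvec {K : Type*} [CommRing K] (P Q : Fin 3 → K) (x : K) :
    (sextic (pvec P Q)).eval x = sextic (fun i => x * P i + 1 * Q i) := by
  rw [← Polynomial.coe_evalRingHom, sextic_map]
  congr 1
  funext i
  simp [pvec]
  ring

theorem s4 (P Q : Fin 3 → ℤ_[5]) (hind : LinearIndependent (ZMod 5)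
      ![fun i => PadicInt.toZMod (P i), fun i => PadicInt.toZMod (Q i)])
    (c : Fin 4 → ℤ_[5]) (a d : Fin 4 → ℚ_[5]) (hu : PadicInt.toZMod (c 0) ≠ 0)
    (h : ∀ x y : ℚ_[5], cv a x y ^ 2 + cv (fun i => (c i : ℚ_[5])) x y * cv d x y =
      - sextic (fun i => x * (P i : ℚ_[5]) + y * (Q i : ℚ_[5]))) : Concl := by
  have hunit : IsUnit (c 0) := by
    rw [PadicInt.isUnit_iff]
    by_contra hne
    have h1 : ‖c 0‖ < 1 := lt_of_le_of_ne (PadicInt.norm_le_one _) hne
    rw [PadicInt.norm_lt_one_iff_dvd] at h1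
    apply hu
    obtain ⟨y, hy⟩ := h1
    have h5 : ((5 : ℕ) : ZMod 5) = 0 := ZMod.natCast_self 5
    rw [hy, map_mul, map_natCast, h5, zero_mul]
  obtain ⟨u, hu'⟩ := hunit
  set v : ℤ_[5] := ((u⁻¹ : ℤ_[5]ˣ) : ℤ_[5]) with hv
  have huv : v * c 0 = 1 := by rw [hv, ← hu']; exact Units.inv_mul u
  refine ⟨P, Q, X ^ 3 + (C (v * c 1) * X ^ 2 + C (v * c 2) * X + C (v * c 3)),
    C (a 0) * X ^ 3 + C (a 1) * X ^ 2 + C (a 2) * X + C (a 3),
    C (c 0 : ℚ_[5]) * (C (d 0) * X ^ 3 + C (d 1) * X ^ 2 + C (d 2) * X + C (d 3)), hind, ?_, ?_, ?_⟩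
  · monicity!
  · compute_degree!
  · apply Polynomial.funext
    intro x
    rw [Polynomial.map_neg, sextic_pvec_map, Polynomial.eval_neg, eval_pvec]
    have h1 := h x 1
    have h2 : (v : ℚ_[5]) * (c 0 : ℚ_[5]) = 1 := by
      have := congrArg (fun z : ℤ_[5] => (z : ℚ_[5])) huv
      simpa using this
    have h3 : - sextic (fun i => x * (PadicInt.Coe.ringHom (P i) : ℚ_[5]) +
        1 * (PadicInt.Coe.ringHom (Q i) : ℚ_[5])) =
        cv a x 1 ^ 2 + cv (fun i => (c i : ℚ_[5])) x 1 * cv d x 1 := h1.symm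
    rw [h3]
    have e1 : ∀ z : ℤ_[5], PadicInt.Coe.ringHom z = (z : ℚ_[5]) := fun z => rfl
    simp only [cv, Polynomial.eval_add, Polynomial.eval_mul, Polynomial.eval_pow,
      Polynomial.eval_C, Polynomial.eval_X, Polynomial.map_add, Polynomial.map_mul,
      Polynomial.map_pow, Polynomial.map_C, Polynomial.map_X, e1, PadicInt.coe_mul]
    linear_combination (-(c 1 * x ^ 2 + c 2 * x + c 3 : ℚ_[5]) *
      (d 0 * x ^ 3 + d 1 * x ^ 2 + d 2 * x + d 3)) * h2

theorem ind_symm (P Q : Fin 3 → ZMod 5) (h : LinearIndependent (ZMod 5) ![P, Q]) :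
    LinearIndependent (ZMod 5) ![Q, P] := by
  rw [LinearIndependent.pair_iff] at h ⊢
  intro s t hst
  have := h t s (by rw [add_comm]; exact hst)
  exact ⟨this.2, this.1⟩

theorem ind_sh (P Q : Fin 3 → ZMod 5) (ε : ZMod 5) (h : LinearIndependent (ZMod 5) ![P, Q]) :
    LinearIndependent (ZMod 5) ![fun i => P i + ε * Q i, Q] := by
  rw [LinearIndependent.pair_iff] at h ⊢
  intro s t hst
  have := h s (s * ε + t) (by
    funext i
    have := congrFun hst i
    simp only [Pi.add_apply, Pi.smul_apply, smul_eq_mul, Pi.zero_apply] at this ⊢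
    linear_combination this)
  refine ⟨this.1, ?_⟩
  have h2 := this.2
  rw [this.1] at h2
  simpa using h2

theorem s3 (P Q : Fin 3 → ℤ_[5]) (hind : LinearIndependent (ZMod 5)
      ![fun i => PadicInt.toZMod (P i), fun i => PadicInt.toZMod (Q i)])
    (c : Fin 4 → ℤ_[5]) (a d : Fin 4 → ℚ_[5]) (hu : ∃ i, PadicInt.toZMod (c i) ≠ 0)
    (h : ∀ x y : ℚ_[5], cv a x y ^ 2 + cv (fun i => (c i : ℚ_[5])) x y * cv d x y =
      - sextic (fun i => x * (P i : ℚ_[5]) + y * (Q i : ℚ_[5]))) : Concl := by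
  have key : ∀ ε : ℤ_[5], cv (fun i => PadicInt.toZMod (c i)) 1 (PadicInt.toZMod ε) ≠ 0 →
      Concl := by
    intro ε hε
    refine s4 (fun i => P i + ε * Q i) Q ?_ (sh ε c) (sh (ε : ℚ_[5]) a) (sh (ε : ℚ_[5]) d) ?_ ?_
    · simp only [map_add, map_mul]
      exact ind_sh _ _ _ hind
    · intro h0
      apply hε
      rw [← h0]
      simp [cv, sh]
      ring
    · intro x y
      have e1 : (fun i => ((sh ε c i : ℤ_[5]) : ℚ_[5])) = sh (ε : ℚ_[5]) (fun i => (c i : ℚ_[5])) := by
        have e2 : ((2 : ℤ_[5]) : ℚ_[5]) = 2 := rfl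
        have e3 : ((3 : ℤ_[5]) : ℚ_[5]) = 3 := rfl
        funext i
        fin_cases i <;> simp [sh, e2, e3]
      rw [e1, cv_sh, cv_sh, cv_sh, h x (ε * x + y)]
      congr 2
      funext i
      simp only [PadicInt.coe_add, PadicInt.coe_mul]
      ring
  by_cases h1 : cv (fun i => PadicInt.toZMod (c i)) 1 0 = 0
  · by_cases h3 : cv (fun i => PadicInt.toZMod (c i)) 1 1 = 0
    · by_cases h4 : cv (fun i => PadicInt.toZMod (c i)) 1 (-1) = 0
      · by_cases h2 : cv (fun i => PadicInt.toZMod (c i)) 0 1 = 0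
        · exfalso
          obtain ⟨i, hi⟩ := hu
          exact hi (cv_zero two5 _ h1 h2 h3 h4 i)
        · refine s4 Q P (ind_symm _ _ hind) ![c 3, c 2, c 1, c 0] ![a 3, a 2, a 1, a 0]
            ![d 3, d 2, d 1, d 0] ?_ ?_
          · intro h0
            apply h2
            simp only [Matrix.cons_val_zero] at h0
            simp [cv, h0]
          · intro x y
            have := h y x
            rw [show (fun i => x * (Q i : ℚ_[5]) + y * (P i : ℚ_[5])) =
              (fun i => y * (P i : ℚ_[5]) + x * (Q i : ℚ_[5])) from by funext i; ring, ← this]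
            simp [cv]
            ring
      · exact key (-1) (by simpa using h4)
    · exact key 1 (by simpa using h3)
  · exact key 0 (by simpa using h1)

theorem s2 (P Q : Fin 3 → ℤ_[5]) (hind : LinearIndependent (ZMod 5)
      ![fun i => PadicInt.toZMod (P i), fun i => PadicInt.toZMod (Q i)])
    (a c d : Fin 4 → ℚ_[5]) (hc : c ≠ 0)
    (h : ∀ x y : ℚ_[5], cv a x y ^ 2 + cv c x y * cv d x y =
      - sextic (fun i => x * (P i : ℚ_[5]) + y * (Q i : ℚ_[5]))) : Concl := by
  obtain ⟨m, hm⟩ := Finite.exists_max (fun n => ‖c n‖)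
  have hm0 : c m ≠ 0 := by
    intro h0
    apply hc
    funext n
    have := hm n
    rw [h0, norm_zero] at this
    exact norm_le_zero_iff.mp this
  have hint : ∀ n, ‖c n / c m‖ ≤ 1 := by
    intro n
    rw [norm_div, div_le_one (norm_pos_iff.mpr hm0)]
    exact hm n
  set C' : Fin 4 → ℤ_[5] := fun n => ⟨c n / c m, hint n⟩ with hC'
  refine s3 P Q hind C' a (fun n => c m * d n) ⟨m, ?_⟩ ?_
  · have h1 : C' m = 1 := by
      apply Subtype.ext
      simp only [hC']
      rw [div_self hm0]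
      rfl
    rw [h1, map_one]
    exact one_ne_zero
  · intro x y
    rw [← h x y]
    have e1 : ∀ n, ((C' n : ℤ_[5]) : ℚ_[5]) = c n / c m := fun n => rfl
    simp only [cv, e1]
    field_simp

end Q5R

/-- A datum over `ℚ_5` gives a point, or a monic cubic polynomial over `ℤ_5` modulo which `F` is a
square.

PROOF. Write `F(s,t) = - sextic (lineVec D.P D.Q)` (`R2 ℚ_[5] = MvPolynomial (Fin 2) ℚ_[5]`), `D.rel`:
`D.fa ^ 2 + D.fc * D.fd = F`. First, `D.fc ≠ 0`: otherwise `F = D.fa ^ 2`, `not_square` (NT.lean).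
Case e = 1 (`D.he : D.e ≤ 1`): `D.fc = form 1 a` by `exists_form` (HomZ.lean), so
`fc = a0 s + a1 t`, not both 0; evaluate `D.rel` at `(s,t) = (-a1, a0)`: `fc` vanishes there, so with
`v i = -a1 P i + a0 Q i` (`≠ 0` by independence) `- sextic v = (eval ![-a1, a0] D.fa)^2`
(`eval_sextic_line`). First alternative.
Case e = 0. `D.fc = form 3 a`, `a ≠ 0`.
Step 1 (normalize the line, copy the start of `split_generic` in Val.lean): `i` with `‖P i‖` maximal,
`Q1 n = Q n - Q i * (P n / P i)`, `j` with `‖Q1 j‖` maximal, `P' n = P n / P i`,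
`Q' n = Q1 n / Q1 j`: integral, `P' i = 1, Q' i = 0, Q' j = 1`, `P' = α P`, `Q' = β P + γ Q`,
`α, γ ≠ 0`.
Step 2. For `(x, y)` in `{(1,0), (0,1), (1,1), (1,-1)}` consider the value
`g(x,y) := eval ![α x + β y, γ y] D.fc` (the form `fc` at the point `x P' + y Q'`). The binary cubic
form `fc' (x, y) = b0 x^3 + b1 x^2 y + b2 x y^2 + b3 y^3` so obtained is not 0. Let `μ` be its
coefficient of maximal norm; dividing by `μ` we get an integral form with a unit coefficient. Its
reduction modulo 5 is nonzero, so it does not vanish at all four points (b0 = 0, b3 = 0, b1 + b2 = 0,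
-b1 + b2 = 0 and 2 ≠ 0 modulo 5). So there is a base change `P'' = x P' + y Q'`, `Q'' in {P', Q'}` (take
`Q'' = Q'` if `x = 1` and `Q'' = P'` if `(x,y) = (0,1)`), unimodular over `ℤ_5`, such that the cubic
form at `s P'' + t Q''` has as coefficient of `s^3` one of maximal norm. `P'', Q''` are integral with
independent reductions modulo 5.
Step 3 (dehomogenize). `P'' X + Q'' = l1(X) P + l2(X) Q` with `l1, l2` polynomials of degree ≤ 1 over
`ℚ_5`. Apply the ring homomorphism `φ = MvPolynomial.aeval ![l1, l2] : R2 ℚ_[5] → ℚ_[5][X]` to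
`D.rel`: `φ F = - sextic (pvec P'' Q'')` (`sextic_map`, over ℚ_5; it is the image of the integral one by
`sextic_pvec_map`). `φ D.fc` has degree 3, leading coefficient `λ` of maximal norm, so
`C λ⁻¹ * φ D.fc` is the image of a monic `c : ℤ_[5][X]` of degree 3 (`Polynomial.lifts` or build it from
the four coefficients). Put `A = φ D.fa`, `B = C λ * φ D.fd`. -/
theorem q5_reduce [Fact (Nat.Prime 5)] (D : Datum ℚ_[5]) :
    (∃ (v : Fin 3 → ℚ_[5]) (r : ℚ_[5]), v ≠ 0 ∧ - sextic v = r ^ 2) ∨
    ∃ (P Q : Fin 3 → ℤ_[5]) (c : ℤ_[5][X]) (A B : ℚ_[5][X]),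
      LinearIndependent (ZMod 5)
        ![fun i => PadicInt.toZMod (P i), fun i => PadicInt.toZMod (Q i)] ∧
      c.Monic ∧ c.natDegree = 3 ∧
      (- sextic (pvec P Q)).map PadicInt.Coe.ringHom = A ^ 2 + c.map PadicInt.Coe.ringHom * B := by
  have ind := D.ind
  have hfc : D.fc ≠ 0 := by
    intro h0
    have hrel := D.rel
    rw [h0, zero_mul, add_zero] at hrel
    exact not_square ℚ_[5] D.P D.Q ind D.fa hrel.symm
  have hrel : ∀ s t : ℚ_[5], (MvPolynomial.eval ![s, t] D.fa) ^ 2 +
      MvPolynomial.eval ![s, t] D.fc * MvPolynomial.eval ![s, t] D.fd =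
      - sextic (fun i => s * D.P i + t * D.Q i) := by
    intro s t
    have := congrArg (MvPolynomial.eval ![s, t]) D.rel
    rw [map_add, map_pow, map_mul, map_neg, eval_sextic_line] at this
    exact this
  rw [LinearIndependent.pair_iff] at ind
  rcases Nat.lt_or_ge D.e 1 with he | he
  · -- cubic forms
    right
    have he0 : D.e = 0 := by omega
    have hc3 : HomZ D.fc ((3 : ℕ) : ℤ) := by
      have := D.hc
      rw [he0] at this
      simpa using this
    have hd3 : HomZ D.fd ((3 : ℕ) : ℤ) := by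
      have := D.hd
      rw [he0] at this
      simpa using this
    obtain ⟨a, ha⟩ := exists_form (n := 3) (by exact_mod_cast D.ha)
    obtain ⟨c, hc⟩ := exists_form hc3
    obtain ⟨d, hd⟩ := exists_form hd3
    have hform : ∀ (b : ℕ → ℚ_[5]) (s t : ℚ_[5]), MvPolynomial.eval ![s, t] (form 3 b) =
        Q5R.cv (fun i : Fin 4 => b i) s t := by
      intro b s t
      rw [eval_form]
      simp only [Finset.sum_range_succ, Finset.sum_range_zero]
      simp [Q5R.cv]
    rw [ha, hc, hd] at hrel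
    simp only [hform] at hrel
    have hc0 : (fun i : Fin 4 => c i) ≠ 0 := by
      intro h0
      apply hfc
      rw [hc, form_congr (b := fun _ => 0)]
      · simp [form]
      · intro i hi
        exact congrFun h0 ⟨i, by omega⟩
    -- normalize the line
    obtain ⟨i, hi⟩ := Finite.exists_max (fun n => ‖D.P n‖)
    have hPi : D.P i ≠ 0 := by
      intro h0
      have hP : ∀ n, D.P n = 0 := by
        intro n
        have := hi n
        rw [h0, norm_zero] at this
        exact norm_le_zero_iff.mp this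
      have := ind 1 0 (by funext n; simp [hP n])
      exact one_ne_zero this.1
    set Q1 : Fin 3 → ℚ_[5] := fun n => D.Q n - D.Q i * (D.P n / D.P i) with hQ1
    obtain ⟨j, hj⟩ := Finite.exists_max (fun n => ‖Q1 n‖)
    have hQ1j : Q1 j ≠ 0 := by
      intro h0
      have hQ : ∀ n, Q1 n = 0 := by
        intro n
        have := hj n
        rw [h0, norm_zero] at this
        exact norm_le_zero_iff.mp this
      have := ind (-(D.Q i / D.P i)) 1 (by
        funext n
        have h := hQ n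
        simp only [hQ1] at h
        simp only [Pi.add_apply, Pi.smul_apply, smul_eq_mul, Pi.zero_apply]
        linear_combination h)
      exact one_ne_zero this.2
    have hPn : ∀ n, ‖D.P n / D.P i‖ ≤ 1 := by
      intro n
      rw [norm_div, div_le_one (norm_pos_iff.mpr hPi)]
      exact hi n
    have hQn : ∀ n, ‖Q1 n / Q1 j‖ ≤ 1 := by
      intro n
      rw [norm_div, div_le_one (norm_pos_iff.mpr hQ1j)]
      exact hj n
    set P' : Fin 3 → ℤ_[5] := fun n => ⟨D.P n / D.P i, hPn n⟩ with hP'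
    set Q' : Fin 3 → ℤ_[5] := fun n => ⟨Q1 n / Q1 j, hQn n⟩ with hQ'
    have hPi' : P' i = 1 := by
      apply Subtype.ext
      simp only [hP']
      rw [div_self hPi]
      rfl
    have hQi' : Q' i = 0 := by
      apply Subtype.ext
      simp only [hQ', hQ1]
      rw [div_self hPi]
      simp
    have hQj' : Q' j = 1 := by
      apply Subtype.ext
      simp only [hQ']
      rw [div_self hQ1j]
      rfl
    set α := 1 / D.P i with hα
    set β := -(D.Q i / (D.P i * Q1 j)) with hβ
    set δ := 1 / Q1 j with hδ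
    have hα0 : α ≠ 0 := one_div_ne_zero hPi
    have hδ0 : δ ≠ 0 := one_div_ne_zero hQ1j
    refine Q5R.s2 P' Q' ?_ (Q5R.tr α β δ (fun i : Fin 4 => a i))
      (Q5R.tr α β δ (fun i : Fin 4 => c i)) (Q5R.tr α β δ (fun i : Fin 4 => d i)) ?_ ?_
    · rw [LinearIndependent.pair_iff]
      intro s t hst
      have g1 := congrFun hst i
      have g2 := congrFun hst j
      simp only [Pi.add_apply, Pi.smul_apply, smul_eq_mul, Pi.zero_apply, hPi', hQi', map_one,
        map_zero, mul_one, mul_zero, add_zero] at g1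
      rw [g1] at g2
      simp only [Pi.add_apply, Pi.smul_apply, smul_eq_mul, Pi.zero_apply, hQj', map_one,
        mul_one, zero_mul, zero_add] at g2
      exact ⟨g1, g2⟩
    · intro h0
      apply hc0
      have hval : ∀ s t : ℚ_[5], Q5R.cv (fun i : Fin 4 => c i) s t = 0 := by
        intro s t
        have h1 := Q5R.cv_tr α β δ (fun i : Fin 4 => c i) ((s - β * (t / δ)) / α) (t / δ)
        rw [h0] at h1
        have e1 : α * ((s - β * (t / δ)) / α) + β * (t / δ) = s := by
          field_simp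
          ring
        have e2 : δ * (t / δ) = t := by field_simp
        rw [e1, e2] at h1
        rw [← h1]
        simp [Q5R.cv]
      funext i
      exact Q5R.cv_zero (by norm_num) _ (hval _ _) (hval _ _) (hval _ _) (hval _ _) i
    · intro x y
      rw [Q5R.cv_tr, Q5R.cv_tr, Q5R.cv_tr, hrel]
      congr 2
      funext n
      have e1 : ((P' n : ℤ_[5]) : ℚ_[5]) = D.P n / D.P i := rfl
      have e2 : ((Q' n : ℤ_[5]) : ℚ_[5]) = Q1 n / Q1 j := rfl
      rw [e1, e2]
      have e3 : Q1 n / Q1 j = β * D.P n + δ * D.Q n := by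
        simp only [hβ, hδ]
        have e4 : Q1 n = D.Q n - D.Q i * (D.P n / D.P i) := rfl
        rw [e4]
        field_simp
        ring
      rw [e3, hα]
      ring
  · -- a linear form
    left
    have he1 : D.e = 1 := le_antisymm D.he he
    have hc1 : HomZ D.fc ((1 : ℕ) : ℤ) := by
      have := D.hc
      rw [he1] at this
      norm_num at this
      simpa using this
    obtain ⟨c, hc⟩ := exists_form hc1
    refine ⟨fun i => -c 1 * D.P i + c 0 * D.Q i, MvPolynomial.eval ![-c 1, c 0] D.fa, ?_, ?_⟩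
    · intro h0
      apply hfc
      have := ind (-c 1) (c 0) (by
        funext n
        have := congrFun h0 n
        simpa using this)
      rw [hc]
      simp [form, Finset.sum_range_succ, this.2, neg_eq_zero.1 this.1]
    · have h1 := hrel (-c 1) (c 0)
      have h2 : MvPolynomial.eval ![-c 1, c 0] D.fc = 0 := by
        rw [hc, eval_form]
        simp [Finset.sum_range_succ]
        ring
      rw [h2, zero_mul, add_zero] at h1
      exact h1.symm

end Pool.Agent.Work.MP_2dff99_ag.F5
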