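import Pool.Agent.Work.MP_2dff99_ag.F5.LocG

namespace Pool.Agent.Work.MP_2dff99_ag.F5

namespace LocOdd

def cands : List (ℕ × ℕ) := [(0, 1), (1, 0), (1, 1), (1, 2), (2, 1), (1, 3), (3, 1), (1, 4), (2, 3), (4, 1), (3, 2), (1, 5), (2, 5), (5, 1), (1, 6), (3, 4), (4, 3), (5, 2), (6, 1), (1, 7), (3, 5), (5, 3), (7, 1)]

theorem maskOk7 : LocG.MaskOk (7 ^ 1) (7 ^ 1) 22 := by
  have key : ∀ r < 7 ^ 1, (22 : ℕ).testBit r = true →
      ∃ w < 7, (w * w) % 7 ^ 1 = r ∧ ¬ 7 ^ 1 ∣ 2 * w := by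
    decide +kernel
  intro r hr h
  obtain ⟨w, -, h1, h2⟩ := key r hr h
  exact ⟨w, h1, h2⟩

theorem check7 : LocG.chk (7 ^ 1) 22 cands = true := by
  decide +kernel

theorem maskOk19 : LocG.MaskOk (19 ^ 1) (19 ^ 1) 199410 := by
  have key : ∀ r < 19 ^ 1, (199410 : ℕ).testBit r = true →
      ∃ w < 19, (w * w) % 19 ^ 1 = r ∧ ¬ 19 ^ 1 ∣ 2 * w := by
    decide +kernel
  intro r hr h
  obtain ⟨w, -, h1, h2⟩ := key r hr h
  exact ⟨w, h1, h2⟩

theorem check19 : LocG.chk (19 ^ 1) 199410 cands = true := by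
  decide +kernel

theorem maskOk43 : LocG.MaskOk (43 ^ 1) (43 ^ 1) 3678700564050 := by
  have key : ∀ r < 43 ^ 1, (3678700564050 : ℕ).testBit r = true →
      ∃ w < 43, (w * w) % 43 ^ 1 = r ∧ ¬ 43 ^ 1 ∣ 2 * w := by
    decide +kernel
  intro r hr h
  obtain ⟨w, -, h1, h2⟩ := key r hr h
  exact ⟨w, h1, h2⟩

theorem check43 : LocG.chk (43 ^ 1) 3678700564050 cands = true := by
  decide +kernel

end LocOdd

/-- for `p = 7, 19, 43` every line over `ℚ_p` contains a point at which `- sextic` is a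
nonzero square -/
theorem loc_point_odd (p : ℕ) [Fact p.Prime] (hp : p = 7 ∨ p = 19 ∨ p = 43)
    (P Q : Fin 3 → ℚ_[p]) (ind : LinearIndependent ℚ_[p] ![P, Q]) :
    ∃ s t r : ℚ_[p], r ≠ 0 ∧ - sextic (fun i => s * P i + t * Q i) = r ^ 2 := by
  rcases hp with rfl | rfl | rfl
  · exact LocG.loc_general 7 1 1 (by norm_num) _ _ LocOdd.maskOk7 LocOdd.check7 P Q ind
  · exact LocG.loc_general 19 1 1 (by norm_num) _ _ LocOdd.maskOk19 LocOdd.check19 P Q ind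
  · exact LocG.loc_general 43 1 1 (by norm_num) _ _ LocOdd.maskOk43 LocOdd.check43 P Q ind

end Pool.Agent.Work.MP_2dff99_ag.F5
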