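import Pool.Agent.Work.MP_2dff99_ag.F5.Val
import Pool.Agent.Work.MP_2dff99_ag.F5.Loc2
import Pool.Agent.Work.MP_2dff99_ag.F5.Loc3
import Pool.Agent.Work.MP_2dff99_ag.F5.LocOdd

open MvPolynomial

namespace Pool.Agent.Work.MP_2dff99_ag.F5

theorem split_of_point (L : Type) [Field L]
    (h : ∀ P Q : Fin 3 → L, LinearIndependent L ![P, Q] →
      ∃ s t r : L, r ≠ 0 ∧ - sextic (fun i => s * P i + t * Q i) = r ^ 2) : SplitProp L := by
  intro P Q ind β _ hβ
  obtain ⟨s, t, r, hr, h1⟩ := h P Q ind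
  refine ⟨cub s t, r, by rw [hβ, h1], fun h0 => ?_⟩
  have h2 := hβ s t
  rw [h0, h1, dotProduct_zero] at h2
  exact hr ((pow_eq_zero_iff two_ne_zero).mp h2.symm)

theorem split_all (p : ℕ) [Fact p.Prime] (h5 : p ≠ 5) : SplitProp ℚ_[p] := by
  by_cases h2 : p = 2
  · subst h2; exact split_of_point _ loc_point_two
  by_cases h3 : p = 3
  · subst h3; exact split_of_point _ loc_point_three
  by_cases h : p = 7 ∨ p = 19 ∨ p = 43
  · exact split_of_point _ (loc_point_odd p h)
  push Not at h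
  exact split_generic p h2 h3 h5 h.1 h.2.1 h.2.2

theorem split_real : SplitProp ℝ := by
  refine split_of_point _ fun P Q ind => ?_
  have hP : P ≠ 0 := by
    have := ind.ne_zero 0
    simpa using this
  have h := sextic_pos P hP
  refine ⟨1, 0, Real.sqrt (- sextic P), (Real.sqrt_pos.2 h).ne', ?_⟩
  rw [Real.sq_sqrt h.le]
  congr 2
  funext i
  simp

end Pool.Agent.Work.MP_2dff99_ag.F5
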