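import Pool.Agent.Work.MP_2dff99_ag.F5.HomZ
import Pool.Agent.Work.MP_2dff99_ag.F5.Grd

open MvPolynomial

namespace Pool.Agent.Work.MP_2dff99_ag.F5

namespace Hilb

/-- a sequence of natural numbers that is eventually nonincreasing is eventually constant -/
theorem ev_const (c : ℤ → ℤ) (hc : ∀ n, 0 ≤ c n) (B : ℤ) (h : ∀ n, B ≤ n → c (n + 1) ≤ c n) :
    ∃ (a : ℤ) (B' : ℤ), ∀ n, B' ≤ n → c n = a := by
  have hanti : Antitone (fun j : ℕ => c (B + j)) := by
    refine antitone_nat_of_succ_le fun j => ?_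
    have := h (B + j) (by omega)
    have e : B + ((j + 1 : ℕ) : ℤ) = B + j + 1 := by push_cast; ring
    rw [e]
    exact this
  obtain ⟨a, ⟨j0, hj0⟩, hmin⟩ := Int.exists_least_of_bdd (P := fun a => ∃ j : ℕ, c (B + j) = a)
    ⟨0, fun z ⟨j, hj⟩ => hj ▸ hc _⟩ ⟨c (B + (0 : ℕ)), 0, rfl⟩
  refine ⟨a, B + j0, fun n hn => ?_⟩
  obtain ⟨j, rfl⟩ : ∃ j : ℕ, n = B + j := ⟨(n - B).toNat, by omega⟩
  refine le_antisymm ?_ (hmin _ ⟨j, rfl⟩)
  rw [← hj0]
  exact hanti (by omega)

theorem ev_linear (h : ℤ → ℤ) (a B : ℤ) (hh : ∀ n, B ≤ n → h (n + 1) - h n = a) :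
    ∃ b : ℤ, ∀ n, B ≤ n → h n = a * n + b := by
  refine ⟨h B - a * B, fun n hn => ?_⟩
  obtain ⟨j, rfl⟩ : ∃ j : ℕ, n = B + j := ⟨(n - B).toNat, by omega⟩
  clear hn
  induction j with
  | zero => simp
  | succ j ih =>
    have := hh (B + j) (by omega)
    have e : B + ((j + 1 : ℕ) : ℤ) = B + j + 1 := by push_cast; ring
    rw [e]
    linear_combination ih + this

end Hilb

/-- the Hilbert function of a finitely generated graded `k[s, t]`-module is eventually linear -/
theorem hilb_two {k M : Type} [Field k] [AddCommGroup M] [Module k M] [Module (R2 k) M]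
    [IsScalarTower k (R2 k) M] [Module.Finite (R2 k) M] (gr : ℤ → Submodule k M)
    (hint : DirectSum.IsInternal gr)
    (hX : ∀ (i : Fin 2) (n : ℤ) (m : M), m ∈ gr n → (X i : R2 k) • m ∈ gr (n + 1)) :
    ∃ a b : ℤ, ∀ᶠ n : ℤ in Filter.atTop, (Module.finrank k (gr n) : ℤ) = a * n + b := by
  obtain ⟨π, hπ⟩ := Grd.exists_comp gr hint
  -- the whole module
  obtain ⟨hfin, ⟨B1, hB1⟩, -⟩ := Grd.gen gr π hπ hX ⊤ Module.Finite.fg_top (fun _ _ _ => trivial)
  have hfin' : ∀ n, FiniteDimensional k (gr n) := by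
    intro n
    have := hfin n
    rw [Submodule.restrictScalars_top, top_inf_eq] at this
    exact this
  have hmul : ∀ (i : Fin 2) (n : ℤ), (gr n).map (Grd.mulX k M i) ≤ gr (n + 1) := by
    intro i n
    rintro _ ⟨m, hm, rfl⟩
    exact hX i n m hm
  set s : M →ₗ[k] M := Grd.mulX k M 0 with hs
  set t : M →ₗ[k] M := Grd.mulX k M 1 with ht
  -- the kernel of `s`
  have hnoeth : IsNoetherian (R2 k) M := isNoetherian_of_isNoetherianRing_of_finite (R2 k) M
  have hKfg : (LinearMap.ker (LinearMap.lsmul (R2 k) M (X 0))).FG := IsNoetherian.noetherian _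
  have hK : ∀ m : M, m ∈ LinearMap.ker (LinearMap.lsmul (R2 k) M (X 0)) ↔
      (X 0 : R2 k) • m = 0 := by
    intro m
    rw [LinearMap.mem_ker, LinearMap.lsmul_apply]
  obtain ⟨-, ⟨B2, hB2⟩, -⟩ := Grd.gen gr π hπ hX _ hKfg (by
    intro n m hm
    rw [hK] at hm ⊢
    rw [← hπ.X_smul hX, hm, map_zero])
  have hfinI : ∀ n, FiniteDimensional k (gr n ⊓ LinearMap.ker s : Submodule k M) := by
    intro n
    have := hfin' n
    exact Submodule.finiteDimensional_of_le (S₂ := gr n) inf_le_left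
  set κ : ℤ → ℤ := fun n => (Module.finrank k (gr n ⊓ LinearMap.ker s : Submodule k M) : ℤ)
    with hκ
  set h : ℤ → ℤ := fun n => (Module.finrank k (gr n) : ℤ) with hh
  have c1 : ∀ n, (Module.finrank k ((gr n).map s) : ℤ) + κ n = h n := by
    intro n
    have := hfin' n
    have := Grd.finrank_map_add s (gr n)
    simp only [hκ, hh]
    exact_mod_cast this
  have c2 : ∀ n, B2 ≤ n → κ (n + 1) ≤ κ n := by
    intro n hn
    have hle : (gr (n + 1) ⊓ LinearMap.ker s : Submodule k M) ≤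
        (gr n ⊓ LinearMap.ker s : Submodule k M).map t := by
      rintro m ⟨hm1, hm2⟩
      obtain ⟨a, b, ha, ha', hb, hb', hab⟩ := hB2 n hn m ((hK m).2 hm2) hm1
      refine ⟨b, ⟨hb', (hK b).1 hb⟩, ?_⟩
      rw [(hK a).1 ha, zero_add] at hab
      exact hab.symm
    have := hfinI n
    have h1 := Submodule.finrank_mono hle
    have h2 := Submodule.finrank_map_le t (gr n ⊓ LinearMap.ker s : Submodule k M)
    simp only [hκ]
    exact_mod_cast h1.trans h2
  set σ : ℤ → ℤ := fun n => (Module.finrank k ((gr n).map s) : ℤ) with hσ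
  set c : ℤ → ℤ := fun n => h n - σ (n - 1) with hc
  have c3 : ∀ n, 0 ≤ c n := by
    intro n
    have h1 := hmul 0 (n - 1)
    rw [sub_add_cancel] at h1
    have := hfin' n
    have h2 := Submodule.finrank_mono h1
    simp only [hc, hh, hσ]
    have : (Module.finrank k ((gr (n - 1)).map s) : ℤ) ≤ Module.finrank k (gr n) := by
      exact_mod_cast h2
    linarith
  have c4 : ∀ n, B1 ≤ n → c (n + 1) ≤ c n := by
    intro n hn
    have f0 := hfin' n
    have f1 := hfin' (n + 1)
    have f2 := hfin' (n - 1)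
    have e1 : gr (n + 1) = (gr n).map s ⊔ (gr n).map t := by
      refine le_antisymm ?_ (sup_le (hmul 0 n) (hmul 1 n))
      intro m hm
      obtain ⟨a, b, -, ha, -, hb, rfl⟩ := hB1 n hn m trivial hm
      exact Submodule.add_mem_sup ⟨a, ha, rfl⟩ ⟨b, hb, rfl⟩
    have e2 := Submodule.finrank_sup_add_finrank_inf_eq ((gr n).map s) ((gr n).map t)
    rw [← e1] at e2
    have e3 : ((gr (n - 1)).map s).map t ≤ (gr n).map s ⊓ (gr n).map t := by
      rintro _ ⟨_, ⟨m, hm, rfl⟩, rfl⟩
      refine ⟨⟨t m, ?_, ?_⟩, ⟨s m, ?_, rfl⟩⟩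
      · have := hX 1 _ _ hm
        rwa [sub_add_cancel] at this
      · exact smul_comm _ _ _
      · have := hX 0 _ _ hm
        rwa [sub_add_cancel] at this
    have e4 := Submodule.finrank_mono e3
    have e5 := Grd.finrank_map_add t (gr n)
    have e6 := Grd.finrank_map_add t ((gr (n - 1)).map s)
    have e7 : ((gr (n - 1)).map s) ⊓ LinearMap.ker t ≤ gr n ⊓ LinearMap.ker t := by
      refine inf_le_inf_right _ ?_
      have := hmul 0 (n - 1)
      rwa [sub_add_cancel] at this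
    have : FiniteDimensional k (gr n ⊓ LinearMap.ker t : Submodule k M) :=
      Submodule.finiteDimensional_of_le (S₂ := gr n) inf_le_left
    have e8 := Submodule.finrank_mono e7
    simp only [hc, add_sub_cancel_right]
    simp only [hh, hσ]
    omega
  obtain ⟨a1, B3, ha1⟩ := Hilb.ev_const κ (fun n => by simp only [hκ]; positivity) B2 c2
  obtain ⟨a2, B4, ha2⟩ := Hilb.ev_const c c3 B1 c4
  obtain ⟨b, hb⟩ := Hilb.ev_linear h (a2 - a1) (max B3 B4) (by
    intro n hn
    have h1 := ha1 n (le_trans (le_max_left _ _) hn)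
    have h2 := ha2 (n + 1) (by have := le_max_right B3 B4; omega)
    have h3 := c1 n
    simp only [hc, add_sub_cancel_right] at h2
    simp only [hσ] at h2
    linarith)
  refine ⟨a2 - a1, b, ?_⟩
  filter_upwards [Filter.eventually_ge_atTop (max B3 B4)] with n hn
  exact hb n hn

end Pool.Agent.Work.MP_2dff99_ag.F5
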