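import Pool.Agent.Work.MP_2dff99_ag.F5.Smooth
import Pool.Agent.Work.MP_2dff99_ag.F5.Split
import Pool.Agent.Work.MP_2dff99_ag.F5.ExistP
import Pool.Agent.Work.MP_2dff99_ag.F5.Stab
import Pool.Agent.Work.MP_2dff99_ag.F5.Line
import Pool.Agent.Work.MP_2dff99_ag.F5.Gal11
import Pool.Agent.Work.MP_2dff99_ag.F5.Gal02
import Pool.Agent.Work.MP_2dff99_ag.F5.BaseChg
import Pool.Agent.Work.MP_2dff99_ag.F5.DescClass
import Pool.Agent.Work.MP_2dff99_ag.F5.Q5A
import Pool.Agent.Work.MP_2dff99_ag.F5.Q5B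
import Pool.Agent.Work.MP_2dff99_ag.F5.Q5R
import Pool.Agent.Work.MP_2dff99_ag.F5.Q5L
import Pool.Agent.Work.MP_2dff99_ag.F5.Q5D
import Pool.Agent.Work.MP_2dff99_ag.F5.Cub

open MvPolynomial

namespace Pool.Agent.Work.MP_2dff99_ag.F5

instance (L : Type) [Field L] [CharZero L] : CharZero (AlgebraicClosure L) :=
  charZero_of_injective_algebraMap (algebraMap L (AlgebraicClosure L)).injective

/-- a datum over `L` gives an `L`-point at which the Brauer class vanishes -/
theorem descPoint_of_datum (L : Type) [Field L] [CharZero L] (D : Datum L) :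
    ∃ x : RatPoint L, x.Descends := by
  have h1 : HomZ (1 : R2 (AlgebraicClosure L)) 0 := by
    have := homZ_C (k := AlgebraicClosure L) 1
    rwa [map_one] at this
  refine ⟨⟨(D.map (algebraMap L (AlgebraicClosure L))).sheaf, model_ofClass _,
    stable_datum _ _, fun σ => ?_⟩, D.sheaf, baseChange_datum D⟩
  refine twist_of_matrix _ _ σ.bijective (fun i => σ.commutes _) (fun i => σ.commutes _) 1
    ⟨by simp, ?_, ?_, ?_, ?_⟩ ?_
  · simpa using h1
  · simpa using homZ_zero _
  · simpa using homZ_zero _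
  · simpa using h1
  · rw [mul_one, one_mul, phi_map]
    ext i j
    congr 1
    simp only [Matrix.map_apply, MvPolynomial.map_map]
    congr 2
    ext a
    exact (σ.commutes a).symm

theorem descends_of_split (L : Type) [Field L] [CharZero L] (hs : SplitProp L)
    (x : RatPoint L) : x.Descends := by
  obtain ⟨c, hc, hk⟩ := line_rational L x.S x.ofClass x.galois
  obtain ⟨P, Q, ind, hP, hQ⟩ := exists_perp L c hc
  have hc' : (fun i => algebraMap L (AlgebraicClosure L) (c i)) ≠ 0 := by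
    intro h
    apply hc
    ext i
    have := congrFun h i
    simpa using this
  obtain ⟨D, hDP, hDQ, hD⟩ := normal_form (AlgebraicClosure L) x.S x.ofClass.2 _ hc' hk
    (fun i => algebraMap L _ (P i)) (fun i => algebraMap L _ (Q i))
    (ind_map (algebraMap L (AlgebraicClosure L)) P Q ind)
    (by simpa using congrArg (algebraMap L (AlgebraicClosure L)) hP)
    (by simpa using congrArg (algebraMap L (AlgebraicClosure L)) hQ)
  have hg : ∀ σ : AlgebraicClosure L ≃ₐ[L] AlgebraicClosure L,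
      ∃ G : Matrix (Fin 2) (Fin 2) (R2 (AlgebraicClosure L)), GoodMat D.e G ∧
      D.phi * G = G * D.phi.map
        (MvPolynomial.map (σ : AlgebraicClosure L →+* AlgebraicClosure L)) := fun σ =>
    matrix_of_twist D _ σ.bijective (fun i => by rw [hDP]; exact σ.commutes _)
      (fun i => by rw [hDQ]; exact σ.commutes _) (hD.twist _ (x.galois σ))
  obtain ⟨D0, h0P, h0Q, h0e, H, hH, hHc⟩ : ∃ D0 : Datum L, D0.P = P ∧ D0.Q = Q ∧ D0.e = D.e ∧
      ∃ H : Matrix (Fin 2) (Fin 2) (R2 (AlgebraicClosure L)), GoodMat D.e H ∧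
      H * D.phi = (D0.map (algebraMap L (AlgebraicClosure L))).phi * H := by
    have he := D.he
    rcases Nat.lt_or_ge D.e 1 with h | h
    · exact gal11 L hs D (by omega) P Q hDP hDQ hg
    · exact gal02 L D (by omega) P Q hDP hDQ hg
  have hiso : D.sheaf.Iso (D0.map (algebraMap L (AlgebraicClosure L))).sheaf :=
    iso_of_matrix D _ (by rw [hDP]; simp [Datum.map, h0P]) (by rw [hDQ]; simp [Datum.map, h0Q])
      (by simp [Datum.map, h0e]) H hH hHc
  exact ⟨D0.sheaf, (hD.trans hiso).symm.baseChange (baseChange_datum D0)⟩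

theorem real_point : Nonempty (RatPoint ℝ) := by
  obtain ⟨D⟩ := datum_of_point ℝ ![1, 0, 0] (by
    intro h
    have := congrFun h 0
    simp at this) (Real.sqrt (- sextic ![1, 0, 0])) (by
    rw [Real.sq_sqrt]
    rw [sextic_expand]
    simp)
  obtain ⟨x, -⟩ := descPoint_of_datum ℝ D
  exact ⟨x⟩

theorem no_datum_five [Fact (Nat.Prime 5)] (D : Datum ℚ_[5]) : False := by
  rcases q5_reduce D with ⟨v, r, hv, h⟩ | ⟨P, Q, c, A, B, ind, hc, h3, h⟩
  · exact no_point_five v hv r h
  · exact q5_poly P Q ind c hc h3 A B h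

theorem five_not_descends [Fact (Nat.Prime 5)] (x : RatPoint ℚ_[5]) : ¬ x.Descends := by
  rintro ⟨T, hT⟩
  obtain ⟨⟨c, hc, hk⟩, hdim⟩ := ofClass_of_baseChange T x.S hT x.ofClass
  obtain ⟨P, Q, ind, hP, hQ⟩ := exists_perp ℚ_[5] c hc
  obtain ⟨D, -, -, -⟩ := normal_form ℚ_[5] T hdim c hc hk P Q ind hP hQ
  exact no_datum_five D

theorem five_point [Fact (Nat.Prime 5)] : Nonempty (RatPoint ℚ_[5]) := by
  obtain ⟨c, d, hc, hd, h⟩ := q5_lift
  have ind : LinearIndependent ℚ_[5] ![(![1, 0, 0] : Fin 3 → ℚ_[5]), ![0, 1, 0]] :=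
    ExistP.ind_e01 _
  obtain ⟨D, hD⟩ := datum_of_norm ℚ_[5] _ _ ind 10 (c.map PadicInt.Coe.ringHom)
    (d.map PadicInt.Coe.ringHom) (Polynomial.natDegree_map_le.trans hc)
    (Polynomial.natDegree_map_le.trans hd) (by
      intro s
      have h1 := congrArg (fun F => (Polynomial.map PadicInt.Coe.ringHom F).eval s) h
      simp only [Polynomial.map_mul, Polynomial.map_sub, Polynomial.map_pow,
        Polynomial.map_ofNat, Polynomial.map_neg, Polynomial.eval_mul, Polynomial.eval_sub,
        Polynomial.eval_pow, Polynomial.eval_ofNat, Polynomial.eval_neg, sextic_pvec_map] at h1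
      rw [h1, ← Polynomial.coe_evalRingHom, sextic_map]
      congr 2
      funext i
      fin_cases i <;> simp [pvec])
  exact ⟨⟨D.sheaf, model_ofClass _, stable_datum _ _, hD⟩⟩

end Pool.Agent.Work.MP_2dff99_ag.F5
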