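import Pool.Agent.Work.MP_2dff99_ag.F5.Sx

set_option linter.unusedSimpArgs false

namespace Pool.Agent.Work.MP_2dff99_ag.F5

namespace LocG

/-- positive terms of the sextic -/
def posF (x y z : ℕ) : ℕ :=
  900 * x ^ 5 * y + 16158 * x ^ 4 * y * z + 10814 * x ^ 3 * y ^ 3 +
  114906 * x ^ 3 * y * z ^ 2 + 115410 * x ^ 2 * y ^ 3 * z + 407970 * x ^ 2 * y * z ^ 3 +
  11478 * x * y ^ 5 + 408852 * x * y ^ 3 * z ^ 2 + 723180 * x * y * z ^ 4 + 40860 * y ^ 5 * z +
  482414 * y ^ 3 * z ^ 3 + 512058 * y * z ^ 5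

/-- negative terms of the sextic -/
def negF (x y z : ℕ) : ℕ :=
  97 * x ^ 6 + 1884 * x ^ 5 * z + 4458 * x ^ 4 * y ^ 2 + 16128 * x ^ 4 * z ^ 2 +
  62748 * x ^ 3 * y ^ 2 * z + 74570 * x ^ 3 * z ^ 3 + 15813 * x ^ 2 * y ^ 4 +
  331785 * x ^ 2 * y ^ 2 * z ^ 2 + 195501 * x ^ 2 * z ^ 4 + 110658 * x * y ^ 4 * z +
  779484 * x * y ^ 2 * z ^ 3 + 274806 * x * z ^ 5 + 3697 * y ^ 6 + 194808 * y ^ 4 * z ^ 2 +
  686763 * y ^ 2 * z ^ 4 + 161467 * z ^ 6

theorem sextic_nat {R : Type*} [CommRing R] (x y z : ℕ) :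
    sextic ![(x : R), (y : R), (z : R)] = (posF x y z : R) - (negF x y z : R) := by
  rw [sextic_expand]
  simp only [posF, negF, Matrix.cons_val_zero, Matrix.cons_val_one, Matrix.cons_val]
  push_cast
  ring

/-- the test at one point -/
def good (N mask x y z : ℕ) : Bool :=
  mask.testBit ((negF x y z + (N - 1) * posF x y z) % N)

/-- loop -/
def allBelow (f : ℕ → Bool) : ℕ → Bool
  | 0 => true
  | n + 1 => f n && allBelow f n

theorem allBelow_spec (f : ℕ → Bool) (n : ℕ) (h : allBelow f n = true) :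
    ∀ b < n, f b = true := by
  induction n with
  | zero => intro b hb; omega
  | succ n ih =>
    simp only [allBelow, Bool.and_eq_true] at h
    intro b hb
    rcases Nat.lt_succ_iff_lt_or_eq.1 hb with hb | rfl
    · exact ih h.2 b hb
    · exact h.1

/-- the test for all lines -/
def chk (N mask : ℕ) (cands : List (ℕ × ℕ)) : Bool :=
  allBelow (fun b => allBelow (fun c =>
    (cands.any fun t => good N mask (((N - b) * t.1 + (N - c) * t.2) % N) t.1 t.2) &&
    (cands.any fun t => good N mask t.1 (((N - b) * t.1 + (N - c) * t.2) % N) t.2) &&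
    (cands.any fun t => good N mask t.1 t.2 (((N - b) * t.1 + (N - c) * t.2) % N))) N) N

/-- the mask consists of squares of numbers `w` with `¬ M ∣ 2 * w` -/
def MaskOk (N M mask : ℕ) : Prop :=
  ∀ r < N, mask.testBit r = true → ∃ w : ℕ, (w * w) % N = r ∧ ¬ M ∣ 2 * w

theorem good_spec {N M mask x y z : ℕ} (hN : 0 < N) (hm : MaskOk N M mask)
    (h : good N mask x y z = true) :
    ∃ w : ℕ, ¬ M ∣ 2 * w ∧ - sextic ![(x : ZMod N), (y : ZMod N), (z : ZMod N)] = (w : ZMod N) ^ 2 := by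
  obtain ⟨w, hw1, hw2⟩ := hm _ (Nat.mod_lt _ hN) h
  refine ⟨w, hw2, ?_⟩
  have h1 : ((w * w : ℕ) : ZMod N) = ((negF x y z + (N - 1) * posF x y z : ℕ) : ZMod N) := by
    rw [ZMod.natCast_eq_natCast_iff]
    change (w * w) % N = _
    rw [hw1]
  have h2 : ((N - 1 : ℕ) : ZMod N) = -1 := by
    rw [Nat.cast_sub hN]
    simp
  push_cast at h1
  rw [h2] at h1
  rw [sextic_nat, pow_two, h1]
  ring

theorem cands_spec {N M mask : ℕ} {cands : List (ℕ × ℕ)} (hN : 0 < N) (hm : MaskOk N M mask)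
    (h : chk N mask cands = true) (b c : ℕ) (hb : b < N) (hc : c < N) :
    (∃ x y z w : ℕ, ¬ M ∣ 2 * w ∧ (x : ZMod N) + b * y + c * z = 0 ∧
      - sextic ![(x : ZMod N), (y : ZMod N), (z : ZMod N)] = (w : ZMod N) ^ 2) ∧
    (∃ x y z w : ℕ, ¬ M ∣ 2 * w ∧ (b : ZMod N) * x + y + c * z = 0 ∧
      - sextic ![(x : ZMod N), (y : ZMod N), (z : ZMod N)] = (w : ZMod N) ^ 2) ∧
    (∃ x y z w : ℕ, ¬ M ∣ 2 * w ∧ (b : ZMod N) * x + c * y + z = 0 ∧
      - sextic ![(x : ZMod N), (y : ZMod N), (z : ZMod N)] = (w : ZMod N) ^ 2) := by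
  have h1 := allBelow_spec _ _ (allBelow_spec _ _ h b hb) c hc
  simp only [Bool.and_eq_true, List.any_eq_true] at h1
  obtain ⟨⟨⟨t, -, ht⟩, ⟨t', -, ht'⟩⟩, ⟨t'', -, ht''⟩⟩ := h1
  have key : ∀ y z : ℕ, ((((N - b) * y + (N - c) * z) % N : ℕ) : ZMod N) =
      - ((b : ZMod N) * y + c * z) := by
    intro y z
    rw [ZMod.natCast_mod]
    push_cast [Nat.cast_sub hb.le, Nat.cast_sub hc.le]
    simp
    ring
  refine ⟨?_, ?_, ?_⟩
  · obtain ⟨w, hw, hw2⟩ := good_spec hN hm ht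
    refine ⟨_, _, _, w, hw, ?_, hw2⟩
    rw [key]; ring
  · obtain ⟨w, hw, hw2⟩ := good_spec hN hm ht'
    refine ⟨_, _, _, w, hw, ?_, hw2⟩
    rw [key]; ring
  · obtain ⟨w, hw, hw2⟩ := good_spec hN hm ht''
    refine ⟨_, _, _, w, hw, ?_, hw2⟩
    rw [key]; ring

theorem hensel_sq (p : ℕ) [Fact p.Prime] (k e : ℕ) (h : 2 * e ≤ k + 1) (u : ℤ_[p]) (w : ℕ)
    (hw : ¬ p ^ e ∣ 2 * w) (hu : (p : ℤ_[p]) ^ k ∣ (w : ℤ_[p]) ^ 2 - u) :
    ∃ r : ℤ_[p], u = r ^ 2 ∧ r ≠ 0 := by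
  have hp1 : (1 : ℝ) < p := by exact_mod_cast (Fact.out : p.Prime).one_lt
  set F : Polynomial ℤ_[p] := Polynomial.X ^ 2 - Polynomial.C u with hF
  have he : ∀ z : ℤ_[p], Polynomial.aeval z F = z ^ 2 - u := by
    intro z
    simp [hF]
  have hd : Polynomial.aeval (w : ℤ_[p]) (Polynomial.derivative F) = ((2 * w : ℤ) : ℤ_[p]) := by
    simp only [hF, Polynomial.derivative_sub, Polynomial.derivative_X_pow,
      Polynomial.derivative_C, map_sub, map_mul, map_pow, Polynomial.aeval_X, Polynomial.aeval_C]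
    simp
  have hn1 : ‖Polynomial.aeval (w : ℤ_[p]) F‖ ≤ (p : ℝ) ^ (-(k : ℤ)) := by
    rw [he, PadicInt.norm_le_pow_iff_mem_span_pow, Ideal.mem_span_singleton]
    exact hu
  have hn2 : (p : ℝ) ^ (-(e : ℤ) + 1) ≤ ‖((2 * w : ℤ) : ℤ_[p])‖ := by
    by_contra hcon
    push Not at hcon
    rw [← PadicInt.norm_le_pow_iff_norm_lt_pow_add_one, PadicInt.norm_int_le_pow_iff_dvd] at hcon
    apply hw
    exact_mod_cast hcon
  have hnorm : ‖Polynomial.aeval (w : ℤ_[p]) F‖ <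
      ‖Polynomial.aeval (w : ℤ_[p]) (Polynomial.derivative F)‖ ^ 2 := by
    rw [hd]
    calc ‖Polynomial.aeval (w : ℤ_[p]) F‖ ≤ (p : ℝ) ^ (-(k : ℤ)) := hn1
      _ < ((p : ℝ) ^ (-(e : ℤ) + 1)) ^ 2 := by
          rw [← zpow_natCast, ← zpow_mul]
          apply zpow_lt_zpow_right₀ hp1
          push_cast
          omega
      _ ≤ _ := by
          apply pow_le_pow_left₀ _ hn2
          positivity
  obtain ⟨r, hr, hr2, -⟩ := hensels_lemma hnorm
  rw [he] at hr
  refine ⟨r, by linear_combination -hr, ?_⟩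
  rintro rfl
  rw [hd, zero_sub, norm_neg] at hr2
  have h3 : ‖((2 * w : ℤ) : ℤ_[p])‖ ≤ ‖(w : ℤ_[p])‖ := by
    push_cast
    rw [norm_mul]
    have := PadicInt.norm_le_one (2 : ℤ_[p])
    nlinarith [norm_nonneg (w : ℤ_[p])]
  linarith

theorem line_form (p : ℕ) [Fact p.Prime] (P Q : Fin 3 → ℚ_[p])
    (ind : LinearIndependent ℚ_[p] ![P, Q]) :
    ∃ b c : ℤ_[p],
      (∀ x y z : ℚ_[p], x + b * y + c * z = 0 →
        ∃ s t : ℚ_[p], (fun i => s * P i + t * Q i) = ![x, y, z]) ∨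
      (∀ x y z : ℚ_[p], b * x + y + c * z = 0 →
        ∃ s t : ℚ_[p], (fun i => s * P i + t * Q i) = ![x, y, z]) ∨
      (∀ x y z : ℚ_[p], b * x + c * y + z = 0 →
        ∃ s t : ℚ_[p], (fun i => s * P i + t * Q i) = ![x, y, z]) := by
  set a : Fin 3 → ℚ_[p] := ![P 1 * Q 2 - P 2 * Q 1, P 2 * Q 0 - P 0 * Q 2, P 0 * Q 1 - P 1 * Q 0]
    with ha
  have ha0 : a ≠ 0 := by
    intro h0
    have h00 : P 1 * Q 2 - P 2 * Q 1 = 0 := by simpa [ha] using congrFun h0 0
    have h01 : P 2 * Q 0 - P 0 * Q 2 = 0 := by simpa [ha] using congrFun h0 1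
    have h02 : P 0 * Q 1 - P 1 * Q 0 = 0 := by simpa [ha] using congrFun h0 2
    rw [LinearIndependent.pair_iff] at ind
    have key : ∀ i, P i = 0 := by
      intro i
      have := ind (Q i) (-P i) (by
        funext j
        fin_cases i <;> fin_cases j <;> simp <;>
          first
            | ring1
            | linear_combination h00
            | linear_combination (-1 : ℚ_[p]) * h00
            | linear_combination h01
            | linear_combination (-1 : ℚ_[p]) * h01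
            | linear_combination h02
            | linear_combination (-1 : ℚ_[p]) * h02)
      have h2 := this.2
      exact neg_eq_zero.1 h2
    have := ind 1 0 (by funext j; simp [key])
    exact one_ne_zero this.1
  obtain ⟨i, hi⟩ := Finite.exists_max (fun j => ‖a j‖)
  have hai : a i ≠ 0 := by
    intro h
    apply ha0
    funext j
    have := hi j
    rw [h, norm_zero] at this
    exact norm_le_zero_iff.1 this
  have hint : ∀ j, ‖a j / a i‖ ≤ 1 := by
    intro j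
    rw [norm_div]
    exact div_le_one_of_le₀ (hi j) (norm_nonneg _)
  fin_cases i
  · refine ⟨⟨a 1 / a 0, hint 1⟩, ⟨a 2 / a 0, hint 2⟩, Or.inl ?_⟩
    intro x y z h
    have hai' : a 0 ≠ 0 := hai
    have h' : a 0 * x + a 1 * y + a 2 * z = 0 := by
      have h2 : x + a 1 / a 0 * y + a 2 / a 0 * z = 0 := h
      field_simp at h2
      linear_combination h2
    simp only [ha, Matrix.cons_val_zero, Matrix.cons_val_one, Matrix.cons_val] at h' hai'
    refine ⟨(y * Q 2 - z * Q 1) / (P 1 * Q 2 - P 2 * Q 1),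
      (P 1 * z - P 2 * y) / (P 1 * Q 2 - P 2 * Q 1), ?_⟩
    funext j
    fin_cases j
    · simp only [Fin.zero_eta, Fin.mk_one, Fin.reduceFinMk, Matrix.cons_val_zero, Matrix.cons_val_one, Matrix.cons_val]
      rw [div_mul_eq_mul_div, div_mul_eq_mul_div, ← add_div, div_eq_iff hai']
      linear_combination (-1 : ℚ_[p]) * h'
    · simp only [Fin.zero_eta, Fin.mk_one, Fin.reduceFinMk, Matrix.cons_val_zero, Matrix.cons_val_one, Matrix.cons_val]
      rw [div_mul_eq_mul_div, div_mul_eq_mul_div, ← add_div, div_eq_iff hai']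
      ring
    · simp only [Fin.zero_eta, Fin.mk_one, Fin.reduceFinMk, Matrix.cons_val_zero, Matrix.cons_val_one, Matrix.cons_val]
      rw [div_mul_eq_mul_div, div_mul_eq_mul_div, ← add_div, div_eq_iff hai']
      ring
  · refine ⟨⟨a 0 / a 1, hint 0⟩, ⟨a 2 / a 1, hint 2⟩, Or.inr (Or.inl ?_)⟩
    intro x y z h
    have hai' : a 1 ≠ 0 := hai
    have h' : a 0 * x + a 1 * y + a 2 * z = 0 := by
      have h2 : a 0 / a 1 * x + y + a 2 / a 1 * z = 0 := h
      field_simp at h2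
      linear_combination h2
    simp only [ha, Matrix.cons_val_zero, Matrix.cons_val_one, Matrix.cons_val] at h' hai'
    refine ⟨(z * Q 0 - x * Q 2) / (P 2 * Q 0 - P 0 * Q 2),
      (P 2 * x - P 0 * z) / (P 2 * Q 0 - P 0 * Q 2), ?_⟩
    funext j
    fin_cases j
    · simp only [Fin.zero_eta, Fin.mk_one, Fin.reduceFinMk, Matrix.cons_val_zero, Matrix.cons_val_one, Matrix.cons_val]
      rw [div_mul_eq_mul_div, div_mul_eq_mul_div, ← add_div, div_eq_iff hai']
      ring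
    · simp only [Fin.zero_eta, Fin.mk_one, Fin.reduceFinMk, Matrix.cons_val_zero, Matrix.cons_val_one, Matrix.cons_val]
      rw [div_mul_eq_mul_div, div_mul_eq_mul_div, ← add_div, div_eq_iff hai']
      linear_combination (-1 : ℚ_[p]) * h'
    · simp only [Fin.zero_eta, Fin.mk_one, Fin.reduceFinMk, Matrix.cons_val_zero, Matrix.cons_val_one, Matrix.cons_val]
      rw [div_mul_eq_mul_div, div_mul_eq_mul_div, ← add_div, div_eq_iff hai']
      ring
  · refine ⟨⟨a 0 / a 2, hint 0⟩, ⟨a 1 / a 2, hint 1⟩, Or.inr (Or.inr ?_)⟩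
    intro x y z h
    have hai' : a 2 ≠ 0 := hai
    have h' : a 0 * x + a 1 * y + a 2 * z = 0 := by
      have h2 : a 0 / a 2 * x + a 1 / a 2 * y + z = 0 := h
      field_simp at h2
      linear_combination h2
    simp only [ha, Matrix.cons_val_zero, Matrix.cons_val_one, Matrix.cons_val] at h' hai'
    refine ⟨(x * Q 1 - y * Q 0) / (P 0 * Q 1 - P 1 * Q 0),
      (P 0 * y - P 1 * x) / (P 0 * Q 1 - P 1 * Q 0), ?_⟩
    funext j
    fin_cases j
    · simp only [Fin.zero_eta, Fin.mk_one, Fin.reduceFinMk, Matrix.cons_val_zero, Matrix.cons_val_one, Matrix.cons_val]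
      rw [div_mul_eq_mul_div, div_mul_eq_mul_div, ← add_div, div_eq_iff hai']
      ring
    · simp only [Fin.zero_eta, Fin.mk_one, Fin.reduceFinMk, Matrix.cons_val_zero, Matrix.cons_val_one, Matrix.cons_val]
      rw [div_mul_eq_mul_div, div_mul_eq_mul_div, ← add_div, div_eq_iff hai']
      ring
    · simp only [Fin.zero_eta, Fin.mk_one, Fin.reduceFinMk, Matrix.cons_val_zero, Matrix.cons_val_one, Matrix.cons_val]
      rw [div_mul_eq_mul_div, div_mul_eq_mul_div, ← add_div, div_eq_iff hai']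
      linear_combination (-1 : ℚ_[p]) * h'

/-- from a point modulo `p ^ k` to a point over `ℚ_p` -/
theorem lift_point (p : ℕ) [Fact p.Prime] (k e : ℕ) (h2 : 2 * e ≤ k + 1)
    (v : Fin 3 → ℤ_[p]) (x y z w : ℕ) (hw : ¬ p ^ e ∣ 2 * w)
    (hv : (fun i => PadicInt.toZModPow (p := p) k (v i)) =
      ![(x : ZMod (p ^ k)), (y : ZMod (p ^ k)), (z : ZMod (p ^ k))])
    (hs : - sextic ![(x : ZMod (p ^ k)), (y : ZMod (p ^ k)), (z : ZMod (p ^ k))] =
      (w : ZMod (p ^ k)) ^ 2) :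
    ∃ r : ℚ_[p], r ≠ 0 ∧ - sextic (fun i => (v i : ℚ_[p])) = r ^ 2 := by
  have h3 : (p : ℤ_[p]) ^ k ∣ (w : ℤ_[p]) ^ 2 - (- sextic v) := by
    rw [← Ideal.mem_span_singleton, ← PadicInt.ker_toZModPow, RingHom.mem_ker, map_sub, map_neg,
      sextic_map, hv, hs]
    simp
  obtain ⟨r, hr, hr0⟩ := hensel_sq p k e h2 _ w hw h3
  refine ⟨(r : ℚ_[p]), by simpa using hr0, ?_⟩
  have h4 := congrArg (PadicInt.Coe.ringHom (p := p)) hr
  rw [map_neg, sextic_map, map_pow] at h4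
  exact h4

theorem loc_general (p : ℕ) [Fact p.Prime] (k e : ℕ) (h2 : 2 * e ≤ k + 1) (mask : ℕ)
    (cands : List (ℕ × ℕ)) (hm : MaskOk (p ^ k) (p ^ e) mask)
    (hchk : chk (p ^ k) mask cands = true)
    (P Q : Fin 3 → ℚ_[p]) (ind : LinearIndependent ℚ_[p] ![P, Q]) :
    ∃ s t r : ℚ_[p], r ≠ 0 ∧ - sextic (fun i => s * P i + t * Q i) = r ^ 2 := by
  have hN : 0 < p ^ k := pow_pos (Fact.out : p.Prime).pos k
  have : NeZero (p ^ k) := ⟨hN.ne'⟩
  obtain ⟨b, c, hbc⟩ := line_form p P Q ind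
  have hb := ZMod.val_lt (PadicInt.toZModPow (p := p) k b)
  have hc := ZMod.val_lt (PadicInt.toZModPow (p := p) k c)
  obtain ⟨h0, h1, h2'⟩ := cands_spec hN hm hchk _ _ hb hc
  simp only [ZMod.natCast_val, ZMod.cast_id', id_eq] at h0 h1 h2'
  rcases hbc with hbc | hbc | hbc
  · obtain ⟨x, y, z, w, hw, hl, hs⟩ := h0
    obtain ⟨r, hr0, hr⟩ := lift_point p k e h2 ![-(b * y + c * z), y, z] x y z w hw (by
      funext j
      fin_cases j
      · simp
        linear_combination (-1 : ZMod (p ^ k)) * hl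
      · simp
      · simp) hs
    obtain ⟨s, t, hst⟩ := hbc (-(b * y + c * z)) y z (by ring)
    refine ⟨s, t, r, hr0, ?_⟩
    rw [hst, ← hr]
    congr 2
    funext j
    fin_cases j <;> simp
  · obtain ⟨x, y, z, w, hw, hl, hs⟩ := h1
    obtain ⟨r, hr0, hr⟩ := lift_point p k e h2 ![(x : ℤ_[p]), -(b * x + c * z), z] x y z w hw (by
      funext j
      fin_cases j
      · simp
      · simp
        linear_combination (-1 : ZMod (p ^ k)) * hl
      · simp) hs
    obtain ⟨s, t, hst⟩ := hbc x (-(b * x + c * z)) z (by ring)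
    refine ⟨s, t, r, hr0, ?_⟩
    rw [hst, ← hr]
    congr 2
    funext j
    fin_cases j <;> simp
  · obtain ⟨x, y, z, w, hw, hl, hs⟩ := h2'
    obtain ⟨r, hr0, hr⟩ := lift_point p k e h2 ![(x : ℤ_[p]), y, -(b * x + c * y)] x y z w hw (by
      funext j
      fin_cases j
      · simp
      · simp
      · simp
        linear_combination (-1 : ZMod (p ^ k)) * hl) hs
    obtain ⟨s, t, hst⟩ := hbc x y (-(b * x + c * y)) (by ring)
    refine ⟨s, t, r, hr0, ?_⟩
    rw [hst, ← hr]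
    congr 2
    funext j
    fin_cases j <;> simp

end LocG

end Pool.Agent.Work.MP_2dff99_ag.F5
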