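import Pool.Agent.Work.MP_2dff99_ag.F5.HomZ

open MvPolynomial

namespace Pool.Agent.Work.MP_2dff99_ag.F5

variable {k : Type} [Field k]

theorem mem_grM (e : ℕ) (n : ℤ) (p : Fin 2 → R2 k) :
    p ∈ grM k e n ↔ HomZ (p 0) (n - (1 - e)) ∧ HomZ (p 1) (n - (1 + e)) := Iff.rfl

namespace MInt

/-- degree of the generators -/
def dd (e : ℕ) : Fin 2 → ℤ := ![1 - e, 1 + e]

theorem mem_grM' (e : ℕ) (n : ℤ) (p : Fin 2 → R2 k) :
    p ∈ grM k e n ↔ ∀ j, HomZ (p j) (n - dd e j) := by
  rw [mem_grM, Fin.forall_fin_two]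
  rfl

theorem single_mem (e : ℕ) (j : Fin 2) (m : Fin 2 →₀ ℕ) (c : k) :
    (Pi.single j (monomial m c) : Fin 2 → R2 k) ∈
      grM k e ((m 0 : ℤ) + (m 1 : ℤ) + dd e j) := by
  rw [mem_grM']
  intro l m' hm'
  by_cases hl : l = j
  · subst hl
    rw [Pi.single_eq_same, coeff_monomial] at hm'
    by_cases h : m = m'
    · subst h; ring
    · rw [if_neg h] at hm'; exact absurd rfl hm'
  · rw [Pi.single_eq_of_ne hl, coeff_zero] at hm'
    exact absurd rfl hm'

theorem iSup_eq_top (e : ℕ) : ⨆ n, grM k e n = ⊤ := by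
  rw [eq_top_iff]
  rintro p -
  have h1 : p = ∑ j : Fin 2, Pi.single j (p j) := by
    funext l
    rw [Finset.sum_apply, Finset.sum_pi_single]
    simp
  have h2 : ∀ j : Fin 2, (Pi.single j (p j) : Fin 2 → R2 k) =
      ∑ m ∈ (p j).support, Pi.single j (monomial m (coeff m (p j))) := by
    intro j
    funext l
    rw [Finset.sum_apply]
    by_cases hl : l = j
    · subst hl
      simp only [Pi.single_eq_same]
      exact (support_sum_monomial_coeff (p l)).symm
    · simp only [Pi.single_eq_of_ne hl, Finset.sum_const_zero]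
  rw [h1]
  refine Submodule.sum_mem _ fun j _ => ?_
  rw [h2]
  exact Submodule.sum_mem _ fun m _ => (le_iSup (grM k e) _) (single_mem e j m _)

theorem inj (e : ℕ) (x : DirectSum ℤ fun n => grM k e n)
    (hx : DirectSum.coeAddMonoidHom (grM k e) x = 0) : x = 0 := by
  classical
  rw [DirectSum.coeAddMonoidHom_eq_dfinsuppSum, DFinsupp.sum] at hx
  have h1 : ∀ (j : Fin 2) (m : Fin 2 →₀ ℕ),
      ∑ n ∈ DFinsupp.support x, coeff m ((x n : Fin 2 → R2 k) j) = 0 := by
    intro j m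
    have h2 := congrArg (coeff m) (congrFun hx j)
    rw [Finset.sum_apply, coeff_sum] at h2
    simpa using h2
  refine DFinsupp.ext fun n => ?_
  refine Subtype.ext ?_
  funext j
  rw [DirectSum.zero_apply, ZeroMemClass.coe_zero, Pi.zero_apply]
  ext m
  rw [coeff_zero]
  by_contra hne
  have hdeg := (mem_grM' e n _).1 (x n).2 j m hne
  have h3 := h1 j m
  rw [Finset.sum_eq_single n] at h3
  · exact hne h3
  · intro n' _ hn'
    by_contra hne'
    have hdeg' := (mem_grM' e n' _).1 (x n').2 j m hne'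
    apply hn'
    linarith
  · intro hn
    rw [DFinsupp.notMem_support_iff.1 hn]
    simp

/-- linear version of `form` -/
noncomputable def formL (n : ℕ) : (Fin (n + 1) → k) →ₗ[k] R2 k where
  toFun u := form n (fun i => if h : i < n + 1 then u ⟨i, h⟩ else 0)
  map_add' u v := by
    rw [form, form, form, ← Finset.sum_add_distrib]
    refine Finset.sum_congr rfl fun i hi => ?_
    have h := Finset.mem_range.1 hi
    simp only [dif_pos h, Pi.add_apply, map_add]
    ring
  map_smul' c u := by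
    rw [form, form, Finset.smul_sum]
    refine Finset.sum_congr rfl fun i hi => ?_
    have h := Finset.mem_range.1 hi
    simp only [dif_pos h, Pi.smul_apply, smul_eq_mul, map_mul, RingHom.id_apply,
      MvPolynomial.smul_eq_C_mul]
    ring

theorem formL_inj (n : ℕ) (u : Fin (n + 1) → k) (h : formL n u = 0) : u = 0 := by
  funext i
  have h0 : form n (fun i => if h : i < n + 1 then u ⟨i, h⟩ else 0) =
      form n (fun _ => (0 : k)) := by
    have : form n (fun _ => (0 : k)) = 0 := by simp [form]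
    rw [this]
    exact h
  have h1 := form_inj h0 i.1 (Nat.lt_succ_iff.1 i.2)
  simpa [Nat.lt_succ_iff.1 i.2] using h1

theorem formL_surj (n : ℕ) (p : R2 k) (hp : HomZ p n) : ∃ u, formL n u = p := by
  obtain ⟨a, ha⟩ := exists_form hp
  refine ⟨fun i => a i, ?_⟩
  rw [ha]
  exact form_congr fun i hi => by simp [Nat.lt_succ_iff.2 hi]

theorem homZ_formL (n : ℕ) (u : Fin (n + 1) → k) : HomZ (formL n u) n := homZ_form n _

end MInt

theorem model_internal (e : ℕ) : DirectSum.IsInternal (grM k e) := by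
  classical
  refine ⟨?_, ?_⟩
  · rw [injective_iff_map_eq_zero]
    exact MInt.inj e
  · intro p
    have h : p ∈ ⨆ n, grM k e n := by
      rw [MInt.iSup_eq_top]; trivial
    rw [Submodule.mem_iSup_iff_exists_dfinsupp'] at h
    obtain ⟨f, hf⟩ := h
    refine ⟨f, ?_⟩
    rw [DirectSum.coeAddMonoidHom_eq_dfinsuppSum]
    exact hf

theorem model_deg1 (D : Datum k) (i : Fin 3) (n : ℤ) (m : Fin 2 → R2 k)
    (h : m ∈ grM k D.e n) : D.rho (X i.castSucc) m ∈ grM k D.e (n + 1) := by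
  rw [rho_X]
  rw [MInt.mem_grM'] at h ⊢
  intro j
  have h1 : HomZ (lineVec D.P D.Q i) 1 := by
    have h2 := homZ_add (homZ_mul (homZ_C (D.P i)) (homZ_X 0)) (homZ_mul (homZ_C (D.Q i)) (homZ_X 1))
    rw [zero_add] at h2
    exact h2
  have h2 := homZ_mul h1 (h j)
  have h3 : 1 + (n - MInt.dd D.e j) = n + 1 - MInt.dd D.e j := by ring
  rw [h3] at h2
  exact h2

theorem model_deg3 (D : Datum k) (n : ℤ) (m : Fin 2 → R2 k)
    (h : m ∈ grM k D.e n) : D.rho (X 3) m ∈ grM k D.e (n + 3) := by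
  rw [rho_X3]
  rw [mem_grM] at h ⊢
  obtain ⟨h0, h1⟩ := h
  refine ⟨?_, ?_⟩
  · have e0 : D.phi.mulVec m 0 = D.fa * m 0 + D.fd * m 1 := by
      simp [Datum.phi, Matrix.mulVec, dotProduct, Fin.sum_univ_two]
    have a1 := homZ_mul D.ha h0
    have a2 := homZ_mul D.hd h1
    rw [e0]
    have e1 : (3 : ℤ) + (n - (1 - (D.e : ℤ))) = n + 3 - (1 - (D.e : ℤ)) := by ring
    have e2 : (3 + 2 * (D.e : ℤ)) + (n - (1 + (D.e : ℤ))) = n + 3 - (1 - (D.e : ℤ)) := by ring
    rw [e1] at a1
    rw [e2] at a2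
    exact homZ_add a1 a2
  · have e0 : D.phi.mulVec m 1 = D.fc * m 0 - D.fa * m 1 := by
      simp [Datum.phi, Matrix.mulVec, dotProduct, Fin.sum_univ_two, sub_eq_add_neg]
    have a1 := homZ_mul D.hc h0
    have a2 := homZ_mul D.ha h1
    rw [e0]
    have e1 : (3 - 2 * (D.e : ℤ)) + (n - (1 - (D.e : ℤ))) = n + 3 - (1 + (D.e : ℤ)) := by ring
    have e2 : (3 : ℤ) + (n - (1 + (D.e : ℤ))) = n + 3 - (1 + (D.e : ℤ)) := by ring
    rw [e1] at a1
    rw [e2] at a2
    exact homZ_sub a1 a2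

/-- the Hilbert function -/
theorem finrank_grM (e : ℕ) (he : e ≤ 1) (n : ℤ) (hn : 2 ≤ n) :
    (Module.finrank k (grM k e n) : ℤ) = 2 * n := by
  obtain ⟨a, ha⟩ := Int.eq_ofNat_of_zero_le (show 0 ≤ n - (1 - (e : ℤ)) by omega)
  obtain ⟨b, hb⟩ := Int.eq_ofNat_of_zero_le (show 0 ≤ n - (1 + (e : ℤ)) by omega)
  let L : ((Fin (a + 1) → k) × (Fin (b + 1) → k)) →ₗ[k] (Fin 2 → R2 k) :=
    LinearMap.pi ![(MInt.formL a).comp (LinearMap.fst k _ _),
      (MInt.formL b).comp (LinearMap.snd k _ _)]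
  have L0 : ∀ x, L x 0 = MInt.formL a x.1 := fun x => rfl
  have L1 : ∀ x, L x 1 = MInt.formL b x.2 := fun x => rfl
  have hinj : Function.Injective L := by
    rw [injective_iff_map_eq_zero]
    intro x hx
    have h0 := MInt.formL_inj a x.1 (by rw [← L0, hx]; rfl)
    have h1 := MInt.formL_inj b x.2 (by rw [← L1, hx]; rfl)
    exact Prod.ext h0 h1
  have hr : LinearMap.range L = grM k e n := by
    ext p
    rw [LinearMap.mem_range, mem_grM, ha, hb]
    constructor
    · rintro ⟨x, rfl⟩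
      exact ⟨by rw [L0]; exact MInt.homZ_formL a _, by rw [L1]; exact MInt.homZ_formL b _⟩
    · rintro ⟨h0, h1⟩
      obtain ⟨u, hu⟩ := MInt.formL_surj a (p 0) h0
      obtain ⟨v, hv⟩ := MInt.formL_surj b (p 1) h1
      refine ⟨(u, v), ?_⟩
      funext j
      fin_cases j
      · exact hu
      · exact hv
  rw [← hr, LinearMap.finrank_range_of_inj hinj]
  simp only [Module.finrank_prod, Module.finrank_fintype_fun_eq_card, Fintype.card_fin]
  push_cast
  omega

end Pool.Agent.Work.MP_2dff99_ag.F5
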