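import Pool.Agent.Work.MP_2dff99_ag.F5.Q5F
import Pool.Agent.Work.MP_2dff99_ag.FFb
import Pool.Agent.Work.MP_2dff99_ag.Lift3

open Polynomial

namespace Pool.Agent.Work.MP_2dff99_ag.F5

namespace Q5B

theorem nsq5 : ∀ a n : ZMod 5, n ≠ 0 → a ^ 2 ≠ 2 ^ 3 * n ^ 2 := by decide

theorem two5 : (2 : ZMod 5) ≠ 0 := by decide

theorem ten5 : (10 : ZMod 5) = 0 := by decide

theorem sev5 : (7 : ZMod 5) = 2 := by decide

theorem thr5 : (35 : ZMod 5) = 0 := by decide

theorem M_C {K : Type*} [Field K] (H : K[X]) (a : K) : FFb.M H (C a) = a ^ H.natDegree := by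
  unfold FFb.M
  rw [natDegree_C, resultant_zero_right_deg, coeff_C_zero]

theorem M_ne_zero {K : Type*} [Field K] (H r : K[X]) (hH : H.Monic) (h : IsCoprime H r) :
    FFb.M H r ≠ 0 := by
  obtain ⟨u, v, huv⟩ := h
  have h1 : FFb.M H (v * r + H * u) = 1 := by
    rw [show v * r + H * u = 1 from by rw [← huv]; ring]
    exact FFb.M_one H
  rw [FFb.M_add H _ _ hH, FFb.M_mul H _ _ hH] at h1
  intro h0
  rw [h0, mul_zero] at h1
  exact zero_ne_one h1

variable [Fact (Nat.Prime 5)]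

/-- the resultant with a monic polynomial over `ℤ_5` -/
noncomputable def R (c g : ℤ_[5][X]) : ℤ_[5] := resultant c g c.natDegree g.natDegree

theorem R_map {K : Type*} [Field K] (φ : ℤ_[5] →+* K) (c g : ℤ_[5][X]) (hc : c.Monic) :
    φ (R c g) = FFb.M (c.map φ) (g.map φ) := by
  unfold R
  rw [← resultant_map_map, ← hc.natDegree_map φ]
  exact FFb.M_eq _ _ (hc.map φ) _ natDegree_map_le

theorem dvd_of_zmod (x : ℤ_[5]) (h : PadicInt.toZMod x = 0) : (5 : ℤ_[5]) ∣ x := by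
  have h3 : x ∈ RingHom.ker (PadicInt.toZMod : ℤ_[5] →+* ZMod 5) := h
  rw [PadicInt.ker_toZMod, PadicInt.maximalIdeal_eq_span_p, Ideal.mem_span_singleton] at h3
  exact_mod_cast h3

theorem core (F N T c : ℤ_[5][X]) (hFNT : F = 10 * T + 7 * N ^ 2)
    (hN3 : (N.map (PadicInt.toZMod (p := 5))).natDegree = 3)
    (hNirr : Irreducible (N.map (PadicInt.toZMod (p := 5))))
    (hNT : IsCoprime (N.map (PadicInt.toZMod (p := 5))) (T.map (PadicInt.toZMod (p := 5))))
    (hc : c.Monic) (h3 : c.natDegree = 3) (A B : ℚ_[5][X])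
    (h : F.map (PadicInt.Coe.ringHom (p := 5)) =
      A ^ 2 + c.map (PadicInt.Coe.ringHom (p := 5)) * B) : False := by
  have hinj : Function.Injective (PadicInt.Coe.ringHom (p := 5)) := Subtype.val_injective
  have hcI : (c.map (PadicInt.Coe.ringHom (p := 5))).Monic := hc.map (PadicInt.Coe.ringHom (p := 5))
  have hcK : (c.map (PadicInt.toZMod (p := 5))).Monic := hc.map (PadicInt.toZMod (p := 5))
  -- step 0
  obtain ⟨s, hs⟩ : ∃ s : ℤ_[5], Q5B.R c F = s ^ 2 := by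
    have h1 : (PadicInt.Coe.ringHom (p := 5)) (Q5B.R c F) = (FFb.M (c.map (PadicInt.Coe.ringHom (p := 5))) A) ^ 2 := by
      rw [Q5B.R_map (PadicInt.Coe.ringHom (p := 5)) c F hc, h, FFb.M_add _ _ _ hcI, pow_two, FFb.M_mul _ _ _ hcI, pow_two]
    have h2 : ‖FFb.M (c.map (PadicInt.Coe.ringHom (p := 5))) A‖ ≤ 1 := by
      have h3 : ‖(PadicInt.Coe.ringHom (p := 5)) (Q5B.R c F)‖ ≤ 1 := (Q5B.R c F).2
      rw [h1, norm_pow] at h3
      exact (sq_le_one_iff₀ (norm_nonneg _)).1 h3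
    refine ⟨⟨FFb.M (c.map (PadicInt.Coe.ringHom (p := 5))) A, h2⟩, ?_⟩
    apply hinj
    change (PadicInt.Coe.ringHom (p := 5)) (Q5B.R c F) = _
    rw [h1, map_pow]
    rfl
  by_cases hcop : IsCoprime (N.map (PadicInt.toZMod (p := 5))) (c.map (PadicInt.toZMod (p := 5)))
  · -- case 1
    have hF5 : F.map (PadicInt.toZMod (p := 5)) = C 2 * (N.map (PadicInt.toZMod (p := 5)) * N.map (PadicInt.toZMod (p := 5))) := by
      rw [hFNT]
      simp only [Polynomial.map_add, Polynomial.map_mul, Polynomial.map_pow, Polynomial.map_ofNat]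
      have e1 : (10 : (ZMod 5)[X]) = 0 := by
        rw [← C_ofNat 10, show (OfNat.ofNat 10 : ZMod 5) = 0 from Q5B.ten5, C_0]
      have e2 : (7 : (ZMod 5)[X]) = C 2 := by
        rw [← C_ofNat 7, show (OfNat.ofNat 7 : ZMod 5) = 2 from Q5B.sev5]
      rw [e1, e2]
      ring
    have h1 : (PadicInt.toZMod (p := 5)) (Q5B.R c F) = 2 ^ 3 * (FFb.M (c.map (PadicInt.toZMod (p := 5))) (N.map (PadicInt.toZMod (p := 5)))) ^ 2 := by
      rw [Q5B.R_map (PadicInt.toZMod (p := 5)) c F hc, hF5, FFb.M_mul _ _ _ hcK, FFb.M_mul _ _ _ hcK, Q5B.M_C,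
        hc.natDegree_map, h3]
      ring
    rw [hs, map_pow] at h1
    exact Q5B.nsq5 _ _ (Q5B.M_ne_zero _ _ hcK hcop.symm) h1
  · -- case 2
    rw [hNirr.coprime_iff_not_dvd, not_not] at hcop
    obtain ⟨q, hq⟩ := hcop
    have hq0 : q ≠ 0 := by
      rintro rfl
      rw [mul_zero] at hq
      exact hcK.ne_zero hq
    have hqd : q.natDegree = 0 := by
      have := congrArg natDegree hq
      rw [hc.natDegree_map, h3, natDegree_mul hNirr.ne_zero hq0, hN3] at this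
      omega
    rw [natDegree_eq_zero] at hqd
    obtain ⟨b, rfl⟩ := hqd
    have hb : b ≠ 0 := by
      rintro rfl
      exact hq0 C_0
    obtain ⟨ν, hν⟩ := ZMod.ringHom_surjective (PadicInt.toZMod (p := 5)) (b⁻¹)
    have hcN : IsCoprime (c.map (PadicInt.toZMod (p := 5))) (T.map (PadicInt.toZMod (p := 5))) := by
      rw [hq]
      exact (isCoprime_mul_unit_right_left (isUnit_C.2 (isUnit_iff_ne_zero.2 hb)) _ _).2 hNT
    obtain ⟨n, hn⟩ := Lift3.dvd_of_map (p := 5) (C ν * c - N) (by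
      change (C ν * c - N).map (PadicInt.toZMod (p := 5)) = 0
      rw [Polynomial.map_sub, Polynomial.map_mul, Polynomial.map_C, hν, hq, sub_eq_zero]
      rw [mul_comm (N.map (PadicInt.toZMod (p := 5))), ← mul_assoc, ← C_mul, inv_mul_cancel₀ hb, C_1, one_mul])
    have h5C : (C ((5 : ℕ) : ℤ_[5]) : ℤ_[5][X]) = 5 := by
      rw [C_eq_natCast]
      rfl
    rw [h5C] at hn
    have hNc : N = C ν * c - 5 * n := by linear_combination -hn
    set g : ℤ_[5][X] := 35 * n ^ 2 + 2 * T with hg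
    have hFg : F = C 5 * g + c * (7 * C ν ^ 2 * c - 70 * C ν * n) := by
      have e5 : (C 5 : ℤ_[5][X]) = 5 := C_ofNat 5
      rw [hFNT, hNc, hg, e5]
      ring
    have h1 : Q5B.R c F = 5 ^ 3 * Q5B.R c g := by
      apply hinj
      change (PadicInt.Coe.ringHom (p := 5)) _ = (PadicInt.Coe.ringHom (p := 5)) _
      rw [map_mul, Q5B.R_map (PadicInt.Coe.ringHom (p := 5)) c F hc, Q5B.R_map (PadicInt.Coe.ringHom (p := 5)) c g hc, hFg]
      simp only [Polynomial.map_add, Polynomial.map_mul]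
      rw [FFb.M_add _ _ _ hcI, FFb.M_mul _ _ _ hcI, Polynomial.map_C, Q5B.M_C,
        hc.natDegree_map, h3, map_pow]
    have h2 : (PadicInt.toZMod (p := 5)) (Q5B.R c g) ≠ 0 := by
      rw [Q5B.R_map (PadicInt.toZMod (p := 5)) c g hc]
      apply Q5B.M_ne_zero _ _ hcK
      have e1 : g.map (PadicInt.toZMod (p := 5)) = T.map (PadicInt.toZMod (p := 5)) * C 2 := by
        rw [hg]
        simp only [Polynomial.map_add, Polynomial.map_mul, Polynomial.map_pow,
          Polynomial.map_ofNat]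
        have e1 : (35 : (ZMod 5)[X]) = 0 := by
          rw [← C_ofNat 35, show (OfNat.ofNat 35 : ZMod 5) = 0 from Q5B.thr5, C_0]
        have e2 : (2 : (ZMod 5)[X]) = C 2 := (C_ofNat 2).symm
        rw [e1, e2]
        ring
      rw [e1]
      exact (isCoprime_mul_unit_right_right
        (isUnit_C.2 (isUnit_iff_ne_zero.2 Q5B.two5)) _ _).2 hcN
    have h5p : Prime (5 : ℤ_[5]) := by
      have := PadicInt.prime_p (p := 5)
      exact_mod_cast this
    rw [h1] at hs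
    have h50 : (5 : ℤ_[5]) ≠ 0 := h5p.ne_zero
    obtain ⟨s1, rfl⟩ : (5 : ℤ_[5]) ∣ s := h5p.dvd_of_dvd_pow (n := 2) ⟨5 ^ 2 * Q5B.R c g, by
      rw [← hs]; ring⟩
    have hs1 : s1 ^ 2 = 5 * Q5B.R c g := by
      apply mul_left_cancel₀ (pow_ne_zero 2 h50)
      linear_combination -hs
    obtain ⟨s2, rfl⟩ : (5 : ℤ_[5]) ∣ s1 := h5p.dvd_of_dvd_pow (n := 2) ⟨_, hs1⟩
    have hs2 : Q5B.R c g = 5 * s2 ^ 2 := by
      apply mul_left_cancel₀ h50
      linear_combination -hs1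
    apply h2
    rw [hs2, map_mul]
    have : (PadicInt.toZMod (p := 5)) (5 : ℤ_[5]) = 0 := by
      have e : (5 : ℤ_[5]) = ((5 : ℕ) : ℤ_[5]) := by norm_cast
      rw [e, map_natCast]
      exact ZMod.natCast_self 5
    rw [this, zero_mul]

end Q5B

/-- `F` restricted to a line is not a square modulo a monic cubic polynomial over `ℤ_5`.

PROOF. Notation: `κ : ℤ_[5] →+* ZMod 5` is `PadicInt.toZMod`, `ι : ℤ_[5] →+* ℚ_[5]` is
`PadicInt.Coe.ringHom`, bar means `Polynomial.map κ`, `F = - sextic (pvec P Q) = 10 T + 7 N^2`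
(`sextic_pvec`), `N = nrm P Q`, `T = trc P Q`. `c` is monic of degree 3. Use the resultant with the
monic first argument: FFb.lean (namespace `Pool.Agent.Work.MP_2dff99_ag.FFb`, over a field) has
`M H r = resultant H r H.natDegree r.natDegree`, `M_eq`, `M_mul`, `M_add`, `coprime_of_M`.
Let `R g := resultant c g 3 6 : ℤ_[5]` for `g.natDegree ≤ 6`; it commutes with `map`
(`Polynomial.resultant_map_map`), `N.natDegree ≤ 3`, `T.natDegree ≤ 6`, `F.natDegree ≤ 6`.
Step 0. `ι (R F) = M (c.map ι) (F.map ι) = M (c.map ι) (A ^ 2) = M (c.map ι) A ^ 2` by `M_add`, `M_mul`. So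
`ι (R F) = s ^ 2`, `s : ℚ_[5]`; as `‖s‖^2 = ‖R F‖ ≤ 1`, `s` is the image of `s' : ℤ_[5]` and
`R F = s' ^ 2` in `ℤ_[5]`.
Case 1: bar c and bar N coprime. In `ZMod 5` (where `10 = 0`, `7 = 2`):
`κ (R F) = M (bar c) (2 * bar N ^ 2) = 2^3 * M (bar c) (bar N)^2`, and `M (bar c) (bar N) ≠ 0`
(resultant of coprime polynomials; e.g. from a Bezout identity `u c + v N = 1`:
`1 = M c 1 = M c (v N) = M c v * M c N` by `M_one, M_add, M_mul`). So `κ s' ^ 2 = 3 * n ^ 2`, `n ≠ 0` in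
`ZMod 5`: `decide`.
Case 2: not coprime. `bar N` is irreducible of degree 3 (`five_line`), so `bar N ∣ bar c`, both of degree
3 and `bar c` monic: `bar N = C (bar ν) * bar c` with `ν := N.coeff 3 : ℤ_[5]`, `κ ν ≠ 0`. Then
`N = C ν * c - 5 * n` for some `n : ℤ_[5][X]` (all coefficients of `C ν * c - N` are divisible
by 5: `Lift3.dvd_of_map` in Lift3.lean), and
`F = 7 (C ν c - 5 n)^2 + 10 T = c * (7 ν^2 c - 70 ν n) + 5 * (35 n^2 + 2 T)`.
So over `ℚ_[5]`: `ι (R F) = M (c.map ι) (5 * g) = 5^3 * M (c.map ι) g` with `g = (35 n^2 + 2 T).map ι`,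
that is `R F = 5^3 * R (35 n^2 + 2 T)` (degrees ≤ 6). And
`κ (R (35 n^2 + 2 T)) = M (bar c) (2 * bar T) ≠ 0` as `bar c` is coprime to `bar T` (`five_line`,
`bar N = C (bar ν) * bar c`). So `‖R F‖ = 5^(-3)` but `R F = s' ^ 2` has norm `5^(-2 k)` or 0
(`PadicInt.norm_eq_zpow_neg_valuation`, parity of the exponent), contradiction. -/
theorem q5_poly [Fact (Nat.Prime 5)] (P Q : Fin 3 → ℤ_[5])
    (ind : LinearIndependent (ZMod 5)
      ![fun i => PadicInt.toZMod (P i), fun i => PadicInt.toZMod (Q i)])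
    (c : ℤ_[5][X]) (hc : c.Monic) (h3 : c.natDegree = 3) (A B : ℚ_[5][X])
    (h : (- sextic (pvec P Q)).map PadicInt.Coe.ringHom =
      A ^ 2 + c.map PadicInt.Coe.ringHom * B) : False := by
  obtain ⟨hN3, hNirr, hNT⟩ := five_line (fun i => PadicInt.toZMod (P i))
    (fun i => PadicInt.toZMod (Q i)) ind
  rw [← nrm_map PadicInt.toZMod P Q] at hN3 hNirr hNT
  rw [← trc_map PadicInt.toZMod P Q] at hNT
  exact Q5B.core _ _ _ c (sextic_pvec P Q) hN3 hNirr hNT hc h3 A B h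

end Pool.Agent.Work.MP_2dff99_ag.F5
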