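import Pool.Agent.Work.MP_2dff99_ag.F5.Q5Def
import Pool.Agent.Work.MP_2dff99_ag.F5.DMap

open Polynomial

namespace Pool.Agent.Work.MP_2dff99_ag.F5

namespace Q5F

theorem fin5 : ∀ x y z : ZMod 5, (x ≠ 0 ∨ y ≠ 0 ∨ z ≠ 0) →
    x * ((x + 3 * z) * (x + 3 * z) - (3 * y - z) * y) +
      z * (y * (x + 3 * z) - (3 * y - z) * z) - y * (y * y - (x + 3 * z) * z) ≠ 0 := by
  decide +kernel

theorem det5 (v : Fin 3 → ZMod 5) (hv : v ≠ 0) : (mulMat v).det ≠ 0 := by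
  have h1 : v 0 ≠ 0 ∨ v 1 ≠ 0 ∨ v 2 ≠ 0 := by
    by_contra hcon
    push Not at hcon
    apply hv
    funext i
    fin_cases i
    · exact hcon.1
    · exact hcon.2.1
    · exact hcon.2.2
  rw [det_mulMat]
  exact fin5 (v 0) (v 1) (v 2) h1

theorem nrm_poly {R : Type*} [CommRing R] (P Q : Fin 3 → R) : nrm P Q =
    C ((mulMat P).det) * X ^ 3 + C (3 * P 0 ^ 2 * Q 0 + 6 * P 0 ^ 2 * Q 2 - 6 * P 0 * P 1 * Q 1 + 3 * P 0 * P 1 * Q 2 + 12 * P 0 * P 2 * Q 0 + 3 * P 0 * P 2 * Q 1 + 18 * P 0 * P 2 * Q 2 - 3 * P 1 ^ 2 * Q 0 - 3 * P 1 ^ 2 * Q 1 + 3 * P 1 * P 2 * Q 0 + 6 * P 1 * P 2 * Q 2 + 9 * P 2 ^ 2 * Q 0 + 3 * P 2 ^ 2 * Q 1 + 3 * P 2 ^ 2 * Q 2) * X ^ 2 +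
    C (3 * P 0 * Q 0 ^ 2 + 12 * P 0 * Q 0 * Q 2 - 3 * P 0 * Q 1 ^ 2 + 3 * P 0 * Q 1 * Q 2 + 9 * P 0 * Q 2 ^ 2 - 6 * P 1 * Q 0 * Q 1 + 3 * P 1 * Q 0 * Q 2 - 3 * P 1 * Q 1 ^ 2 + 3 * P 1 * Q 2 ^ 2 + 6 * P 2 * Q 0 ^ 2 + 3 * P 2 * Q 0 * Q 1 + 18 * P 2 * Q 0 * Q 2 + 6 * P 2 * Q 1 * Q 2 + 3 * P 2 * Q 2 ^ 2) * X +
    C ((mulMat Q).det) := by
  unfold nrm
  rw [det_mulMat, det_mulMat, det_mulMat]
  simp only [pvec, C_add, C_sub, C_mul, C_pow, C_ofNat]
  ring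

theorem eval_nrm {R : Type*} [CommRing R] (P Q : Fin 3 → R) (x : R) :
    (nrm P Q).eval x = (mulMat (fun i => x * P i + Q i)).det := by
  unfold nrm
  rw [det_mulMat, det_mulMat]
  simp only [pvec, eval_add, eval_sub, eval_mul, eval_pow, eval_C, eval_X, eval_ofNat]
  ring

theorem eval_trc {R : Type*} [CommRing R] (P Q : Fin 3 → R) (x : R) :
    (trc P Q).eval x = (mulMat (![1, -1, 0] : Fin 3 → R) ^ 2 *
      mulMat (fun i => x * P i + Q i) ^ 6).trace := by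
  have h1 : (mulMat (![1, -1, 0] : Fin 3 → R[X])).map (evalRingHom x) =
      mulMat (![1, -1, 0] : Fin 3 → R) := by
    rw [mulMat_map]
    congr 1
    funext i
    fin_cases i <;> simp
  have h2 : (mulMat (pvec P Q)).map (evalRingHom x) = mulMat (fun i => x * P i + Q i) := by
    rw [mulMat_map]
    congr 1
    funext i
    simp [pvec]
    ring
  unfold trc
  rw [← h1, ← h2, ← RingHom.mapMatrix_apply, ← RingHom.mapMatrix_apply, ← map_pow, ← map_pow,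
    ← map_mul]
  exact AddMonoidHom.map_trace (evalRingHom x).toAddMonoidHom _

theorem det_diag {F : Type*} [Field F] {θ : Fin 3 → F} (h : Roots θ) (v : Fin 3 → F) :
    (mulMat v).det = ∏ i, xi (θ i) v := by
  have h5 := congrArg Matrix.det (vand_mul h v)
  rw [Matrix.det_mul, Matrix.det_mul, Matrix.det_diagonal, mul_comm] at h5
  exact mul_right_cancel₀ (vand_det h) h5

theorem trace_diag {F : Type*} [Field F] {θ : Fin 3 → F} (h : Roots θ) (v : Fin 3 → F) :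
    (mulMat ![1, -1, 0] ^ 2 * mulMat v ^ 6 : Matrix (Fin 3) (Fin 3) F).trace =
      ∑ i, (1 - θ i) ^ 2 * xi (θ i) v ^ 6 := by
  have hV : IsUnit (Matrix.vandermonde θ).det := isUnit_iff_ne_zero.2 (vand_det h)
  have h1 : Matrix.vandermonde θ * (mulMat ![1, -1, 0] ^ 2 * mulMat v ^ 6) =
      Matrix.diagonal (fun i => (1 - θ i) ^ 2 * xi (θ i) v ^ 6) * Matrix.vandermonde θ := by
    rw [← mul_assoc, vand_pow h, mul_assoc, vand_pow h, ← mul_assoc, Matrix.diagonal_pow,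
      Matrix.diagonal_pow, Matrix.diagonal_mul_diagonal]
    congr 2
    funext i
    simp [xi, sub_eq_add_neg]
  have h3 : (mulMat ![1, -1, 0] ^ 2 * mulMat v ^ 6 : Matrix (Fin 3) (Fin 3) F) =
      (Matrix.vandermonde θ)⁻¹ *
      (Matrix.diagonal (fun i => (1 - θ i) ^ 2 * xi (θ i) v ^ 6) * Matrix.vandermonde θ) := by
    rw [← h1, ← mul_assoc, Matrix.nonsing_inv_mul _ hV, one_mul]
  rw [h3, Matrix.trace_mul_comm, mul_assoc, Matrix.mul_nonsing_inv _ hV, mul_one,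
    Matrix.trace_diagonal]

theorem key2 {K : Type*} [Field K] [CharP K 5] (b m2 : K) (hb0 : b ≠ 0) (hm : m2 ≠ 0)
    (g2 : b ^ 125 = b) (g3 : m2 ^ 125 = m2)
    (h : (b ^ 25) ^ 2 * (-m2 ^ 5) ^ 6 + b ^ 2 * m2 ^ 6 = 0) : False := by
  have k0 : b ^ 2 * m2 ^ 6 * (b ^ 48 * m2 ^ 24 + 1) = 0 := by
    linear_combination h
  have k1 : b ^ 48 * m2 ^ 24 = -1 := by
    have k3 := (mul_eq_zero.1 k0).resolve_left (mul_ne_zero (pow_ne_zero 2 hb0) (pow_ne_zero 6 hm))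
    linear_combination k3
  have b1 : b ^ 124 = 1 := by
    have k4 : b * b ^ 124 = b * 1 := by
      rw [mul_one, ← pow_succ']
      exact g2
    exact mul_left_cancel₀ hb0 k4
  have c1 : m2 ^ 124 = 1 := by
    have k4 : m2 * m2 ^ 124 = m2 * 1 := by
      rw [mul_one, ← pow_succ']
      exact g3
    exact mul_left_cancel₀ hm k4
  have k3 : (b ^ 48 * m2 ^ 24) ^ 31 = 1 := by
    have e : (b ^ 48 * m2 ^ 24) ^ 31 = (b ^ 124) ^ 12 * (m2 ^ 124) ^ 6 := by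
      rw [mul_pow, ← pow_mul, ← pow_mul, ← pow_mul, ← pow_mul]
    rw [e, b1, c1, one_pow, one_pow, one_mul]
  rw [k1] at k3
  have k5 : (2 : K) = 0 := by
    have : (-1 : K) ^ 31 = -1 := by norm_num
    rw [this] at k3
    linear_combination -k3
  have k6 : ((2 : ℕ) : K) = 0 := by exact_mod_cast k5
  rw [CharP.cast_eq_zero_iff K 5] at k6
  omega

/-- the arithmetic in `F_125` -/
theorem key {K : Type*} [Field K] [CharP K 5] (a p q : Fin 3 → K)
    (ha0 : a 0 ^ 5 = a 1) (ha1 : a 1 ^ 5 = a 2) (ha2 : a 2 ^ 5 = a 0)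
    (hp0 : p 0 ^ 5 = p 1) (hp1 : p 1 ^ 5 = p 2) (hp2 : p 2 ^ 5 = p 0)
    (hq0 : q 0 ^ 5 = q 1) (hq1 : q 1 ^ 5 = q 2) (hq2 : q 2 ^ 5 = q 0)
    (h1 : a 2 ≠ 1) (hm : p 0 * q 2 - p 2 * q 0 ≠ 0)
    (h : (1 - a 1) ^ 2 * (p 0 * q 1 - p 1 * q 0) ^ 6 +
      (1 - a 2) ^ 2 * (p 0 * q 2 - p 2 * q 0) ^ 6 = 0) : False := by
  have : Fact (Nat.Prime 5) := ⟨Nat.prime_five⟩
  have sub5 : ∀ u v : K, (u - v) ^ 5 = u ^ 5 - v ^ 5 := fun u v => sub_pow_char (p := 5) u v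
  have e1 : (p 0 * q 2 - p 2 * q 0) ^ 5 = -(p 0 * q 1 - p 1 * q 0) := by
    rw [sub5, mul_pow, mul_pow, hp0, hq2, hp2, hq0, neg_sub]
  have e2 : (p 0 * q 1 - p 1 * q 0) ^ 5 = p 1 * q 2 - p 2 * q 1 := by
    rw [sub5, mul_pow, mul_pow, hp0, hq1, hp1, hq0]
  have e3 : (p 1 * q 2 - p 2 * q 1) ^ 5 = -(p 0 * q 2 - p 2 * q 0) := by
    rw [sub5, mul_pow, mul_pow, hp1, hq2, hp2, hq1, neg_sub]
  have f0 : (1 - a 0) ^ 5 = 1 - a 1 := by rw [sub5, ha0, one_pow]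
  have f1 : (1 - a 1) ^ 5 = 1 - a 2 := by rw [sub5, ha1, one_pow]
  have f2 : (1 - a 2) ^ 5 = 1 - a 0 := by rw [sub5, ha2, one_pow]
  have hb0 : 1 - a 2 ≠ 0 := sub_ne_zero.2 (Ne.symm h1)
  have g1 : 1 - a 1 = (1 - a 2) ^ 25 := by
    rw [← f0, ← f2, ← pow_mul]
  have g2 : (1 - a 2) ^ 125 = 1 - a 2 := by
    rw [show 125 = 25 * 5 from rfl, pow_mul, ← g1, f1]
  have neg5 : ∀ u : K, (-u) ^ 5 = - u ^ 5 := fun u => by ring
  have g3 : (p 0 * q 2 - p 2 * q 0) ^ 125 = p 0 * q 2 - p 2 * q 0 := by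
    rw [show 125 = 5 * 5 * 5 from rfl, pow_mul, pow_mul, e1, neg5, e2, neg5, e3, neg_neg]
  have g4 : p 0 * q 1 - p 1 * q 0 = - (p 0 * q 2 - p 2 * q 0) ^ 5 := by rw [e1, neg_neg]
  rw [g1, g4] at h
  exact key2 _ _ hb0 hm g2 g3 h

theorem aux (K : Type) [Field K] [CharP K 5] (f : ZMod 5 →+* K) (a : K) (ha : a ^ 3 = 3 * a - 1)
    (P Q : Fin 3 → ZMod 5) (ind : LinearIndependent (ZMod 5) ![P, Q]) (x : K)
    (hx' : (mulMat (fun i => x * f (P i) + f (Q i))).det = 0)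
    (hxT' : (mulMat (![1, -1, 0] : Fin 3 → K) ^ 2 *
      mulMat (fun i => x * f (P i) + f (Q i)) ^ 6).trace = 0) : False := by
  have hF : Fact (Nat.Prime 5) := ⟨Nat.prime_five⟩
  have h50 : (5 : K) = 0 := by
    have := CharP.cast_eq_zero K 5
    exact_mod_cast this
  have h30 : (3 : K) ≠ 0 := by
    intro h0
    have k6 : ((3 : ℕ) : K) = 0 := by exact_mod_cast h0
    rw [CharP.cast_eq_zero_iff K 5] at k6
    omega
  have hR := roots_of_root h30 a ha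
  set θ : Fin 3 → K := ![a, a ^ 2 - 2, 2 - a - a ^ 2] with hθ
  have frob : ∀ t : K, t ^ 3 = 3 * t - 1 → t ^ 5 = 2 - t - t ^ 2 := by
    intro t ht
    linear_combination (t ^ 2 + 3) * ht + (2 * t - 1) * h50
  have t0 : θ 0 ^ 5 = θ 2 := by
    rw [frob _ (hR.root 0)]
    rfl
  have t2 : θ 2 ^ 5 = θ 1 := by
    rw [frob _ (hR.root 2)]
    change 2 - (2 - a - a ^ 2) - (2 - a - a ^ 2) ^ 2 = a ^ 2 - 2
    linear_combination (-(a + 2)) * ha
  have t1 : θ 1 ^ 5 = θ 0 := by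
    rw [frob _ (hR.root 1)]
    change 2 - (a ^ 2 - 2) - (a ^ 2 - 2) ^ 2 = a
    linear_combination (-a) * ha
  have xif : ∀ (t : K) (v : Fin 3 → ZMod 5), xi t (fun i => f (v i)) ^ 5 =
      xi (t ^ 5) (fun i => f (v i)) := by
    intro t v
    have add5 : ∀ u v : K, (u + v) ^ 5 = u ^ 5 + v ^ 5 := fun u v => add_pow_char (p := 5) u v
    have ff : ∀ c : ZMod 5, (f c) ^ 5 = f c := by
      intro c
      rw [← map_pow, ZMod.pow_card]
    simp only [xi]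
    rw [add5, add5, mul_pow, mul_pow, ff, ff, ff, ← pow_mul, ← pow_mul, mul_comm 2 5]
  have hone : ∀ i, θ i ≠ 1 := by
    intro i h1
    have := hR.root i
    rw [h1] at this
    have k5 : (1 : K) = 0 := by linear_combination -this
    exact one_ne_zero k5
  rw [Q5F.det_diag hR] at hx'
  rw [Q5F.trace_diag hR, Fin.sum_univ_three] at hxT'
  have hindK := ind_map f P Q ind
  rw [LinearIndependent.pair_iff] at hindK
  have hxi : ∀ i, xi (θ i) (fun j => x * f (P j) + f (Q j)) =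
      x * xi (θ i) (fun j => f (P j)) + xi (θ i) (fun j => f (Q j)) := by
    intro i
    simp only [xi]
    ring
  simp only [hxi] at hx' hxT'
  set pp : Fin 3 → K := fun i => xi (θ i) (fun j => f (P j)) with hpp
  set qq : Fin 3 → K := fun i => xi (θ i) (fun j => f (Q j)) with hqq
  have p0 : pp 0 ^ 5 = pp 2 := by simp only [hpp]; rw [xif, t0]
  have p2 : pp 2 ^ 5 = pp 1 := by simp only [hpp]; rw [xif, t2]
  have p1 : pp 1 ^ 5 = pp 0 := by simp only [hpp]; rw [xif, t1]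
  have q0 : qq 0 ^ 5 = qq 2 := by simp only [hqq]; rw [xif, t0]
  have q2 : qq 2 ^ 5 = qq 1 := by simp only [hqq]; rw [xif, t2]
  have q1 : qq 1 ^ 5 = qq 0 := by simp only [hqq]; rw [xif, t1]
  have hnot : ¬ (x * pp 0 + qq 0 = 0 ∧ x * pp 1 + qq 1 = 0 ∧ x * pp 2 + qq 2 = 0) := by
    rintro ⟨w0, w1, w2⟩
    have hv : (fun j => x * f (P j) + f (Q j)) = 0 := by
      apply xi_inj hR
      intro i
      rw [hxi]
      fin_cases i
      · exact w0
      · exact w1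
      · exact w2
    have := hindK x 1 (by
      funext j
      have := congrFun hv j
      simpa using this)
    exact one_ne_zero this.2
  have hpne : ∀ i, pp i ≠ 0 := by
    have hall : ¬ (pp 0 = 0 ∧ pp 1 = 0 ∧ pp 2 = 0) := by
      rintro ⟨w0, w1, w2⟩
      have hv : (fun j => f (P j)) = 0 := by
        apply xi_inj hR
        intro i
        fin_cases i
        · exact w0
        · exact w1
        · exact w2
      have := hindK 1 0 (by
        funext j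
        have := congrFun hv j
        simpa using this)
      exact one_ne_zero this.1
    intro i hi
    apply hall
    fin_cases i
    · have w2 : pp 2 = 0 := by rw [← p0]; simp only [Fin.zero_eta] at hi; rw [hi]; ring
      have w1 : pp 1 = 0 := by rw [← p2, w2]; ring
      exact ⟨hi, w1, w2⟩
    · have w0 : pp 0 = 0 := by rw [← p1]; simp only [Fin.mk_one] at hi; rw [hi]; ring
      have w2 : pp 2 = 0 := by rw [← p0, w0]; ring
      exact ⟨w0, hi, w2⟩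
    · have w1 : pp 1 = 0 := by rw [← p2]; simp only [Fin.reduceFinMk] at hi; rw [hi]; ring
      have w0 : pp 0 = 0 := by rw [← p1, w1]; ring
      exact ⟨w0, w1, hi⟩
  rw [Fin.prod_univ_three] at hx'
  have main : ∀ i0 i1 i2 : Fin 3, θ i0 ^ 5 = θ i1 → θ i1 ^ 5 = θ i2 → θ i2 ^ 5 = θ i0 →
      pp i0 ^ 5 = pp i1 → pp i1 ^ 5 = pp i2 → pp i2 ^ 5 = pp i0 →
      qq i0 ^ 5 = qq i1 → qq i1 ^ 5 = qq i2 → qq i2 ^ 5 = qq i0 →
      x * pp i0 + qq i0 = 0 →
      (1 - θ i1) ^ 2 * (x * pp i1 + qq i1) ^ 6 + (1 - θ i2) ^ 2 * (x * pp i2 + qq i2) ^ 6 = 0 →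
      ¬ (x * pp i1 + qq i1 = 0 ∧ x * pp i2 + qq i2 = 0) → False := by
    intro i0 i1 i2 s0 s1 s2 s3 s4 s5 s6 s7 s8 hz hs hn
    have hp := hpne i0
    have m1 : pp i0 * qq i1 - pp i1 * qq i0 = pp i0 * (x * pp i1 + qq i1) := by
      linear_combination (-pp i1) * hz
    have m2 : pp i0 * qq i2 - pp i2 * qq i0 = pp i0 * (x * pp i2 + qq i2) := by
      linear_combination (-pp i2) * hz
    refine Q5F.key ![θ i0, θ i1, θ i2] ![pp i0, pp i1, pp i2] ![qq i0, qq i1, qq i2]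
      s0 s1 s2 s3 s4 s5 s6 s7 s8 (hone i2) ?_ ?_
    · change pp i0 * qq i2 - pp i2 * qq i0 ≠ 0
      rw [m2]
      refine mul_ne_zero hp ?_
      intro h2
      apply hn
      refine ⟨?_, h2⟩
      rw [h2] at hs
      have h3 : (1 - θ i1) ^ 2 * (x * pp i1 + qq i1) ^ 6 = 0 := by linear_combination hs
      have h4 : (1 - θ i1) ^ 2 ≠ 0 := pow_ne_zero 2 (sub_ne_zero.2 (Ne.symm (hone i1)))
      exact (pow_eq_zero_iff (by norm_num)).1 ((mul_eq_zero.1 h3).resolve_left h4)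
    · change (1 - θ i1) ^ 2 * (pp i0 * qq i1 - pp i1 * qq i0) ^ 6 +
        (1 - θ i2) ^ 2 * (pp i0 * qq i2 - pp i2 * qq i0) ^ 6 = 0
      rw [m1, m2]
      linear_combination (pp i0 ^ 6) * hs
  rcases mul_eq_zero.1 hx' with hx0 | hx2
  · rcases mul_eq_zero.1 hx0 with hx0 | hx1
    · exact main 0 2 1 t0 t2 t1 p0 p2 p1 q0 q2 q1 hx0 (by
        rw [hx0] at hxT'
        linear_combination hxT') (fun h => hnot ⟨hx0, h.2, h.1⟩)
    · exact main 1 0 2 t1 t0 t2 p1 p0 p2 q1 q0 q2 hx1 (by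
        rw [hx1] at hxT'
        linear_combination hxT') (fun h => hnot ⟨h.1, hx1, h.2⟩)
  · exact main 2 1 0 t2 t1 t0 p2 p1 p0 q2 q1 q0 hx2 (by
      rw [hx2] at hxT'
      linear_combination hxT') (fun h => hnot ⟨h.2, h.1, hx2⟩)


end Q5F

/-- On every line over `F_5` the norm form is irreducible and coprime to the trace form.

PROOF. Let `k = ZMod 5`, `N = nrm P Q`, `T = trc P Q`.
(a) Finite check: `(mulMat v).det ≠ 0` for all `v ≠ 0` in `k^3` (`det_mulMat` in SxE.lean, `decide` over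
three variables). `N.natDegree ≤ 3`, `N.coeff 3 = (mulMat P).det ≠ 0` (expand by `det_mulMat`), hence
`natDegree = 3`; `N.eval x = (mulMat (x P + Q)).det ≠ 0` for all `x` as `P, Q` are independent. A cubic
without roots is irreducible (`Polynomial.irreducible_iff_roots_eq_zero_of_degree_le_three`).
(b) Coprime. If not, then `N ∣ T` (`Irreducible.coprime_iff_not_dvd`). Let
`K = AlgebraicClosure (ZMod 5)`, `f = algebraMap`, `x : K` a root of `N` (`IsAlgClosed.exists_aeval_eq_zero`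
or `exists_root`), so also a root of `T`. Let `v = x P + Q` in `K^3` (images under `f`). By
`roots_exist K` get `θ`, `Roots θ`. `∏ i, xi (θ i) v = (mulMat v).det = 0` (proof of `h4` inside
`sextic_diag`, Sx.lean), so after renaming the roots (compose `θ` with a permutation, as in NT.closed)
`xi (θ 0) v = 0`; and `Tr = ∑ i, (1 - θ i)^2 * xi (θ i) v ^ 6 = 0` (`h2` inside `sextic_diag`; or use
`sextic_diag` itself with `10 = 0`, no: in characteristic 5 the coefficient 10 dies, so copy `h2`).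
So `(1 - θ 1)^2 * (xi (θ 1) v)^6 + (1 - θ 2)^2 * (xi (θ 2) v)^6 = 0`. (1)
Let `p i = xi (θ i) P`, `q i = xi (θ i) Q`; `p 0 ≠ 0` (norm of `P`), `x = - q 0 / p 0`, and with
`m i = p 0 * q i - p i * q 0` we have `xi (θ i) v = m i / p 0`. So with `A = (1 - θ 1) * m 1 ^ 3`,
`B = (1 - θ 2) * m 2 ^ 3`: `A^2 + B^2 = 0`. (2)
Frobenius `y ↦ y^5` fixes the entries of `P, Q` and maps `θ 0 ↦ θ 0 ^ 5 = 2 - θ 0 - θ 0 ^ 2`
(`θ^3 = 3 θ - 1`, `5 = 0`); this is the next root in `roots_of_root`, so there are two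
cases `θ 0 ^ 5 = θ 1` or `θ 0 ^ 5 = θ 2` and it is a 3-cycle in both cases. Say
`θ 0 ^ 5 = θ 1, θ 1 ^ 5 = θ 2, θ 2 ^ 5 = θ 0` (else exchange the names 1 and 2; (2) is symmetric). Then
`p i ^ 5 = p (i + 1)`, same for `q`. So `(m 2)^5 = (p 0 q 2 - p 2 q 0)^5 = p 1 q 0 - p 0 q 1 = - m 1`, and
`(1 - θ 2)^5 = 1 - θ 0`, `(1 - θ 0)^5 = 1 - θ 1`.
All these elements `y` satisfy `y ^ 125 = y`, so for nonzero `y`: `y ^ 124 = 1`, `y ^ 62 = 1 or -1` and
`(y ^ 5) ^ 62 = y ^ 62` (as `y ^ 248 = 1`). So `A ^ 62 = (1 - θ 1)^62 * (m 1)^186` and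
`B ^ 62 = (1 - θ 2)^62 * (m 2)^186` are equal (`(1 - θ 1)^62 = (1 - θ 0)^62 = (1 - θ 2)^62`,
`(m 1)^62 = (- (m 2)^5)^62 = (m 2)^62`), and nonzero: `θ i ≠ 1` since `1 ≠ 3 - 1` modulo 5, and
`m i = 0` would give, with `xi (θ 0) v = 0`, `xi (θ i) v = 0` for all `i`, (m 1 and m 2 vanish together
by Frobenius), so `v = 0` (`xi_inj`), impossible for independent `P, Q`.
But (2) gives `A^2 = - B^2`, `A^62 = (A^2)^31 = - B^62`, so `2 * B^62 = 0`, contradiction.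
ALTERNATIVE for (b), if you prefer computation: a finite check over all independent `P, Q` that the
remainder of `T` modulo `N` is nonzero. -/
theorem five_line (P Q : Fin 3 → ZMod 5) (ind : LinearIndependent (ZMod 5) ![P, Q]) :
    (nrm P Q).natDegree = 3 ∧ Irreducible (nrm P Q) ∧ IsCoprime (nrm P Q) (trc P Q) := by
  have hF : Fact (Nat.Prime 5) := ⟨Nat.prime_five⟩
  have hP0 : P ≠ 0 := by
    have := ind.ne_zero 0
    simpa using this
  have hd3 : (nrm P Q).natDegree = 3 := by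
    rw [Q5F.nrm_poly]
    have := Q5F.det5 P hP0
    compute_degree!
  have hN0 : nrm P Q ≠ 0 := by
    intro h0
    rw [h0] at hd3
    simp at hd3
  have hirr : Irreducible (nrm P Q) := by
    rw [irreducible_iff_roots_eq_zero_of_degree_le_three (by omega) (by omega)]
    rw [Multiset.eq_zero_iff_forall_notMem]
    intro x hx
    have h1 := (mem_roots hN0).1 hx
    rw [IsRoot.def, Q5F.eval_nrm] at h1
    refine Q5F.det5 _ ?_ h1
    intro h0
    rw [LinearIndependent.pair_iff] at ind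
    have := ind x 1 (by
      funext i
      have := congrFun h0 i
      simpa using this)
    exact one_ne_zero this.2
  refine ⟨hd3, hirr, ?_⟩
  rw [hirr.coprime_iff_not_dvd]
  intro hdvd
  obtain ⟨K, hK, hA, hC⟩ : ∃ (K : Type) (_ : Field K) (_ : Algebra (ZMod 5) K), IsAlgClosed K :=
    ⟨AlgebraicClosure (ZMod 5), inferInstance, inferInstance, inferInstance⟩
  have hchar : CharP K 5 := charP_of_injective_algebraMap (algebraMap (ZMod 5) K).injective 5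
  set f : ZMod 5 →+* K := algebraMap (ZMod 5) K with hf
  obtain ⟨x, hx⟩ := IsAlgClosed.exists_aeval_eq_zero K (nrm P Q) (by
    rw [degree_eq_natDegree hN0, hd3]
    decide)
  have hxT : aeval x (trc P Q) = 0 := by
    obtain ⟨g, hg⟩ := hdvd
    rw [hg, map_mul, hx, zero_mul]
  have hx' : (mulMat (fun i => x * f (P i) + f (Q i))).det = 0 := by
    rw [← Q5F.eval_nrm, ← nrm_map, eval_map]
    exact hx
  have hxT' : (mulMat (![1, -1, 0] : Fin 3 → K) ^ 2 *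
      mulMat (fun i => x * f (P i) + f (Q i)) ^ 6).trace = 0 := by
    rw [← Q5F.eval_trc, ← trc_map, eval_map]
    exact hxT
  have h30 : (3 : K) ≠ 0 := by
    intro h0
    have k6 : ((3 : ℕ) : K) = 0 := by exact_mod_cast h0
    rw [CharP.cast_eq_zero_iff K 5] at k6
    omega
  obtain ⟨θ, hθ⟩ := roots_exist K h30
  exact Q5F.aux K f (θ 0) (hθ.root 0) P Q ind x hx' hxT'

end Pool.Agent.Work.MP_2dff99_ag.F5
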