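import Pool.Agent.Work.MP_2dff99_ag.F5.Base
open MvPolynomial
namespace Pool.Agent.Work.MP_2dff99_ag.F5

/-- multiplication in the cubic ring -/
def kmul {R : Type*} [CommRing R] (v w : Fin 3 → R) : Fin 3 → R :=
  ![v 0 * w 0 - v 1 * w 2 - v 2 * w 1,
    v 0 * w 1 + v 1 * w 0 + 3 * (v 1 * w 2 + v 2 * w 1) - v 2 * w 2,
    v 0 * w 2 + v 1 * w 1 + v 2 * w 0 + 3 * v 2 * w 2]

theorem mulMat_mul {R : Type*} [CommRing R] (v w : Fin 3 → R) :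
    mulMat v * mulMat w = mulMat (kmul v w) := by
  ext i j
  fin_cases i <;> fin_cases j <;> simp [mulMat, kmul, Matrix.mul_apply, Fin.sum_univ_three] <;> ring

theorem trace_mulMat {R : Type*} [CommRing R] (v : Fin 3 → R) :
    (mulMat v).trace = 3 * v 0 + 6 * v 2 := by
  simp [mulMat, Matrix.trace_fin_three]; ring

theorem det_mulMat {R : Type*} [CommRing R] (v : Fin 3 → R) :
    (mulMat v).det = v 0 * ((v 0 + 3 * v 2) * (v 0 + 3 * v 2) - (3 * v 1 - v 2) * v 1)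
      + v 2 * (v 1 * (v 0 + 3 * v 2) - (3 * v 1 - v 2) * v 2)
      - v 1 * (v 1 * v 1 - (v 0 + 3 * v 2) * v 2) := by
  simp [mulMat, Matrix.det_fin_three]; ring

theorem sextic_eq {R : Type*} [CommRing R] (v : Fin 3 → R) :
    sextic v = -(10 * (3 * kmul ![1, -2, 1] (kmul (kmul (kmul v v) (kmul v v)) (kmul v v)) 0 +
      6 * kmul ![1, -2, 1] (kmul (kmul (kmul v v) (kmul v v)) (kmul v v)) 2)
      + 7 * (mulMat v).det ^ 2) := by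
  have h6 : mulMat v ^ 6 = mulMat (kmul (kmul (kmul v v) (kmul v v)) (kmul v v)) := by
    rw [← mulMat_mul, ← mulMat_mul, ← mulMat_mul]
    noncomm_ring
  have h2 : mulMat (![1, -1, 0] : Fin 3 → R) ^ 2 = mulMat ![1, -2, 1] := by
    rw [pow_two, mulMat_mul]
    congr 1
    ext i; fin_cases i <;> simp [kmul] <;> ring
  unfold sextic
  rw [h6, h2, mulMat_mul, trace_mulMat]

set_option maxHeartbeats 4000000 in
theorem sextic_expand {R : Type*} [CommRing R] (v : Fin 3 → R) :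
    sextic v = -97 * v 0 ^ 6 + 900 * v 0 ^ 5 * v 1 - 1884 * v 0 ^ 5 * v 2 - 4458 * v 0 ^ 4 * v 1 ^ 2 + 16158 * v 0 ^ 4 * v 1 * v 2 - 16128 * v 0 ^ 4 * v 2 ^ 2 + 10814 * v 0 ^ 3 * v 1 ^ 3 - 62748 * v 0 ^ 3 * v 1 ^ 2 * v 2 + 114906 * v 0 ^ 3 * v 1 * v 2 ^ 2 - 74570 * v 0 ^ 3 * v 2 ^ 3 - 15813 * v 0 ^ 2 * v 1 ^ 4 + 115410 * v 0 ^ 2 * v 1 ^ 3 * v 2 - 331785 * v 0 ^ 2 * v 1 ^ 2 * v 2 ^ 2 + 407970 * v 0 ^ 2 * v 1 * v 2 ^ 3 - 195501 * v 0 ^ 2 * v 2 ^ 4 + 11478 * v 0 * v 1 ^ 5 - 110658 * v 0 * v 1 ^ 4 * v 2 + 408852 * v 0 * v 1 ^ 3 * v 2 ^ 2 - 779484 * v 0 * v 1 ^ 2 * v 2 ^ 3 + 723180 * v 0 * v 1 * v 2 ^ 4 - 274806 * v 0 * v 2 ^ 5 - 3697 * v 1 ^ 6 + 40860 * v 1 ^ 5 * v 2 - 194808 * v 1 ^ 4 * v 2 ^ 2 + 482414 * v 1 ^ 3 * v 2 ^ 3 - 686763 * v 1 ^ 2 * v 2 ^ 4 + 512058 * v 1 * v 2 ^ 5 - 161467 * v 2 ^ 6 := by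
  rw [sextic_eq, det_mulMat]
  simp only [kmul, Matrix.cons_val_zero, Matrix.cons_val_one, Matrix.cons_val]
  ring
end Pool.Agent.Work.MP_2dff99_ag.F5
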