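import Pool.Agent.Work.MP_2dff99_ag.F5.NT
import Pool.Agent.Work.MP_2dff99_ag.F5.Q5F

open MvPolynomial

namespace Pool.Agent.Work.MP_2dff99_ag.F5

namespace Tri

theorem xi_kmul {K : Type*} [Field K] (t : K) (ht : t ^ 3 = 3 * t - 1) (v w : Fin 3 → K) :
    xi t (kmul v w) = xi t v * xi t w := by
  simp only [xi, kmul, Matrix.cons_val_zero, Matrix.cons_val_one, Matrix.cons_val]
  linear_combination (-(v 1 * w 2 + v 2 * w 1) - t * v 2 * w 2) * ht

/-- the element of the cubic algebra whose conjugates are the values of the cubic form -/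
def vv {R : Type*} [CommRing R] (w : Fin 4 → R) (P Q : Fin 3 → R) : Fin 3 → R := fun i =>
  w 0 * kmul (kmul Q Q) Q i - w 1 * kmul (kmul Q Q) P i + w 2 * kmul (kmul Q P) P i -
    w 3 * kmul (kmul P P) P i

/-- the dual coordinates of the line -/
def av {R : Type*} [CommRing R] (P Q : Fin 3 → R) : Fin 3 → R :=
  ![(P 0 * Q 1 - P 1 * Q 0) - 3 * (P 1 * Q 2 - P 2 * Q 1), -(P 0 * Q 2 - P 2 * Q 0),
    P 1 * Q 2 - P 2 * Q 1]

theorem xi_vv {K : Type*} [Field K] (t : K) (ht : t ^ 3 = 3 * t - 1) (w : Fin 4 → K)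
    (P Q : Fin 3 → K) : xi t (vv w P Q) = w 0 * xi t Q ^ 3 - w 1 * (xi t Q ^ 2 * xi t P) +
      w 2 * (xi t Q * xi t P ^ 2) - w 3 * xi t P ^ 3 := by
  have h1 : xi t (vv w P Q) = w 0 * xi t (kmul (kmul Q Q) Q) - w 1 * xi t (kmul (kmul Q Q) P) +
      w 2 * xi t (kmul (kmul Q P) P) - w 3 * xi t (kmul (kmul P P) P) := by
    simp only [xi, vv]
    ring
  rw [h1]
  simp only [xi_kmul t ht]
  ring

theorem vv_map {R S : Type*} [CommRing R] [CommRing S] (f : R →+* S) (w : Fin 4 → R)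
    (P Q : Fin 3 → R) : (fun i => f (vv w P Q i)) =
      vv (fun i => f (w i)) (fun i => f (P i)) (fun i => f (Q i)) := by
  have h3 : f 3 = 3 := map_ofNat f 3
  funext i
  fin_cases i <;> simp [vv, kmul, h3]

theorem av_map {R S : Type*} [CommRing R] [CommRing S] (f : R →+* S)
    (P Q : Fin 3 → R) : (fun i => f (av P Q i)) = av (fun i => f (P i)) (fun i => f (Q i)) := by
  have h3 : f 3 = 3 := map_ofNat f 3
  funext i
  fin_cases i <;> simp [av, h3]

theorem det_map {R S : Type*} [CommRing R] [CommRing S] (f : R →+* S) (v : Fin 3 → R) :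
    f (mulMat v).det = (mulMat (fun i => f (v i))).det := by
  rw [det_mulMat, det_mulMat]
  simp only [map_add, map_sub, map_mul, map_ofNat]

theorem prod_pt {K : Type} [Field K] (θ : Fin 3 → K) (hR : Roots θ) (P Q : Fin 3 → K) (κ : K)
    (w : Fin 4 → K) (h : sextic (lineVec P Q) = C (-κ) * (C (w 0) * X 0 ^ 3 +
      C (w 1) * X 0 ^ 2 * X 1 + C (w 2) * X 0 * X 1 ^ 2 + C (w 3) * X 1 ^ 3) ^ 2) :
    ∏ k, sextic (NT.pt θ P Q k) = - (κ ^ 3 * (mulMat (vv w P Q)).det ^ 2) := by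
  have h1 : ∀ k, sextic (NT.pt θ P Q k) = -κ * xi (θ k) (vv w P Q) ^ 2 := by
    intro k
    have e1 := congrArg (eval ![xi (θ k) Q, -xi (θ k) P]) h
    rw [eval_sextic_line] at e1
    have e2 : NT.pt θ P Q k = (fun i => xi (θ k) Q * P i + (-xi (θ k) P) * Q i) := rfl
    rw [e2, e1, xi_vv _ (hR.root k)]
    simp only [map_mul, map_pow, map_add, eval_C, eval_X, Matrix.cons_val_zero,
      Matrix.cons_val_one]
    ring
  rw [Q5F.det_diag hR]
  simp only [h1, Fin.prod_univ_three]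
  ring

theorem disc {K : Type*} [Field K] {θ : Fin 3 → K} (hR : Roots θ) :
    ((θ 1 - θ 0) * (θ 2 - θ 1) * (θ 0 - θ 2)) ^ 2 = 81 := by
  obtain ⟨h1, h2, h3⟩ := roots_sum hR
  generalize θ 0 = a at *
  generalize θ 1 = b at *
  have hc : θ 2 = -a - b := by linear_combination h1
  rw [hc] at h2 h3 ⊢
  have e2 : a ^ 2 + a * b + b ^ 2 = 3 := by linear_combination -h2
  have e3 : (a + b) * (a * b) = 1 := by linear_combination -h3
  have e4 : (3 + a * b) * (a * b) ^ 2 = 1 := by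
    have : (a + b) ^ 2 = 3 + a * b := by linear_combination e2
    rw [← this]
    linear_combination ((a + b) * (a * b) + 1) * e3
  have e5 : ((b - a) * (-a - b - b) * (a - (-a - b))) ^ 2 =
      ((a + b) ^ 2 - 4 * (a * b)) * (2 * (a + b) ^ 2 + a * b) ^ 2 := by ring
  rw [e5, show (a + b) ^ 2 = 3 + a * b by linear_combination e2]
  linear_combination (-27) * e4

theorem dd_sq {K : Type*} [Field K] {θ : Fin 3 → K} (hR : Roots θ) (P Q : Fin 3 → K) :
    NT.dd θ P Q ^ 2 = 81 * (mulMat (av P Q)).det ^ 2 := by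
  obtain ⟨h1, h2, h3⟩ := roots_sum hR
  have key : ∀ i j k : Fin 3, θ i + θ j + θ k = 0 → θ i * θ j + θ i * θ k + θ j * θ k = -3 →
      xi (θ i) P * xi (θ j) Q - xi (θ j) P * xi (θ i) Q = (θ j - θ i) * xi (θ k) (av P Q) := by
    intro i j k g1 g2
    have e1 : θ i + θ j = - θ k := by linear_combination g1
    have e2 : θ i * θ j = θ k ^ 2 - 3 := by linear_combination g2 - θ k * g1
    have e3 : xi (θ i) P * xi (θ j) Q - xi (θ j) P * xi (θ i) Q = (θ j - θ i) *
        ((P 0 * Q 1 - P 1 * Q 0) + (θ i + θ j) * (P 0 * Q 2 - P 2 * Q 0) +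
          (θ i * θ j) * (P 1 * Q 2 - P 2 * Q 1)) := by
      simp only [xi]
      ring
    rw [e3, e1, e2]
    simp only [xi, av, Matrix.cons_val_zero, Matrix.cons_val_one, Matrix.cons_val]
    ring
  rw [Q5F.det_diag hR, Fin.prod_univ_three]
  unfold NT.dd
  rw [key 0 1 2 (by linear_combination h1) (by linear_combination h2),
    key 1 2 0 (by linear_combination h1) (by linear_combination h2),
    key 2 0 1 (by linear_combination h1) (by linear_combination h2)]
  linear_combination (xi (θ 0) (av P Q) * xi (θ 1) (av P Q) * xi (θ 2) (av P Q)) ^ 2 * disc hR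

theorem fin {F : Type*} [Field F] (κ W N c s : F) (hs : s ≠ 0) (hN : N ≠ 0)
    (h : c ^ 2 * (κ ^ 3 * W ^ 2) = (s * N ^ 3) ^ 2) : (∃ y, y ≠ 0 ∧ κ = y ^ 2) ∧ W ≠ 0 := by
  have h0 : (s * N ^ 3) ^ 2 ≠ 0 := pow_ne_zero 2 (mul_ne_zero hs (pow_ne_zero 3 hN))
  rw [← h] at h0
  have hc : c ≠ 0 := by
    rintro rfl
    apply h0
    ring
  have hκ : κ ≠ 0 := by
    rintro rfl
    apply h0
    ring
  have hW : W ≠ 0 := by
    rintro rfl
    apply h0
    ring
  refine ⟨⟨s * N ^ 3 / (c * κ * W), div_ne_zero (mul_ne_zero hs (pow_ne_zero 3 hN))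
    (mul_ne_zero (mul_ne_zero hc hκ) hW), ?_⟩, hW⟩
  rw [div_pow, ← h]
  field_simp

/-- descent of the relations to the prime field -/
theorem core {F : Type} [Field F] (h2 : (2 : F) ≠ 0) (h3 : (3 : F) ≠ 0)
    (h5 : (5 : F) ≠ 0) (h7 : (7 : F) ≠ 0) (P Q : Fin 3 → F)
    (ind : LinearIndependent F ![P, Q]) (κ : F) (w : Fin 4 → F)
    (h : sextic (lineVec P Q) = C (-κ) * (C (w 0) * X 0 ^ 3 + C (w 1) * X 0 ^ 2 * X 1 +
      C (w 2) * X 0 * X 1 ^ 2 + C (w 3) * X 1 ^ 3) ^ 2) :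
    (mulMat (av P Q)).det ≠ 0 ∧
    (((125343 : F) = 0 ∧ 4 * (κ ^ 3 * (mulMat (vv w P Q)).det ^ 2) =
      10 * (65610 * (mulMat (av P Q)).det ^ 3) ^ 2) ∨
    ((35939744 : F) = 0 ∧ κ ^ 3 * (mulMat (vv w P Q)).det ^ 2 =
      5 * (29160 * (mulMat (av P Q)).det ^ 3) ^ 2)) := by
  obtain ⟨K, hK, hA, hC⟩ : ∃ (K : Type) (_ : Field K) (_ : Algebra F K), IsAlgClosed K :=
    ⟨AlgebraicClosure F, inferInstance, inferInstance, inferInstance⟩
  set f : F →+* K := algebraMap F K with hf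
  have hinj : Function.Injective f := (algebraMap F K).injective
  have hnum : ∀ n : ℕ, (n : F) ≠ 0 → (n : K) ≠ 0 := by
    intro n hn h0
    apply hn
    apply hinj
    rw [map_natCast, h0, map_zero]
  have hnum' : ∀ n : ℕ, (n : K) = 0 → (n : F) = 0 := by
    intro n hn
    by_contra h0
    exact hnum n h0 hn
  obtain ⟨i, j, hm⟩ := NT.minor P Q ind
  have hmap : sextic (lineVec (fun n => f (P n)) (fun n => f (Q n))) =
      C (-(f κ)) * (C (f (w 0)) * X 0 ^ 3 + C (f (w 1)) * X 0 ^ 2 * X 1 +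
      C (f (w 2)) * X 0 * X 1 ^ 2 + C (f (w 3)) * X 1 ^ 3) ^ 2 := by
    rw [← map_sextic_line, h]
    simp only [map_mul, map_pow, map_add, map_neg, MvPolynomial.map_C, MvPolynomial.map_X]
  obtain ⟨θ, hR, hdd, hcase⟩ := NT.closed (K := K)
    (by exact_mod_cast hnum 2 (by exact_mod_cast h2))
    (by exact_mod_cast hnum 3 (by exact_mod_cast h3))
    (by exact_mod_cast hnum 5 (by exact_mod_cast h5))
    (neg_ne_zero.2 (by exact_mod_cast hnum 7 (by exact_mod_cast h7)))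
    (fun n => f (P n)) (fun n => f (Q n))
    ⟨i, j, by
      rw [← map_mul, ← map_mul, ← map_sub]
      exact (map_ne_zero f).mpr hm⟩ (-(f κ)) _ hmap
  have hpr := prod_pt θ hR _ _ (f κ) (fun n => f (w n)) hmap
  have hds := dd_sq hR (fun n => f (P n)) (fun n => f (Q n))
  rw [← vv_map, ← det_map] at hpr
  rw [← av_map, ← det_map] at hds
  have hd6 : NT.dd θ (fun n => f (P n)) (fun n => f (Q n)) ^ 6 =
      (81 * f (mulMat (av P Q)).det ^ 2) ^ 3 := by
    rw [← hds]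
    ring
  rw [hpr, hd6] at hcase
  refine ⟨?_, ?_⟩
  · intro h0
    rw [h0, map_zero] at hds
    apply hdd
    have : NT.dd θ (fun n => f (P n)) (fun n => f (Q n)) ^ 2 = 0 := by
      rw [hds]
      ring
    exact (pow_eq_zero_iff (by norm_num)).1 this
  · rcases hcase with ⟨k1, k2⟩ | ⟨k1, k2⟩
    · left
      refine ⟨by exact_mod_cast hnum' 125343 (by exact_mod_cast k1), ?_⟩
      apply hinj
      simp only [map_mul, map_pow, map_ofNat]
      linear_combination -k2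
    · right
      refine ⟨by exact_mod_cast hnum' 35939744 (by exact_mod_cast k1), ?_⟩
      apply hinj
      simp only [map_mul, map_pow, map_ofNat]
      linear_combination -k2

theorem w_ne {F : Type*} [Field F] (w : Fin 4 → F) (P Q : Fin 3 → F)
    (h : (mulMat (vv w P Q)).det ≠ 0) : ∃ n, w n ≠ 0 := by
  by_contra hcon
  push Not at hcon
  apply h
  have : vv w P Q = 0 := by
    funext i
    simp [vv, hcon]
  rw [this, det_mulMat]
  simp

end Tri

/-- If the reduction of `F = - sextic` to a line over `F_p` is `κ` times a square, then `κ` is a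
nonzero square. (The line is then tritangent; this occurs only for `p = 733` and `p = 26119`.)

PROOF.
Put `K = AlgebraicClosure (ZMod p)`, `f = algebraMap`. Write `W s t` for the cubic form
`w0 s^3 + w1 s^2 t + w2 s t^2 + w3 t^3`.

Step 0. `125343 = 3^2 * 19 * 733`, `35939744 = 2^5 * 43 * 26119`. If `p ≠ 733` and `p ≠ 26119` both
numbers are nonzero in `ZMod p` and `no_tritangent (ZMod p) ... (-κ) (W (X 0) (X 1))` is a
contradiction. So let `p = 733` or `p = 26119`.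

Step 1. As in the proof of `no_tritangent` apply `NT.closed (K := K)` to
`fun n => f (P n)`, `fun n => f (Q n)`, `f (-κ)`, `MvPolynomial.map f (W ..)`: get `θ` with
`hR : Roots θ`, `dd θ P Q ≠ 0` and
(I) `(125343 : K) = 0 ∧ 4 * ∏ k, sextic (pt θ P Q k) = 81 * (-1000) * dd θ P Q ^ 6`, or
(II) `(35939744 : K) = 0 ∧ ∏ k, sextic (pt θ P Q k) = 8 * (-1000) * dd θ P Q ^ 6`.
(Check with the definitions `NT.pt`, `NT.dd` in NT.lean: `pt θ P Q k` is the zero of `xi (θ k)` on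
the line, `± (xi_k(Q) P - xi_k(P) Q)`, and `dd` is the product of the three
`xi_i(P) xi_j(Q) - xi_j(P) xi_i(Q)`, up to sign.)

Step 2. Evaluate `h` (mapped to `K`) at `s = xi_k(Q)`, `t = - xi_k(P)`:
`sextic (pt θ P Q k) = - f κ * (W s t)^2`, and with the product `kmul` of SxE.lean
`W (xi_k Q) (- xi_k P) = xi_k (V)` where `V := w0 Q^3 - w1 Q^2 P + w2 Q P^2 - w3 P^3` computed with
`kmul` over `ZMod p` (`xi (θ k) (kmul a b) = xi (θ k) a * xi (θ k) b` because `θ k ^ 3 = 3 θ k - 1`;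
one line `linear_combination`), then mapped by `f`. Hence
`∏ k, sextic (pt θ P Q k) = - f κ ^ 3 * f W' ^ 2`, `W' := (mulMat V).det` over `ZMod p`
(`∏ k, xi (θ k) v = (mulMat v).det` is `h4` in the proof of `sextic_diag` in Sx.lean; copy it).

Step 3. `xi_i(P) xi_j(Q) - xi_j(P) xi_i(Q) = (θ j - θ i) * xi (θ k) a'` for `{i, j, k} = {0, 1, 2}`,
with `m01 = P0 Q1 - P1 Q0`, `m02 = P0 Q2 - P2 Q0`, `m12 = P1 Q2 - P2 Q1`,
`a' = ![m01 - 3 m12, - m02, m12]` (use `roots_sum`: `θ i + θ j = - θ k`, `θ i θ j = θ k ^ 2 - 3`).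
Hence `dd^2 = 81 * f N ^ 2`, `N := (mulMat a').det` over `ZMod p`, since
`((θ 0 - θ 1) (θ 0 - θ 2) (θ 1 - θ 2))^2 = 81` (from `roots_sum`). In particular `N ≠ 0`.

Step 4. (I), p = 733: `4 * κ^3 * W'^2 = 1000 * (9 * 729 * N^3)^2` (81 * 81^3 = (9 * 729)^2) in
`ZMod p` (`f` is injective), so `κ ≠ 0`, `W' ≠ 0` and `κ = 10 * (65610 * N^3 / (2 * κ * W'))^2`; `10`
is a square mod 733 (find the root by computation; `decide`/`norm_num` at the very end only).
(II), p = 26119: `κ^3 * W'^2 = 8000 * (729 * N^3)^2`, so `κ = 5 * (29160 * N^3 / (κ * W'))^2`, and `5` is a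
square mod 26119.
(In case (I) with p = 26119, or (II) with p = 733, the numbers 125343, 35939744 are not 0 mod p.)
`W' ≠ 0` gives some `w n ≠ 0` (if all `w n = 0` then `V = 0`, `W' = 0`). -/
theorem tri_good (p : ℕ) [Fact p.Prime] (h2 : p ≠ 2) (h3 : p ≠ 3) (h5 : p ≠ 5) (h7 : p ≠ 7)
    (h19 : p ≠ 19) (h43 : p ≠ 43) (P Q : Fin 3 → ZMod p)
    (ind : LinearIndependent (ZMod p) ![P, Q]) (κ : ZMod p) (w : Fin 4 → ZMod p)
    (h : sextic (lineVec P Q) = C (-κ) * (C (w 0) * X 0 ^ 3 + C (w 1) * X 0 ^ 2 * X 1 +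
      C (w 2) * X 0 * X 1 ^ 2 + C (w 3) * X 1 ^ 3) ^ 2) :
    ∃ (y : ZMod p) (n : Fin 4), y ≠ 0 ∧ κ = y ^ 2 ∧ w n ≠ 0 := by
  have hpn : ∀ q : ℕ, q.Prime → p ≠ q → ((q : ℕ) : ZMod p) ≠ 0 := by
    intro q hq hpq h
    rw [ZMod.natCast_eq_zero_iff] at h
    exact hpq ((Nat.prime_dvd_prime_iff_eq Fact.out hq).mp h)
  have k2 : (2 : ZMod p) ≠ 0 := by exact_mod_cast hpn 2 Nat.prime_two h2
  have k3 : (3 : ZMod p) ≠ 0 := by exact_mod_cast hpn 3 Nat.prime_three h3
  have k5 : (5 : ZMod p) ≠ 0 := by exact_mod_cast hpn 5 Nat.prime_five h5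
  have k7 : (7 : ZMod p) ≠ 0 := by exact_mod_cast hpn 7 (by norm_num) h7
  have k19 := hpn 19 (by norm_num) h19
  have k43 := hpn 43 (by norm_num) h43
  obtain ⟨hN, hcase⟩ := Tri.core k2 k3 k5 k7 P Q ind κ w h
  rcases hcase with ⟨k1, hc⟩ | ⟨k1, hc⟩
  · have hp : p = 733 := by
      by_contra hne
      have k733 := hpn 733 (by norm_num) hne
      have : (125343 : ZMod p) = 3 ^ 2 * ((19 : ℕ) : ZMod p) * ((733 : ℕ) : ZMod p) := by
        norm_num
      rw [this] at k1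
      exact mul_ne_zero (mul_ne_zero (pow_ne_zero 2 k3) k19) k733 k1
    subst hp
    obtain ⟨⟨y, hy, hκ⟩, hW⟩ := Tri.fin κ (mulMat (Tri.vv w P Q)).det (mulMat (Tri.av P Q)).det
      2 (47 * 65610) (by
        have e : ((47 * 65610 : ℕ) : ZMod 733) ≠ 0 := by
          rw [ne_eq, ZMod.natCast_eq_zero_iff]
          norm_num
        exact_mod_cast e) hN (by
        have e : ((47 ^ 2 : ℕ) : ZMod 733) = ((10 : ℕ) : ZMod 733) := by
          rw [ZMod.natCast_eq_natCast_iff]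
          decide
        push_cast at e
        linear_combination hc - (65610 * (mulMat (Tri.av P Q)).det ^ 3) ^ 2 * e)
    obtain ⟨n, hn⟩ := Tri.w_ne w P Q hW
    exact ⟨y, n, hy, hκ, hn⟩
  · have hp : p = 26119 := by
      by_contra hne
      have k733 := hpn 26119 (by norm_num) hne
      have : (35939744 : ZMod p) = 2 ^ 5 * ((43 : ℕ) : ZMod p) * ((26119 : ℕ) : ZMod p) := by
        norm_num
      rw [this] at k1
      exact mul_ne_zero (mul_ne_zero (pow_ne_zero 5 k2) k43) k733 k1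
    subst hp
    obtain ⟨⟨y, hy, hκ⟩, hW⟩ := Tri.fin κ (mulMat (Tri.vv w P Q)).det (mulMat (Tri.av P Q)).det
      1 (10480 * 29160) (by
        have e : ((10480 * 29160 : ℕ) : ZMod 26119) ≠ 0 := by
          rw [ne_eq, ZMod.natCast_eq_zero_iff]
          norm_num
        exact_mod_cast e) hN (by
        have e : ((10480 ^ 2 : ℕ) : ZMod 26119) = ((5 : ℕ) : ZMod 26119) := by
          rw [ZMod.natCast_eq_natCast_iff]
          decide
        push_cast at e
        linear_combination hc - (29160 * (mulMat (Tri.av P Q)).det ^ 3) ^ 2 * e)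
    obtain ⟨n, hn⟩ := Tri.w_ne w P Q hW
    exact ⟨y, n, hy, hκ, hn⟩

end Pool.Agent.Work.MP_2dff99_ag.F5
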